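import Mathlib

/-!
# MP_1a91b9_nt (discriminant form), block B0: the basis of the monomials
-/

set_option autoImplicit false

namespace Pool.Agent.Lib.MP_1a91b9_ntDF

open NumberField

noncomputable section

/-- `∏ e_i ^ χ_i`. -/
def mon {R : Type} [CommMonoid R] {p r : ℕ} (χ : Fin r → ZMod p) (e : Fin r → R) : R :=
  ∏ i, e i ^ (χ i).val

theorem mon_zero {R : Type} [CommMonoid R] {p r : ℕ} (e : Fin r → R) :
    mon (0 : Fin r → ZMod p) e = 1 := by
  unfold mon
  refine Finset.prod_eq_one fun i _ => ?_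
  rw [Pi.zero_apply, ZMod.val_zero, pow_zero]

theorem mon_map {R S : Type} [CommMonoid R] [CommMonoid S] {p r : ℕ} (f : R →* S)
    (χ : Fin r → ZMod p) (e : Fin r → R) : mon χ (fun i => f (e i)) = f (mon χ e) := by
  unfold mon
  rw [map_prod]
  refine Finset.prod_congr rfl fun i _ => ?_
  rw [map_pow]

theorem mon_ne_zero {R : Type} [CommMonoidWithZero R] [NoZeroDivisors R] [Nontrivial R] {p r : ℕ}
    (χ : Fin r → ZMod p) {e : Fin r → R} (he : ∀ i, e i ≠ 0) : mon χ e ≠ 0 := by
  unfold mon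
  exact Finset.prod_ne_zero_iff.2 fun i _ => pow_ne_zero _ (he i)

theorem mon_pow {R : Type} [CommMonoid R] {p r : ℕ} (χ : Fin r → ZMod p) (e : Fin r → R) (n : ℕ) :
    mon χ (fun i => e i ^ n) = mon χ e ^ n := by
  unfold mon
  rw [← Finset.prod_pow]
  refine Finset.prod_congr rfl fun i _ => ?_
  rw [← pow_mul, ← pow_mul, mul_comm]

/-- The product of two monomials. -/
theorem mon_mul {p r : ℕ} [NeZero p] (χ ψ : Fin r → ZMod p) :
    ∃ k : Fin r → ℕ, ∀ {R : Type} [CommMonoid R] (e : Fin r → R),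
      mon χ e * mon ψ e = mon (χ + ψ) e * ∏ i, (e i ^ p) ^ k i := by
  refine ⟨fun i => ((χ i).val + (ψ i).val) / p, fun {R} _ e => ?_⟩
  unfold mon
  rw [← Finset.prod_mul_distrib, ← Finset.prod_mul_distrib]
  refine Finset.prod_congr rfl fun i _ => ?_
  rw [← pow_add, ← pow_mul, ← pow_add, Pi.add_apply, ZMod.val_add]
  congr 1
  exact (Nat.mod_add_div _ _).symm

/-- The product of opposite monomials. -/
theorem mon_neg {p r : ℕ} [NeZero p] (χ : Fin r → ZMod p) {R : Type} [CommMonoid R] (e : Fin r → R) :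
    mon χ e * mon (-χ) e = ∏ i, if χ i = 0 then 1 else e i ^ p := by
  unfold mon
  rw [← Finset.prod_mul_distrib]
  refine Finset.prod_congr rfl fun i _ => ?_
  rw [← pow_add, Pi.neg_apply]
  split_ifs with h
  · rw [h, neg_zero, ZMod.val_zero, add_zero, pow_zero]
  · congr 1
    rw [ZMod.neg_val, if_neg h]
    have h1 := ZMod.val_lt (χ i)
    omega

/-- `N = K(x_1, .., x_r)` of degree `p ^ r`, `x_i ^ p = e_i`. -/
structure Kx (p : ℕ) {K N : Type} [Field K] [Field N] [Algebra K N] {r : ℕ} (e : Fin r → K)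
    (x : Fin r → N) : Prop where
  cu : ∀ i, x i ^ p = algebraMap K N (e i)
  gen : IntermediateField.adjoin K (Set.range x) = ⊤
  deg : Module.finrank K N = p ^ r

section Kx

variable {p : ℕ} [Fact p.Prime] {K N : Type} [Field K] [Field N] [Algebra K N] {r : ℕ}
  {e : Fin r → K} {x : Fin r → N}

theorem Kx.mul (h : Kx p e x) (χ ψ : Fin r → ZMod p) :
    ∃ c : K, mon χ x * mon ψ x = algebraMap K N c * mon (χ + ψ) x := by
  obtain ⟨k, hk⟩ := mon_mul χ ψ
  refine ⟨∏ i, e i ^ k i, ?_⟩
  rw [hk, map_prod, mul_comm]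
  congr 1
  refine Finset.prod_congr rfl fun i _ => ?_
  rw [h.cu i, map_pow]

theorem Kx.span [FiniteDimensional K N] (h : Kx p e x) :
    ⊤ ≤ Submodule.span K (Set.range fun χ : Fin r → ZMod p => mon χ x) := by
  classical
  have hp : p ≠ 0 := (Fact.out : p.Prime).ne_zero
  obtain ⟨V, hV⟩ : ∃ V : Submodule K N, V = Submodule.span K (Set.range fun χ : Fin r → ZMod p =>
    mon χ x) := ⟨_, rfl⟩
  rw [← hV]
  have hmem : ∀ χ : Fin r → ZMod p, mon χ x ∈ V := fun χ => by
    rw [hV]
    exact Submodule.subset_span ⟨χ, rfl⟩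
  have h1 : (1 : N) ∈ V := by
    have h2 := hmem 0
    rwa [mon_zero] at h2
  have hmul : ∀ y ∈ V, ∀ z ∈ V, y * z ∈ V := by
    intro y hy z hz
    have hy' := hy
    rw [hV] at hy'
    refine Submodule.span_induction (p := fun y _ => y * z ∈ V) ?_ ?_ ?_ ?_ hy'
    · rintro _ ⟨χ, rfl⟩
      have hz' := hz
      rw [hV] at hz'
      refine Submodule.span_induction (p := fun z _ => mon χ x * z ∈ V) ?_ ?_ ?_ ?_ hz'
      · rintro _ ⟨ψ, rfl⟩
        obtain ⟨c, hc⟩ := h.mul χ ψ
        show mon χ x * mon ψ x ∈ V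
        rw [hc, ← Algebra.smul_def]
        exact V.smul_mem _ (hmem _)
      · rw [mul_zero]
        exact V.zero_mem
      · intro a b _ _ ha hb
        rw [mul_add]
        exact V.add_mem ha hb
      · intro c a _ ha
        rw [mul_smul_comm]
        exact V.smul_mem _ ha
    · rw [zero_mul]
      exact V.zero_mem
    · intro a b _ _ ha hb
      rw [add_mul]
      exact V.add_mem ha hb
    · intro c a _ ha
      rw [smul_mul_assoc]
      exact V.smul_mem _ ha
  have hx : ∀ i, x i ∈ V := by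
    intro i
    by_cases hp1 : p = 1
    · exact absurd hp1 (Fact.out : p.Prime).one_lt.ne'
    have h2 := hmem (Pi.single i 1)
    have h3 : mon (Pi.single i 1 : Fin r → ZMod p) x = x i := by
      unfold mon
      rw [Finset.prod_eq_single i]
      · rw [Pi.single_eq_same, ZMod.val_one, pow_one]
      · intro j _ hj
        rw [Pi.single_eq_of_ne hj, ZMod.val_zero, pow_zero]
      · intro h
        exact absurd (Finset.mem_univ i) h
    rwa [h3] at h2
  have hA : ∀ z : N, z ∈ Algebra.adjoin K (Set.range x) → z ∈ V := by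
    intro z hz
    refine Algebra.adjoin_induction (p := fun z _ => z ∈ V) ?_ ?_ ?_ ?_ hz
    · rintro _ ⟨i, rfl⟩
      exact hx i
    · intro c
      rw [Algebra.algebraMap_eq_smul_one]
      exact V.smul_mem _ h1
    · intro a b _ _ ha hb
      exact V.add_mem ha hb
    · intro a b _ _ ha hb
      exact hmul a ha b hb
  intro z _
  refine hA z ?_
  rw [← IntermediateField.adjoin_toSubalgebra, h.gen]
  trivial

/-- The basis of the monomials. -/
def Kx.basis [FiniteDimensional K N] (h : Kx p e x) : Module.Basis (Fin r → ZMod p) K N :=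
  basisOfTopLeSpanOfCardEqFinrank (fun χ : Fin r → ZMod p => mon χ x) h.span (by
    rw [h.deg, Fintype.card_fun, ZMod.card, Fintype.card_fin])

theorem Kx.basis_apply [FiniteDimensional K N] (h : Kx p e x) (χ : Fin r → ZMod p) :
    h.basis χ = mon χ x := by
  unfold Kx.basis
  rw [coe_basisOfTopLeSpanOfCardEqFinrank]

/-- The trace of a monomial. -/
theorem Kx.trace_mon [FiniteDimensional K N] (h : Kx p e x) {φ : Fin r → ZMod p} (hφ : φ ≠ 0) :
    Algebra.trace K N (mon φ x) = 0 := by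
  classical
  rw [Algebra.trace_eq_matrix_trace h.basis, Matrix.trace]
  refine Finset.sum_eq_zero fun χ _ => ?_
  rw [Matrix.diag_apply, Algebra.leftMulMatrix_eq_repr_mul, h.basis_apply]
  obtain ⟨c, hc⟩ := h.mul φ χ
  rw [hc, ← Algebra.smul_def, map_smul, ← h.basis_apply, Module.Basis.repr_self, Finsupp.smul_single,
    Finsupp.single_eq_of_ne]
  intro h1
  apply hφ
  have h2 : φ + χ = 0 + χ := by rw [zero_add]; exact h1.symm
  exact add_right_cancel h2

/-- The automorphisms. -/
theorem Kx.aut [FiniteDimensional K N] (h : Kx p e x) {ζ : K} (hζ : ζ ^ p = 1) (a : Fin r → ZMod p) :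
    ∃ σ : N →ₐ[K] N, ∀ χ, σ (mon χ x) = algebraMap K N (ζ ^ (χ ⬝ᵥ a).val) * mon χ x := by
  classical
  have hz : ∀ s t : ZMod p, ζ ^ (s + t).val = ζ ^ s.val * ζ ^ t.val := by
    intro s t
    rw [ZMod.val_add, ← pow_add, ← pow_eq_pow_mod _ hζ]
  let f : N →ₗ[K] N := h.basis.constr K fun χ => algebraMap K N (ζ ^ (χ ⬝ᵥ a).val) * mon χ x
  have hf : ∀ χ, f (mon χ x) = algebraMap K N (ζ ^ (χ ⬝ᵥ a).val) * mon χ x := by
    intro χ
    have h1 := h.basis.constr_basis K (fun χ => algebraMap K N (ζ ^ (χ ⬝ᵥ a).val) * mon χ x) χ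
    rw [h.basis_apply] at h1
    exact h1
  have hf1 : f 1 = 1 := by
    have h1 := hf 0
    rw [mon_zero, zero_dotProduct, ZMod.val_zero, pow_zero, mul_one] at h1
    rw [h1]
    exact map_one _
  have hfm : ∀ y z, f (y * z) = f y * f z := by
    intro y z
    have hb : ∀ χ ψ : Fin r → ZMod p, f (mon χ x * mon ψ x) = f (mon χ x) * f (mon ψ x) := by
      intro χ ψ
      obtain ⟨c, hc⟩ := h.mul χ ψ
      have e1 : f (mon χ x * mon ψ x) = algebraMap K N (ζ ^ (χ ⬝ᵥ a + ψ ⬝ᵥ a).val) *
          (mon χ x * mon ψ x) := by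
        rw [hc, ← Algebra.smul_def, map_smul, hf, add_dotProduct, Algebra.smul_def, Algebra.smul_def]
        ring
      rw [e1, hf, hf, hz, map_mul]
      ring
    have h1 : ∀ (z : N) (χ : Fin r → ZMod p), f (mon χ x * z) = f (mon χ x) * f z := by
      intro z χ
      have h3 : f ∘ₗ (LinearMap.mulLeft K (mon χ x)) = (LinearMap.mulLeft K (f (mon χ x))) ∘ₗ f := by
        refine h.basis.ext fun ψ => ?_
        rw [LinearMap.comp_apply, LinearMap.comp_apply, LinearMap.mulLeft_apply, LinearMap.mulLeft_apply,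
          h.basis_apply]
        exact hb χ ψ
      have h4 := LinearMap.congr_fun h3 z
      exact h4
    have h3 : f ∘ₗ (LinearMap.mulRight K z) = (LinearMap.mulRight K (f z)) ∘ₗ f := by
      refine h.basis.ext fun χ => ?_
      rw [LinearMap.comp_apply, LinearMap.comp_apply, LinearMap.mulRight_apply, LinearMap.mulRight_apply,
        h.basis_apply]
      exact h1 z χ
    exact LinearMap.congr_fun h3 y
  exact ⟨AlgHom.ofLinearMap f hf1 hfm, hf⟩

end Kx

end

end Pool.Agent.Lib.MP_1a91b9_ntDF
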