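import Pool.Agent.Lib.MP_1a91b9_ntDF.BDefs

set_option autoImplicit false

noncomputable section

namespace Pool.Agent.Lib.MP_1a91b9_ntDF

open NumberField

variable {K : Type} [Field K] [NumberField K]

private theorem BU10_prime [IsPrincipalIdealRing (𝓞 K)] : ∃ P : 𝓞 K, Prime P := by
  obtain ⟨x, hx, hx2⟩ := Ring.exists_not_isUnit_of_not_isField (NumberField.RingOfIntegers.not_isField K)
  obtain ⟨P, hP, -⟩ := WfDvdMonoid.exists_irreducible_factor hx2 hx
  exact ⟨P, hP.prime⟩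

private theorem BU10_one [IsPrincipalIdealRing (𝓞 K)] {p : ℕ} (hp : p ≠ 0) (y : 𝓞 K) (hy : y ≠ 0) :
    ∃ g z : 𝓞 K, g ≠ 0 ∧ PF p z ∧ y = g ^ p * z := by
  have hwf : WellFounded (DvdNotUnit (α := 𝓞 K)) := IsWellFounded.wf
  induction y using hwf.induction with
  | _ y ih =>
    by_cases h : PF p y
    · exact ⟨1, y, one_ne_zero, h, by rw [one_pow, one_mul]⟩
    · unfold PF at h
      push Not at h
      obtain ⟨P, hP, y1, h1⟩ := h
      have hy1 : y1 ≠ 0 := by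
        rintro rfl
        rw [mul_zero] at h1
        exact hy h1
      have hd : DvdNotUnit y1 y := by
        refine ⟨hy1, P ^ p, fun hu => hP.not_isUnit (isUnit_of_dvd_unit (dvd_pow_self P hp) hu), ?_⟩
        rw [h1, mul_comm]
      obtain ⟨g, z, hg, hz, h2⟩ := ih y1 hd hy1
      refine ⟨P * g, z, mul_ne_zero hP.ne_zero hg, hz, ?_⟩
      rw [h1, h2, mul_pow, mul_assoc]

/-- leaf BU10: existence of g -/
theorem exists_GD [IsPrincipalIdealRing (𝓞 K)] {p r : ℕ} [Fact p.Prime] {d : Fin r → 𝓞 K} (hd : ∀ i, PF p (d i)) :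
    ∃ g : (Fin r → ZMod p) → 𝓞 K, GD p d g := by
  have hp : p ≠ 0 := (Fact.out : p.Prime).ne_zero
  obtain ⟨P, hP⟩ := BU10_prime (K := K)
  have hd0 : ∀ i, d i ≠ 0 := by
    intro i h
    exact hd i P hP (h ▸ dvd_zero _)
  have h1 : ∀ χ : Fin r → ZMod p, mon χ d ≠ 0 := by
    intro χ
    unfold mon
    exact Finset.prod_ne_zero_iff.2 fun i _ => pow_ne_zero _ (hd0 i)
  choose g z hg hz hgz using fun χ => BU10_one hp (mon χ d) (h1 χ)
  exact ⟨g, hg, fun χ => ⟨z χ, hz χ, hgz χ⟩⟩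

end Pool.Agent.Lib.MP_1a91b9_ntDF
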