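import Pool.Agent.Lib.MP_1a91b9_ntDF.BDefs

set_option autoImplicit false

noncomputable section

namespace Pool.Agent.Lib.MP_1a91b9_ntDF

open NumberField

variable {K : Type} [Field K] [NumberField K]

/-- leaf BU4: the index does not change when the prime-to-p parts are removed -/
theorem index_Qw [IsPrincipalIdealRing (𝓞 K)] {p r : ℕ} [Fact p.Prime] {N : Type} [Field N] [NumberField N]
    [Algebra K N] {d : Fin r → 𝓞 K} {x : Fin r → N} (h : Kx p (dK d) x) {g w u : (Fin r → ZMod p) → 𝓞 K}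
    (hg : GD p d g) (hw : ∀ χ, g χ = w χ * u χ ∧ IsCoprime (u χ) (p : 𝓞 K)) :
    (Qw x g).index = (Qw x w).index := by
  classical
  have hp : p.Prime := Fact.out
  have hu0 : ∀ χ, u χ ≠ 0 := fun χ h0 => hg.ne χ (by rw [(hw χ).1, h0, mul_zero])
  have hw0 : ∀ χ, w χ ≠ 0 := fun χ h0 => hg.ne χ (by rw [(hw χ).1, h0, zero_mul])
  have hN : ∀ a : 𝓞 K, a ≠ 0 → algebraMap K N (a : K) ≠ 0 := by
    intro a ha h0
    rw [map_eq_zero] at h0
    exact ha (RingOfIntegers.coe_eq_zero_iff.1 h0)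
  have cm : ∀ a b : 𝓞 K, ((a * b : 𝓞 K) : K) = (a : K) * (b : K) := fun a b =>
    map_mul (algebraMap (𝓞 K) K) a b
  have cq : ∀ (a : 𝓞 K) (k : ℕ), ((a ^ k : 𝓞 K) : K) = (a : K) ^ k := fun a k =>
    map_pow (algebraMap (𝓞 K) K) a k
  have cn : ((p : 𝓞 K) : K) = (p : K) := map_natCast (algebraMap (𝓞 K) K) p
  have hpN : (p : N) ≠ 0 := Nat.cast_ne_zero.2 hp.ne_zero
  obtain ⟨f, hf⟩ : ∃ f : ((Fin r → ZMod p) → 𝓞 K) →+ ((Fin r → ZMod p) → 𝓞 K),
      ∀ c χ, f c χ = u χ * c χ :=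
    ⟨{ toFun := fun c χ => u χ * c χ
       map_zero' := by
         funext χ
         rw [Pi.zero_apply, mul_zero]
       map_add' := by
         intro a b
         funext χ
         show u χ * (a χ + b χ) = u χ * a χ + u χ * b χ
         ring }, fun c χ => rfl⟩
  have h1 : Qw x w = (Qw x g).comap f := by
    ext c
    rw [AddSubgroup.mem_comap, mem_Qw, mem_Qw]
    have h2 : ∑ χ, algebraMap K N (c χ : K) * tht x w χ =
        ∑ χ, algebraMap K N ((f c χ : 𝓞 K) : K) * tht x g χ := by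
      refine Finset.sum_congr rfl fun χ _ => ?_
      rw [hf]
      unfold tht
      have e1 : ((g χ : 𝓞 K) : K) = (w χ : K) * (u χ : K) := by rw [(hw χ).1, cm]
      have e2 : ((u χ * c χ : 𝓞 K) : K) = (u χ : K) * (c χ : K) := cm _ _
      rw [e1, e2, map_mul, map_mul]
      have h3 := hN _ (hu0 χ)
      have h4 := hN _ (hw0 χ)
      field_simp
    rw [h2]
  have h5 : f.range ⊔ Qw x g = ⊤ := by
    rw [eq_top_iff]
    intro e _
    have h6 : ∀ χ, ∃ a b : 𝓞 K, u χ * a + (p : 𝓞 K) ^ r * b = e χ := by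
      intro χ
      obtain ⟨s, t, hst⟩ := ((hw χ).2.pow_right : IsCoprime (u χ) ((p : 𝓞 K) ^ r))
      refine ⟨s * e χ, t * e χ, ?_⟩
      calc u χ * (s * e χ) + (p : 𝓞 K) ^ r * (t * e χ) = (s * u χ + t * (p : 𝓞 K) ^ r) * e χ := by ring
        _ = e χ := by rw [hst, one_mul]
    choose a b hab using h6
    have h7 : e = f a + fun χ => (p : 𝓞 K) ^ r * b χ := by
      funext χ
      rw [Pi.add_apply, hf, hab]
    rw [h7]
    refine AddSubgroup.add_mem_sup ⟨a, rfl⟩ ?_
    rw [mem_Qw]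
    have h8 : ∑ χ, algebraMap K N (((p : 𝓞 K) ^ r * b χ : 𝓞 K) : K) * tht x g χ =
        ∑ χ, algebraMap K N (b χ : K) * (mon χ x / algebraMap K N (g χ : K)) := by
      refine Finset.sum_congr rfl fun χ _ => ?_
      unfold tht
      have e2 : (((p : 𝓞 K) ^ r * b χ : 𝓞 K) : K) = (p : K) ^ r * (b χ : K) := by
        rw [cm, cq, cn]
      rw [e2, map_mul, map_pow, map_natCast]
      have h4 := hN _ (hg.ne χ)
      field_simp
    rw [h8]
    refine IsIntegral.sum _ fun χ _ => ?_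
    refine IsIntegral.mul ((RingOfIntegers.isIntegral_coe (b χ)).algebraMap) ?_
    obtain ⟨y, -, hy⟩ := hg.ex χ
    have h9 : (mon χ x / algebraMap K N (g χ : K)) ^ p = algebraMap K N (y : K) := by
      have h10 : mon χ x ^ p = algebraMap K N ((mon χ d : 𝓞 K) : K) := by
        rw [← mon_pow]
        have h11 : (fun i => x i ^ p) = fun i => (algebraMap K N).toMonoidHom ((dK d) i) := by
          funext i
          exact h.cu i
        have h12 : ((mon χ d : 𝓞 K) : K) = mon χ (dK d) := by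
          exact (mon_map (algebraMap (𝓞 K) K).toMonoidHom χ d).symm
        rw [h11, h12, mon_map]
        rfl
      have h4 := hN _ (hg.ne χ)
      rw [div_pow, h10, hy, cm, cq, map_mul, map_pow]
      field_simp
    refine IsIntegral.of_pow hp.pos ?_
    rw [h9]
    exact (RingOfIntegers.isIntegral_coe y).algebraMap
  rw [h1, AddSubgroup.index_comap, ← AddSubgroup.relIndex_sup_right, h5, AddSubgroup.relIndex_top_right]

end Pool.Agent.Lib.MP_1a91b9_ntDF
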