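import Pool.Agent.Lib.MP_1a91b9_ntDF.BU5

set_option autoImplicit false

noncomputable section

namespace Pool.Agent.Lib.MP_1a91b9_ntDF

open NumberField

variable {K : Type} [Field K] [NumberField K]

private theorem BU6_sum {p r : ℕ} [Fact p.Prime] {N : Type} [Field N] [NumberField N] [Algebra K N]
    (x : Fin r → N) (hp0 : (p : 𝓞 K) ≠ 0) {w : (Fin r → ZMod p) → 𝓞 K} (v : (Fin r → ZMod p) → 𝓞 K)
    (hv : ∀ χ, (p : 𝓞 K) ^ (r * p) = w χ * v χ) (c : (Fin r → ZMod p) → 𝓞 K) :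
    ∑ χ, algebraMap K N (c χ) * tht x w χ =
      (∑ χ, algebraMap K N ((c χ * v χ : 𝓞 K) : K) * mon χ x) /
        algebraMap K N (((p : 𝓞 K) ^ (r + r * p) : 𝓞 K) : K) := by
  obtain ⟨j, hj⟩ : ∃ j : 𝓞 K →+* N, ∀ a, j a = algebraMap K N ((a : 𝓞 K) : K) :=
    ⟨(algebraMap K N).comp (algebraMap (𝓞 K) K), fun _ => rfl⟩
  have hji : Function.Injective j := by
    intro a b hab
    rw [hj, hj] at hab
    exact RingOfIntegers.coe_injective ((algebraMap K N).injective hab)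
  have hj0 : ∀ a, a ≠ 0 → j a ≠ 0 := fun a ha h0 => ha (hji (by rw [h0, map_zero]))
  rw [Finset.sum_div]
  refine Finset.sum_congr rfl fun χ _ => ?_
  have hwv : w χ * v χ ≠ 0 := by
    rw [← hv χ]
    exact pow_ne_zero _ hp0
  have hw0 : j (w χ) ≠ 0 := hj0 _ (left_ne_zero_of_mul hwv)
  have hv0 : j (v χ) ≠ 0 := hj0 _ (right_ne_zero_of_mul hwv)
  have hpN : (p : N) ^ r ≠ 0 := by
    refine pow_ne_zero _ ?_
    rw [← map_natCast j]
    exact hj0 _ hp0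
  unfold tht
  rw [← hj, ← hj, ← hj, ← hj, map_mul, pow_add, map_mul, hv χ, map_mul, map_pow, map_natCast]
  field_simp

private theorem BU6_coeff {p r : ℕ} [Fact p.Prime] {M : ℕ} {d d' : Fin r → 𝓞 K}
    (hdd : ∀ i, (p : 𝓞 K) ^ M ∣ d i - d' i) (y : (Fin r → ZMod p) → 𝓞 K) (k : ℕ) :
    (p : 𝓞 K) ^ M ∣ (mat d y).charpoly.coeff k - (mat d' y).charpoly.coeff k := by
  classical
  obtain ⟨f, hf⟩ : ∃ f : 𝓞 K →+* 𝓞 K ⧸ Ideal.span {(p : 𝓞 K) ^ M}, ∀ a b, f a = f b ↔ (p : 𝓞 K) ^ M ∣ a - b :=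
    ⟨Ideal.Quotient.mk _, fun a b => by rw [Ideal.Quotient.eq, Ideal.mem_span_singleton]⟩
  have h1 : (mat d y).map f = (mat d' y).map f := by
    ext φ ψ
    rw [Matrix.map_apply, Matrix.map_apply]
    unfold mat
    rw [map_mul, map_mul, map_prod, map_prod]
    congr 1
    refine Finset.prod_congr rfl fun i _ => ?_
    rw [map_pow, map_pow, (hf _ _).2 (hdd i)]
  rw [← hf, ← Polynomial.coeff_map, ← Polynomial.coeff_map, ← Matrix.charpoly_map, ← Matrix.charpoly_map, h1]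

/-- leaf BU6: Q(w) is the same for d and d' -/
theorem Qw_eq [IsPrincipalIdealRing (𝓞 K)] {p r : ℕ} [Fact p.Prime] {M : ℕ} (hM : (r + r * p) * p ^ r ≤ M)
    {d d' : Fin r → 𝓞 K} (hdd : ∀ i, (p : 𝓞 K) ^ M ∣ d i - d' i)
    {N N' : Type} [Field N] [NumberField N] [Algebra K N] [Field N'] [NumberField N'] [Algebra K N']
    {x : Fin r → N} {x' : Fin r → N'} (h : Kx p (dK d) x) (h' : Kx p (dK d') x')
    {w : (Fin r → ZMod p) → 𝓞 K} (hw : ∀ χ, w χ ∣ (p : 𝓞 K) ^ (r * p)) :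
    Qw x w = Qw x' w := by
  classical
  have hp0 : (p : 𝓞 K) ≠ 0 := Nat.cast_ne_zero.2 (Fact.out : p.Prime).ne_zero
  have hm : (p : 𝓞 K) ^ (r + r * p) ≠ 0 := pow_ne_zero _ hp0
  choose v hv using hw
  have hcard : Fintype.card (Fin r → ZMod p) = p ^ r := by
    rw [Fintype.card_fun, ZMod.card, Fintype.card_fin]
  ext c
  rw [mem_Qw, mem_Qw, BU6_sum x hp0 v hv c, BU6_sum x' hp0 v hv c, int_crit h _ hm, int_crit h' _ hm]
  refine forall₂_congr fun k hk => ?_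
  have h1 : (p : 𝓞 K) ^ M ∣ (mat d fun χ => c χ * v χ).charpoly.coeff k -
      (mat d' fun χ => c χ * v χ).charpoly.coeff k := BU6_coeff hdd _ k
  have h2 : ((p : 𝓞 K) ^ (r + r * p)) ^ (Fintype.card (Fin r → ZMod p) - k) ∣ (p : 𝓞 K) ^ M := by
    rw [← pow_mul]
    refine pow_dvd_pow _ (le_trans (Nat.mul_le_mul_left _ ?_) hM)
    rw [hcard]
    exact Nat.sub_le _ _
  exact dvd_iff_dvd_of_dvd_sub (h2.trans h1)

end Pool.Agent.Lib.MP_1a91b9_ntDF
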