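import Pool.Agent.Lib.MP_1a91b9_ntDF.BDefs

set_option autoImplicit false

noncomputable section

namespace Pool.Agent.Lib.MP_1a91b9_ntDF

open NumberField

variable {K : Type} [Field K] [NumberField K]

/-- The number of characters which do not kill a nonzero vector. -/
private theorem BU8_count {p : ℕ} [Fact p.Prime] {r : ℕ} {w : Fin r → ZMod p} (hw : w ≠ 0) :
    (Finset.univ.filter fun χ : Fin r → ZMod p => χ ⬝ᵥ w ≠ 0).card = (p - 1) * p ^ (r - 1) := by
  classical
  have hp : 0 < p := (Fact.out : p.Prime).pos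
  obtain ⟨i, hi⟩ := Function.ne_iff.1 hw
  have hi' : w i ≠ 0 := hi
  obtain ⟨s, hs⟩ : ∃ s, r = s + 1 := ⟨r - 1, by have := i.pos; omega⟩
  have hv : ∀ a : ZMod p, (Pi.single i (a * (w i)⁻¹) : Fin r → ZMod p) ⬝ᵥ w = a := by
    intro a
    rw [single_dotProduct, mul_assoc, inv_mul_cancel₀ hi', mul_one]
  have hN : ∀ a : ZMod p, (Finset.univ.filter fun χ : Fin r → ZMod p => χ ⬝ᵥ w = a).card =
      (Finset.univ.filter fun χ : Fin r → ZMod p => χ ⬝ᵥ w = 0).card := by
    intro a
    refine Finset.card_bij' (fun χ _ => χ - Pi.single i (a * (w i)⁻¹))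
      (fun χ _ => χ + Pi.single i (a * (w i)⁻¹)) ?_ ?_ ?_ ?_
    · intro χ hχ
      rw [Finset.mem_filter] at hχ ⊢
      exact ⟨Finset.mem_univ _, by rw [sub_dotProduct, hχ.2, hv, sub_self]⟩
    · intro χ hχ
      rw [Finset.mem_filter] at hχ ⊢
      exact ⟨Finset.mem_univ _, by rw [add_dotProduct, hχ.2, hv, zero_add]⟩
    · intro χ _
      exact sub_add_cancel _ _
    · intro χ _
      exact add_sub_cancel_right _ _
  have hsum : p ^ r = p * (Finset.univ.filter fun χ : Fin r → ZMod p => χ ⬝ᵥ w = 0).card := by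
    have h1 : (Finset.univ : Finset (Fin r → ZMod p)).card = ∑ a : ZMod p,
        (Finset.univ.filter fun χ : Fin r → ZMod p => χ ⬝ᵥ w = a).card :=
      Finset.card_eq_sum_card_fiberwise fun _ _ => Finset.mem_coe.2 (Finset.mem_univ _)
    rw [Finset.card_univ, Fintype.card_fun, ZMod.card, Fintype.card_fin,
      Finset.sum_congr rfl fun a _ => hN a, Finset.sum_const, Finset.card_univ, ZMod.card, smul_eq_mul] at h1
    exact h1
  have h0 : (Finset.univ.filter fun χ : Fin r → ZMod p => χ ⬝ᵥ w = 0).card = p ^ (r - 1) := by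
    have h2 : p * (Finset.univ.filter fun χ : Fin r → ZMod p => χ ⬝ᵥ w = 0).card = p * p ^ (r - 1) := by
      rw [← hsum, hs, pow_succ, mul_comm, Nat.add_sub_cancel]
    exact Nat.eq_of_mul_eq_mul_left hp h2
  have h3 := Finset.card_filter_add_card_filter_not (s := (Finset.univ : Finset (Fin r → ZMod p)))
    (fun χ : Fin r → ZMod p => χ ⬝ᵥ w = 0)
  rw [h0, Finset.card_univ, Fintype.card_fun, ZMod.card, Fintype.card_fin] at h3
  have h4 : (Finset.univ.filter fun χ : Fin r → ZMod p => χ ⬝ᵥ w ≠ 0).card + p ^ (r - 1) =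
      (p - 1) * p ^ (r - 1) + p ^ (r - 1) := by
    have h5 : (p - 1) * p ^ (r - 1) + p ^ (r - 1) = p ^ r := by
      rw [hs, Nat.add_sub_cancel, pow_succ, mul_comm (p ^ s) p]
      have h6 : (p - 1) * p ^ s + p ^ s = (p - 1 + 1) * p ^ s := by ring
      rw [h6, Nat.sub_add_cancel hp]
    rw [h5, ← h3, add_comm]
  exact Nat.add_right_cancel h4

/-- There is a prime. -/
private theorem BU8_prime [IsPrincipalIdealRing (𝓞 K)] : ∃ P : 𝓞 K, Prime P := by
  obtain ⟨I, hI⟩ := Ideal.exists_maximal (𝓞 K)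
  have h1 : I ≠ ⊥ := Ring.ne_bot_of_isMaximal_of_not_isField hI (RingOfIntegers.not_isField K)
  have _ : I.IsPrime := hI.isPrime
  exact ⟨_, Submodule.IsPrincipal.prime_generator_of_isPrime I h1⟩

/-- leaf BU8 (helper98): the product of the valuations -/
theorem prod_rad [IsPrincipalIdealRing (𝓞 K)] {p r : ℕ} [Fact p.Prime] {d : Fin r → 𝓞 K} (hd : ∀ i, PF p (d i))
    {g : (Fin r → ZMod p) → 𝓞 K} (hg : GD p d g) {A : 𝓞 K} (hA : Squarefree A)
    (hAd : ∀ P : 𝓞 K, Prime P → (P ∣ A ↔ ∃ i, P ∣ d i)) :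
    Associated (∏ χ : Fin r → ZMod p, ∏ i, if χ i = 0 then 1 else d i)
      (A ^ ((p - 1) * p ^ (r - 1)) * ∏ χ, (g χ * g (-χ))) := by
  classical
  have hp : 0 < p := (Fact.out : p.Prime).pos
  have hd0 : ∀ i, d i ≠ 0 := by
    intro i h
    obtain ⟨P, hP⟩ := BU8_prime (K := K)
    exact hd i P hP (h ▸ dvd_zero _)
  have hA0 : A ≠ 0 := hA.ne_zero
  have hL0 : (∏ χ : Fin r → ZMod p, ∏ i, if χ i = 0 then 1 else d i) ≠ 0 := by
    refine Finset.prod_ne_zero_iff.2 fun χ _ => Finset.prod_ne_zero_iff.2 fun i _ => ?_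
    split_ifs
    · exact one_ne_zero
    · exact hd0 i
  have hR0 : A ^ ((p - 1) * p ^ (r - 1)) * ∏ χ, (g χ * g (-χ)) ≠ 0 :=
    mul_ne_zero (pow_ne_zero _ hA0) (Finset.prod_ne_zero_iff.2 fun χ _ => mul_ne_zero (hg.ne _) (hg.ne _))
  -- the valuations
  have key : ∀ P : 𝓞 K, Prime P → emultiplicity P (∏ χ : Fin r → ZMod p, ∏ i, if χ i = 0 then 1 else d i) =
      emultiplicity P (A ^ ((p - 1) * p ^ (r - 1)) * ∏ χ, (g χ * g (-χ))) := by
    intro P hP
    have hfin : ∀ {a : 𝓞 K}, a ≠ 0 → emultiplicity P a = (multiplicity P a : ℕ∞) := fun h =>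
      (FiniteMultiplicity.of_prime_left hP h).emultiplicity_eq_multiplicity
    obtain ⟨v, hv⟩ : ∃ v : Fin r → ℕ, ∀ i, emultiplicity P (d i) = (v i : ℕ∞) :=
      ⟨fun i => multiplicity P (d i), fun i => hfin (hd0 i)⟩
    obtain ⟨G, hG⟩ : ∃ G : (Fin r → ZMod p) → ℕ, ∀ χ, emultiplicity P (g χ) = (G χ : ℕ∞) :=
      ⟨fun χ => multiplicity P (g χ), fun χ => hfin (hg.ne χ)⟩
    have hvp : ∀ i, v i < p := by
      intro i
      have h1 : emultiplicity P (d i) < p := emultiplicity_lt_iff_not_dvd.2 (hd i P hP)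
      rw [hv] at h1
      exact_mod_cast h1
    -- the remainders
    have hex : ∀ χ, ∃ t : ℕ, t < p ∧ ∑ i, (χ i).val * v i = p * G χ + t := by
      intro χ
      obtain ⟨y, hy, hyg⟩ := hg.ex χ
      have hy0 : y ≠ 0 := by
        intro h
        exact hy P hP (h ▸ dvd_zero _)
      refine ⟨multiplicity P y, ?_, ?_⟩
      · have h1 : emultiplicity P y < p := emultiplicity_lt_iff_not_dvd.2 (hy P hP)
        rw [hfin hy0] at h1
        exact_mod_cast h1
      · have h1 := congrArg (emultiplicity P) hyg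
        unfold mon at h1
        rw [Finset.emultiplicity_prod hP, emultiplicity_mul hP, emultiplicity_pow hP, hG, hfin hy0,
          Finset.sum_congr rfl fun i _ => by rw [emultiplicity_pow hP, hv i]] at h1
        exact_mod_cast h1
    choose t ht hS using hex
    obtain ⟨L, hL⟩ : ∃ L : (Fin r → ZMod p) → ℕ, L = fun χ => ∑ i, if χ i = 0 then 0 else v i := ⟨_, rfl⟩
    have hneg : ∀ χ : Fin r → ZMod p, ∑ i, (χ i).val * v i + ∑ i, ((-χ) i).val * v i = p * L χ := by
      intro χ
      rw [hL, ← Finset.sum_add_distrib, Finset.mul_sum]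
      refine Finset.sum_congr rfl fun i _ => ?_
      rw [← add_mul, Pi.neg_apply]
      split_ifs with h
      · rw [h, neg_zero, ZMod.val_zero, add_zero, zero_mul, mul_zero]
      · rw [ZMod.neg_val, if_neg h, Nat.add_sub_cancel' (ZMod.val_lt _).le]
    have hLG : ∀ χ, L χ = G χ + G (-χ) + if t χ = 0 then 0 else 1 := by
      intro χ
      have h1 := hneg χ
      rw [hS, hS] at h1
      have h2 := ht χ
      have h3 := ht (-χ)
      have h4 : p * (G χ + G (-χ)) + (t χ + t (-χ)) = p * L χ := by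
        rw [← h1]
        ring
      have h5 : p ∣ t χ + t (-χ) := (Nat.dvd_add_right (Dvd.intro _ rfl)).1 (h4 ▸ Dvd.intro _ rfl)
      obtain ⟨m, hm⟩ := h5
      rw [hm, ← mul_add] at h4
      have h6 : L χ = G χ + G (-χ) + m := (Nat.eq_of_mul_eq_mul_left hp h4).symm
      rw [h6]
      congr 1
      split_ifs with h7
      · rw [h7, zero_add] at hm
        by_contra h8
        have h9 : p * 1 ≤ p * m := Nat.mul_le_mul_left p (Nat.one_le_iff_ne_zero.2 h8)
        omega
      · have h8 : m ≠ 0 := by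
          rintro rfl
          rw [mul_zero] at hm
          omega
        have h9 : m < 2 := by
          by_contra h10
          have h11 : p * 2 ≤ p * m := Nat.mul_le_mul_left p (not_lt.1 h10)
          omega
        omega
    have htw : ∀ χ : Fin r → ZMod p, t χ = 0 ↔ χ ⬝ᵥ (fun i => ((v i : ℕ) : ZMod p)) = 0 := by
      intro χ
      have h1 : χ ⬝ᵥ (fun i => ((v i : ℕ) : ZMod p)) = (t χ : ZMod p) := by
        have h2 := congrArg (Nat.cast : ℕ → ZMod p) (hS χ)
        push_cast at h2
        rw [CharP.cast_eq_zero, zero_mul, zero_add] at h2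
        rw [← h2, dotProduct]
        refine Finset.sum_congr rfl fun i _ => ?_
        rw [ZMod.natCast_val, ZMod.cast_id']
        rfl
      rw [h1, ZMod.natCast_eq_zero_iff]
      exact ⟨fun h => h ▸ dvd_zero _, fun h => Nat.eq_zero_of_dvd_of_lt h (ht χ)⟩
    -- the two sides
    have hl : emultiplicity P (∏ χ : Fin r → ZMod p, ∏ i, if χ i = 0 then 1 else d i) =
        ((∑ χ : Fin r → ZMod p, L χ : ℕ) : ℕ∞) := by
      rw [Finset.emultiplicity_prod hP, Nat.cast_sum]
      refine Finset.sum_congr rfl fun χ _ => ?_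
      rw [Finset.emultiplicity_prod hP, hL, Nat.cast_sum]
      refine Finset.sum_congr rfl fun i _ => ?_
      split_ifs with h
      · rw [emultiplicity_of_one_right hP.not_isUnit]
        rfl
      · exact hv i
    have hr : emultiplicity P (∏ χ, (g χ * g (-χ))) = ((∑ χ : Fin r → ZMod p, (G χ + G (-χ)) : ℕ) : ℕ∞) := by
      rw [Finset.emultiplicity_prod hP, Nat.cast_sum]
      refine Finset.sum_congr rfl fun χ _ => ?_
      rw [emultiplicity_mul hP, hG, hG, Nat.cast_add]
    have hcount : ∑ χ : Fin r → ZMod p, (if t χ = 0 then 0 else 1) =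
        (Finset.univ.filter fun χ : Fin r → ZMod p => χ ⬝ᵥ (fun i => ((v i : ℕ) : ZMod p)) ≠ 0).card := by
      rw [Finset.card_filter]
      refine Finset.sum_congr rfl fun χ _ => ?_
      by_cases h : t χ = 0
      · rw [if_pos h, if_neg (not_not.2 ((htw χ).1 h))]
      · rw [if_neg h, if_pos (fun h' => h ((htw χ).2 h'))]
    rw [hl, emultiplicity_mul hP, hr, emultiplicity_pow hP, Finset.sum_congr rfl fun χ _ => hLG χ,
      Finset.sum_add_distrib, hcount]
    by_cases hPA : P ∣ A
    · have hA1 : emultiplicity P A = 1 := by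
        refine le_antisymm ?_ ?_
        · rcases (squarefree_iff_emultiplicity_le_one A).1 hA P with h | h
          · exact h
          · exact absurd h hP.not_isUnit
        · have h1 := pow_dvd_iff_le_emultiplicity.1 (show P ^ 1 ∣ A by rwa [pow_one])
          exact_mod_cast h1
      obtain ⟨i, hi⟩ := (hAd P hP).1 hPA
      have hvi : v i ≠ 0 := by
        intro h
        have h1 := pow_dvd_iff_le_emultiplicity.1 (show P ^ 1 ∣ d i by rwa [pow_one])
        rw [hv i, h] at h1
        exact absurd h1 (by norm_num)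
      have hw : (fun i => ((v i : ℕ) : ZMod p)) ≠ 0 := by
        intro h
        have h1 := congrFun h i
        simp only [Pi.zero_apply] at h1
        rw [ZMod.natCast_eq_zero_iff] at h1
        exact hvi (Nat.eq_zero_of_dvd_of_lt h1 (hvp i))
      rw [BU8_count hw, hA1, mul_one, ← Nat.cast_add, add_comm]
    · have hA1 : emultiplicity P A = 0 := by
        rw [emultiplicity_eq_zero]
        exact hPA
      have hv0 : ∀ i, v i = 0 := by
        intro i
        have h1 : ¬ P ∣ d i := fun h => hPA ((hAd P hP).2 ⟨i, h⟩)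
        have h2 := emultiplicity_eq_zero.2 h1
        rw [hv i] at h2
        exact_mod_cast h2
      have hw : (Finset.univ.filter fun χ : Fin r → ZMod p =>
          χ ⬝ᵥ (fun i => ((v i : ℕ) : ZMod p)) ≠ 0).card = 0 := by
        rw [Finset.card_eq_zero, Finset.filter_eq_empty_iff]
        intro χ _ h
        apply h
        rw [dotProduct]
        refine Finset.sum_eq_zero fun i _ => ?_
        rw [hv0 i, Nat.cast_zero, mul_zero]
      rw [hw, hA1, mul_zero, zero_add, add_zero]
  refine associated_of_dvd_dvd ?_ ?_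
  · exact (UniqueFactorizationMonoid.dvd_iff_emultiplicity_le hL0).2 fun P hP => (key P hP).le
  · exact (UniqueFactorizationMonoid.dvd_iff_emultiplicity_le hR0).2 fun P hP => (key P hP).ge

end Pool.Agent.Lib.MP_1a91b9_ntDF
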