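import Pool.Agent.Lib.MP_1a91b9_ntDF.B0

set_option autoImplicit false

noncomputable section

namespace Pool.Agent.Lib.MP_1a91b9_ntDF

open NumberField

variable {K : Type} [Field K] [NumberField K]

/-- (helper98) -/
theorem Ba {N : Type} [Field N] [NumberField N] {κ : Type} [Fintype κ] [DecidableEq κ] (b : Module.Basis κ ℚ N)
    (h : ∀ z : N, IsIntegral ℤ z → z ∈ Submodule.span ℤ (Set.range b)) (H : AddSubgroup (κ → ℤ))
    (hH : ∀ c : κ → ℤ, c ∈ H ↔ IsIntegral ℤ (∑ i, (c i : ℚ) • b i)) :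
    |(NumberField.discr N : ℚ)| = |Algebra.discr ℚ b| * (H.index : ℚ) ^ 2 := by
  classical
  -- the lattice of the integers
  have hint : ∀ c : H, IsIntegral ℤ (∑ i, ((c : κ → ℤ) i : ℚ) • b i) := fun c => (hH c).1 c.2
  let f : H →ₗ[ℤ] 𝓞 N := AddMonoidHom.toIntLinearMap
    { toFun := fun c => ⟨∑ i, ((c : κ → ℤ) i : ℚ) • b i, hint c⟩
      map_zero' := by
        refine RingOfIntegers.ext ?_
        show ∑ i, (((0 : H) : κ → ℤ) i : ℚ) • b i = 0
        simp
      map_add' := fun c c' => by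
        refine RingOfIntegers.ext ?_
        show ∑ i, (((c + c' : H) : κ → ℤ) i : ℚ) • b i = ∑ i, ((c : κ → ℤ) i : ℚ) • b i +
          ∑ i, ((c' : κ → ℤ) i : ℚ) • b i
        rw [← Finset.sum_add_distrib]
        refine Finset.sum_congr rfl fun i _ => ?_
        rw [AddSubgroup.coe_add, Pi.add_apply, Int.cast_add, add_smul] }
  have hf : ∀ c : H, ((f c : 𝓞 N) : N) = ∑ i, ((c : κ → ℤ) i : ℚ) • b i := fun c => rfl
  have hinj : Function.Injective f := by
    rw [← LinearMap.ker_eq_bot, LinearMap.ker_eq_bot']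
    intro c hc
    have h1 : ∑ i, ((c : κ → ℤ) i : ℚ) • b i = 0 := by
      rw [← hf c, hc]
      rfl
    have h2 := Fintype.linearIndependent_iff.1 b.linearIndependent _ h1
    ext i
    have h3 := h2 i
    exact_mod_cast h3
  have hsur : Function.Surjective f := by
    intro z
    have h1 := h (z : N) z.isIntegral_coe
    rw [Submodule.mem_span_range_iff_exists_fun] at h1
    obtain ⟨c, hc⟩ := h1
    have h2 : ∑ i, (c i : ℚ) • b i = (z : N) := by
      rw [← hc]
      refine Finset.sum_congr rfl fun i _ => ?_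
      exact Int.cast_smul_eq_zsmul ℚ (c i) (b i)
    refine ⟨⟨c, (hH c).2 (by rw [h2]; exact z.isIntegral_coe)⟩, RingOfIntegers.ext ?_⟩
    rw [hf]
    exact h2
  let F : H ≃ₗ[ℤ] 𝓞 N := LinearEquiv.ofBijective f ⟨hinj, hsur⟩
  -- the bases
  obtain ⟨e⟩ : Nonempty (Module.Free.ChooseBasisIndex ℤ (𝓞 N) ≃ κ) := by
    refine ⟨Fintype.equivOfCardEq ?_⟩
    rw [← Module.finrank_eq_card_chooseBasisIndex, RingOfIntegers.rank, Module.finrank_eq_card_basis b]
  let B : Module.Basis κ ℤ (𝓞 N) := (RingOfIntegers.basis N).reindex e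
  have hB : NumberField.discr N = Algebra.discr ℤ B := (NumberField.discr_eq_discr N B).symm
  let bN : Module.Basis κ ℤ H := B.map F.symm
  have hbN : ∀ j, ∑ i, ((bN j : κ → ℤ) i : ℚ) • b i = (B j : N) := by
    intro j
    rw [← hf]
    show ((F (F.symm (B j)) : 𝓞 N) : N) = _
    rw [LinearEquiv.apply_symm_apply]
  have hidx : H.index = ((Pi.basisFun ℤ κ).det fun j => (bN j : κ → ℤ)).natAbs :=
    AddSubgroup.index_eq_natAbs_det (Pi.basisFun ℤ κ) H bN
  let P : Matrix κ κ ℤ := fun i j => (bN j : κ → ℤ) i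
  have hdet : ((Pi.basisFun ℤ κ).det fun j => (bN j : κ → ℤ)) = P.det := by
    rw [Module.Basis.det_apply]
    congr 1
  let B₀ : κ → N := fun j => (B j : N)
  have h1 : (NumberField.discr N : ℚ) = Algebra.discr ℚ B₀ := by
    have h2 := Algebra.discr_localizationLocalization ℤ (nonZeroDivisors ℤ) N B (Rₘ := ℚ)
    have h3 : (B.localizationLocalization ℚ (nonZeroDivisors ℤ) N : κ → N) = B₀ := by
      funext j
      rw [Module.Basis.localizationLocalization_apply]
    rw [h3] at h2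
    rw [h2, hB]
    rfl
  have h4 : B₀ = Matrix.vecMul (b : κ → N) ((P.map (Int.cast : ℤ → ℚ)).map (algebraMap ℚ N)) := by
    funext j
    rw [Matrix.vecMul, dotProduct]
    show (B j : N) = _
    rw [← hbN j]
    refine Finset.sum_congr rfl fun i _ => ?_
    rw [Matrix.map_apply, Matrix.map_apply, mul_comm, ← Algebra.smul_def]
  have h5 : (P.map (Int.cast : ℤ → ℚ)).det = (P.det : ℚ) := by
    have h6 := (Int.castRingHom ℚ).map_det P
    exact h6.symm
  rw [h1, h4, Algebra.discr_of_matrix_vecMul, abs_mul, hidx, hdet, h5, mul_comm]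
  congr 1
  rw [Nat.cast_natAbs, Int.cast_abs, sq_abs, abs_of_nonneg (sq_nonneg _)]

end Pool.Agent.Lib.MP_1a91b9_ntDF
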