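import Pool.Agent.Lib.MP_1a91b9_ntDF.B0

set_option autoImplicit false

noncomputable section

namespace Pool.Agent.Lib.MP_1a91b9_ntDF

open NumberField

variable {K : Type} [Field K] [NumberField K]

/-- The trace form of the multiples of a basis. -/
private theorem BUb_one {m : Type} [Fintype m] [DecidableEq m]
    (ω : Module.Basis m ℤ (𝓞 K)) (t : K) :
    (Matrix.of fun i j => Algebra.trace ℚ K ((ω i : K) * (ω j : K) * t)).det =
      (discr K : ℚ) * Algebra.norm ℚ t := by
  classical
  obtain ⟨W, hW⟩ : ∃ W : Module.Basis m ℚ K, ∀ i, W i = (ω i : K) :=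
    ⟨ω.localizationLocalization ℚ (nonZeroDivisors ℤ) K, fun i => by
      rw [Module.Basis.localizationLocalization_apply]⟩
  have h1 : (discr K : ℚ) = Algebra.discr ℚ W := by
    have h2 := Algebra.discr_localizationLocalization ℤ (nonZeroDivisors ℤ) K ω (Rₘ := ℚ)
    have h3 : (ω.localizationLocalization ℚ (nonZeroDivisors ℤ) K : m → K) = W := by
      funext j
      rw [Module.Basis.localizationLocalization_apply, hW]
    rw [h3] at h2
    rw [h2, ← NumberField.discr_eq_discr K ω]
    rfl
  have h2 : (Matrix.of fun i j => Algebra.trace ℚ K ((ω i : K) * (ω j : K) * t)) =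
      Algebra.traceMatrix ℚ W * Algebra.leftMulMatrix W t := by
    ext i j
    rw [Matrix.of_apply, Matrix.mul_apply]
    have h3 : (ω j : K) * t = ∑ k, (Algebra.leftMulMatrix W t k j) • W k := by
      rw [mul_comm]
      conv_lhs => rw [← hW j, ← W.sum_repr (t * W j)]
      refine Finset.sum_congr rfl fun k _ => ?_
      rw [Algebra.leftMulMatrix_eq_repr_mul]
    rw [mul_assoc, h3, Finset.mul_sum, map_sum]
    refine Finset.sum_congr rfl fun k _ => ?_
    rw [Algebra.traceMatrix_apply, Algebra.traceForm_apply, mul_smul_comm, map_smul, smul_eq_mul, mul_comm,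
      hW i]
  rw [h2, Matrix.det_mul, h1, Algebra.discr_def, Algebra.norm_eq_matrix_det W]

/-- (helper98) -/
theorem Bb {N : Type} [Field N] [NumberField N] [Algebra K N] {m G : Type}
    [Fintype m] [DecidableEq m] [Fintype G] [DecidableEq G] [AddCommGroup G] (ω : Module.Basis m ℤ (𝓞 K))
    (θ : G → N) (t : G → K) (h0 : ∀ χ ψ, ψ ≠ -χ → Algebra.trace K N (θ χ * θ ψ) = 0)
    (h1 : ∀ χ, Algebra.trace K N (θ χ * θ (-χ)) = t χ) :
    |Algebra.discr ℚ (fun i : m × G => algebraMap K N (ω i.1) * θ i.2)| =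
      |(NumberField.discr K : ℚ)| ^ Fintype.card G * ∏ χ, |Algebra.norm ℚ (t χ)| := by
  classical
  have htr : ∀ (a b : m) (χ ψ : G), Algebra.trace ℚ N (algebraMap K N (ω a) * θ χ *
      (algebraMap K N (ω b) * θ ψ)) = if ψ = -χ then Algebra.trace ℚ K ((ω a : K) * (ω b : K) * t χ) else 0 := by
    intro a b χ ψ
    have e3 : algebraMap K N (ω a) * θ χ * (algebraMap K N (ω b) * θ ψ) =
        ((ω a : K) * (ω b : K)) • (θ χ * θ ψ) := by
      rw [Algebra.smul_def, map_mul]
      ring
    rw [e3, ← Algebra.trace_trace (S := K), map_smul, smul_eq_mul]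
    split_ifs with h
    · rw [h, h1]
    · rw [h0 χ ψ h, mul_zero, map_zero]
  let σ : Equiv.Perm (m × G) := Equiv.prodCongr (Equiv.refl m) (Equiv.neg G)
  have hM : (Algebra.traceMatrix ℚ fun z : m × G => algebraMap K N (ω z.1) * θ z.2).submatrix id σ =
      Matrix.blockDiagonal fun χ => Matrix.of fun i j => Algebra.trace ℚ K ((ω i : K) * (ω j : K) * t χ) := by
    ext ⟨a, χ⟩ ⟨b, ψ⟩
    rw [Matrix.submatrix_apply, Matrix.blockDiagonal_apply, Algebra.traceMatrix_apply, Algebra.traceForm_apply]
    show Algebra.trace ℚ N (algebraMap K N (ω a) * θ χ * (algebraMap K N (ω b) * θ (-ψ))) = _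
    rw [htr]
    by_cases h : χ = ψ
    · rw [if_pos (by rw [h]), if_pos h]
      rfl
    · rw [if_neg (fun h' => h (neg_injective h').symm), if_neg h]
  have hd : |(Algebra.traceMatrix ℚ fun z : m × G => algebraMap K N (ω z.1) * θ z.2).det| =
      |(Matrix.blockDiagonal fun χ => Matrix.of fun i j =>
        Algebra.trace ℚ K ((ω i : K) * (ω j : K) * t χ)).det| := by
    rw [← hM, Matrix.det_permute', abs_mul]
    rcases Int.units_eq_one_or (Equiv.Perm.sign σ) with h | h
    · rw [h]
      simp
    · rw [h]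
      simp
  rw [Algebra.discr_def, hd, Matrix.det_blockDiagonal, Finset.prod_congr rfl fun χ _ => BUb_one ω (t χ),
    Finset.prod_mul_distrib, Finset.prod_const, Finset.card_univ, abs_mul, abs_pow, Finset.abs_prod]

end Pool.Agent.Lib.MP_1a91b9_ntDF
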