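import Pool.Agent.Lib.MP_1a91b9_ntDF.BU7
import Pool.Agent.Lib.MP_1a91b9_ntDF.BU8
import Pool.Agent.Lib.MP_1a91b9_ntDF.BUa
import Pool.Agent.Lib.MP_1a91b9_ntDF.BUb

set_option autoImplicit false

noncomputable section

namespace Pool.Agent.Lib.MP_1a91b9_ntDF

open NumberField

variable {K : Type} [Field K] [NumberField K]

private theorem BU9_tr0 {p r : ℕ} [Fact p.Prime] {N : Type} [Field N] [NumberField N] [Algebra K N]
    [FiniteDimensional K N] {d : Fin r → 𝓞 K} {x : Fin r → N} (h : Kx p (dK d) x)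
    (g : (Fin r → ZMod p) → 𝓞 K) {χ ψ : Fin r → ZMod p} (hne : ψ ≠ -χ) :
    Algebra.trace K N (tht x g χ * tht x g ψ) = 0 := by
  obtain ⟨c, hc⟩ := h.mul χ ψ
  have hs : χ + ψ ≠ 0 := fun h0 => hne (eq_neg_of_add_eq_zero_right h0)
  have e : tht x g χ * tht x g ψ
      = (c * (((p : K) ^ r * (g χ : K)) * ((p : K) ^ r * (g ψ : K)))⁻¹) • mon (χ + ψ) x := by
    unfold tht
    rw [div_mul_div_comm, hc, Algebra.smul_def, map_mul, map_inv₀, map_mul, map_mul, map_mul, map_pow,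
      map_natCast, div_eq_mul_inv]
    ring
  rw [e, map_smul, h.trace_mon hs, smul_zero]

private theorem BU9_tr1 {p r : ℕ} [Fact p.Prime] {N : Type} [Field N] [NumberField N] [Algebra K N]
    [FiniteDimensional K N] {d : Fin r → 𝓞 K} {x : Fin r → N} (h : Kx p (dK d) x)
    {g : (Fin r → ZMod p) → 𝓞 K} (hg : ∀ χ, g χ ≠ 0) (χ : Fin r → ZMod p) :
    Algebra.trace K N (tht x g χ * tht x g (-χ)) =
      (∏ i, if χ i = 0 then (1 : K) else (d i : K)) / ((p : K) ^ r * ((g χ : K) * (g (-χ) : K))) := by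
  have hp : (p : K) ≠ 0 := Nat.cast_ne_zero.2 (Fact.out : p.Prime).ne_zero
  have hg1 : (g χ : K) ≠ 0 := fun h0 => hg χ (RingOfIntegers.ext h0)
  have hg2 : (g (-χ) : K) ≠ 0 := fun h0 => hg (-χ) (RingOfIntegers.ext h0)
  have e : tht x g χ * tht x g (-χ) = algebraMap K N
      ((∏ i, if χ i = 0 then (1 : K) else (d i : K)) /
        (((p : K) ^ r * (g χ : K)) * ((p : K) ^ r * (g (-χ) : K)))) := by
    have e1 : (∏ i, if χ i = 0 then (1 : N) else x i ^ p) =
        algebraMap K N (∏ i, if χ i = 0 then (1 : K) else (d i : K)) := by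
      rw [map_prod]
      refine Finset.prod_congr rfl fun i _ => ?_
      split_ifs
      · rw [map_one]
      · exact h.cu i
    unfold tht
    rw [div_mul_div_comm, mon_neg, e1, map_div₀, map_mul, map_mul, map_mul, map_pow, map_natCast]
  rw [e, Algebra.trace_algebraMap, h.deg, nsmul_eq_mul, Nat.cast_pow]
  field_simp

private theorem BU9_norm_div (a c : K) : Algebra.norm ℚ (a / c) = Algebra.norm ℚ a / Algebra.norm ℚ c := by
  by_cases hc : c = 0
  · rw [hc, div_zero]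
    have h0 : Algebra.norm ℚ (0 : K) = 0 := Algebra.norm_zero
    rw [h0, div_zero]
  · have hc' : Algebra.norm ℚ c ≠ 0 := Algebra.norm_ne_zero_iff.2 hc
    rw [eq_div_iff hc', ← map_mul, div_mul_cancel₀ _ hc]

private theorem BU9_normprod [IsPrincipalIdealRing (𝓞 K)] {p r : ℕ} [Fact p.Prime] {d : Fin r → 𝓞 K}
    {g : (Fin r → ZMod p) → 𝓞 K} (hg : ∀ χ, g χ ≠ 0) {A : 𝓞 K}
    (hA : Associated (∏ χ : Fin r → ZMod p, ∏ i, if χ i = 0 then 1 else d i)
      (A ^ ((p - 1) * p ^ (r - 1)) * ∏ χ, (g χ * g (-χ)))) :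
    ∏ χ : Fin r → ZMod p, |Algebra.norm ℚ ((∏ i, if χ i = 0 then (1 : K) else (d i : K)) /
        ((p : K) ^ r * ((g χ : K) * (g (-χ) : K))))| =
      |(Algebra.norm ℤ A : ℚ)| ^ ((p - 1) * p ^ (r - 1)) / |(Algebra.norm ℚ (p : K))| ^ (r * p ^ r) := by
  have hp : (p : K) ≠ 0 := Nat.cast_ne_zero.2 (Fact.out : p.Prime).ne_zero
  obtain ⟨u, hu⟩ := hA
  have hu1 : |(Algebra.norm ℤ (u : 𝓞 K) : ℚ)| = 1 := by
    have h1 : IsUnit (Algebra.norm ℤ (u : 𝓞 K)) := u.isUnit.map (Algebra.norm ℤ)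
    rw [Int.isUnit_iff_abs_eq] at h1
    exact_mod_cast h1
  have hG : ∏ χ : Fin r → ZMod p, ((g χ : K) * (g (-χ) : K)) ≠ 0 :=
    Finset.prod_ne_zero_iff.2 fun χ _ => mul_ne_zero (fun h0 => hg χ (RingOfIntegers.ext h0))
      (fun h0 => hg (-χ) (RingOfIntegers.ext h0))
  have hGc : ((∏ χ : Fin r → ZMod p, (g χ * g (-χ)) : 𝓞 K) : K) =
      ∏ χ : Fin r → ZMod p, ((g χ : K) * (g (-χ) : K)) := by
    refine (map_prod (algebraMap (𝓞 K) K) _ _).trans ?_
    refine Finset.prod_congr rfl fun χ _ => ?_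
    exact map_mul (algebraMap (𝓞 K) K) _ _
  have hDc : ((∏ χ : Fin r → ZMod p, ∏ i, if χ i = 0 then 1 else d i : 𝓞 K) : K) =
      ∏ χ : Fin r → ZMod p, ∏ i, if χ i = 0 then (1 : K) else (d i : K) := by
    refine (map_prod (algebraMap (𝓞 K) K) _ _).trans ?_
    refine Finset.prod_congr rfl fun χ _ => ?_
    refine (map_prod (algebraMap (𝓞 K) K) _ _).trans ?_
    refine Finset.prod_congr rfl fun i _ => ?_
    split_ifs
    · rw [map_one]
    · rfl
  have e1 : (∏ χ : Fin r → ZMod p, ∏ i, if χ i = 0 then (1 : K) else (d i : K)) * ((u : 𝓞 K) : K) =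
      (A : K) ^ ((p - 1) * p ^ (r - 1)) * ∏ χ : Fin r → ZMod p, ((g χ : K) * (g (-χ) : K)) := by
    rw [← hDc, ← hGc, ← map_mul, hu, map_mul, map_pow]
  have e2 : |Algebra.norm ℚ (∏ χ : Fin r → ZMod p, ∏ i, if χ i = 0 then (1 : K) else (d i : K))| =
      |(Algebra.norm ℤ A : ℚ)| ^ ((p - 1) * p ^ (r - 1)) *
        |Algebra.norm ℚ (∏ χ : Fin r → ZMod p, ((g χ : K) * (g (-χ) : K)))| := by
    have h1 := congrArg (fun z : K => |Algebra.norm ℚ z|) e1
    simp only [map_mul, map_pow, abs_mul, abs_pow] at h1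
    rw [← Algebra.coe_norm_int (u : 𝓞 K), hu1, mul_one, ← Algebra.coe_norm_int A] at h1
    exact h1
  have hNG : |Algebra.norm ℚ (∏ χ : Fin r → ZMod p, ((g χ : K) * (g (-χ) : K)))| ≠ 0 :=
    abs_ne_zero.2 (Algebra.norm_ne_zero_iff.2 hG)
  rw [← Finset.abs_prod, ← map_prod, Finset.prod_div_distrib, Finset.prod_mul_distrib, Finset.prod_const,
    Finset.card_univ, Fintype.card_fun, ZMod.card, Fintype.card_fin, ← pow_mul, BU9_norm_div, map_mul, map_pow,
    abs_div, abs_mul, abs_pow, e2, mul_div_mul_right _ _ hNG]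

private def BU9_phi {m G : Type} [Fintype m] (ω : Module.Basis m ℤ (𝓞 K)) :
    (m × G → ℤ) →+ (G → 𝓞 K) where
  toFun c := fun χ => ∑ a, c (a, χ) • ω a
  map_zero' := by
    funext χ
    simp only [Pi.zero_apply, zero_smul, Finset.sum_const_zero]
  map_add' := by
    intro c c'
    funext χ
    simp only [Pi.add_apply, add_smul, Finset.sum_add_distrib]

omit [NumberField K] in
private theorem BU9_phi_surj {m G : Type} [Fintype m] (ω : Module.Basis m ℤ (𝓞 K)) :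
    Function.Surjective (BU9_phi (G := G) ω) := by
  intro e
  refine ⟨fun q => ω.repr (e q.2) q.1, ?_⟩
  funext χ
  exact ω.sum_repr (e χ)

private theorem BU9_sum {m G : Type} [Fintype m] [Fintype G] {N : Type} [Field N] [NumberField N] [Algebra K N]
    (ω : Module.Basis m ℤ (𝓞 K)) (θ : G → N) (c : m × G → ℤ) :
    ∑ q : m × G, (c q : ℚ) • (algebraMap K N (ω q.1) * θ q.2) =
      ∑ χ, algebraMap K N (BU9_phi ω c χ) * θ χ := by
  rw [Fintype.sum_prod_type_right]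
  refine Finset.sum_congr rfl fun χ _ => ?_
  have e : ((BU9_phi ω c χ : 𝓞 K) : K) = ∑ a, (c (a, χ) : K) * (ω a : K) := by
    refine (map_sum (algebraMap (𝓞 K) K) _ _).trans ?_
    refine Finset.sum_congr rfl fun a _ => ?_
    rw [zsmul_eq_mul, map_mul, map_intCast]
  rw [e, map_sum, Finset.sum_mul]
  refine Finset.sum_congr rfl fun a _ => ?_
  rw [map_mul, map_intCast, Algebra.smul_def, map_intCast, mul_assoc]

/-- leaf BU9: the formula: Ba, Bb, B1 with b (a, χ) = ω_a X_χ / (p ^ r g_χ) -/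
theorem disc_formula [IsPrincipalIdealRing (𝓞 K)] {p r : ℕ} [Fact p.Prime] {ζ : K} (hζ : IsPrimitiveRoot ζ p)
    {N : Type} [Field N] [NumberField N] [Algebra K N] {d : Fin r → 𝓞 K} (hd : ∀ i, PF p (d i)) {x : Fin r → N}
    (h : Kx p (dK d) x) {g : (Fin r → ZMod p) → 𝓞 K} (hg : GD p d g) {A : 𝓞 K} (hA : Squarefree A)
    (hAd : ∀ P : 𝓞 K, Prime P → (P ∣ A ↔ ∃ i, P ∣ d i)) :
    |(NumberField.discr N : ℚ)| = |(NumberField.discr K : ℚ)| ^ (p ^ r) *
      (|(Algebra.norm ℤ A : ℚ)| ^ ((p - 1) * p ^ (r - 1)) / |(Algebra.norm ℚ (p : K))| ^ (r * p ^ r)) *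
      ((Qw x g).index : ℚ) ^ 2 := by
  classical
  have hp0 : p ≠ 0 := (Fact.out : p.Prime).ne_zero
  have hfd : FiniteDimensional K N := Module.finite_of_finrank_pos (by
    rw [h.deg]
    exact pow_pos (Fact.out : p.Prime).pos _)
  have hpK : (p : K) ≠ 0 := Nat.cast_ne_zero.2 hp0
  have hgK : ∀ χ, (g χ : K) ≠ 0 := fun χ h0 => hg.ne χ (RingOfIntegers.ext h0)
  let ω : Module.Basis (Module.Free.ChooseBasisIndex ℤ (𝓞 K)) ℤ (𝓞 K) := RingOfIntegers.basis K
  let θ : (Fin r → ZMod p) → N := tht x g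
  let bθ : Module.Basis (Fin r → ZMod p) K N :=
    h.basis.isUnitSMul (w := fun χ => ((p : K) ^ r * (g χ : K))⁻¹)
      (fun χ => (IsUnit.mk0 _ (inv_ne_zero (mul_ne_zero (pow_ne_zero _ hpK) (hgK χ)))))
  have hbθ : ∀ χ, bθ χ = θ χ := by
    intro χ
    show h.basis.isUnitSMul _ χ = tht x g χ
    rw [Module.Basis.isUnitSMul_apply, h.basis_apply, Algebra.smul_def, map_inv₀, map_mul, map_pow, map_natCast]
    unfold tht
    rw [div_eq_mul_inv, mul_comm]
  let b : Module.Basis (Module.Free.ChooseBasisIndex ℤ (𝓞 K) × (Fin r → ZMod p)) ℚ N :=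
    (integralBasis K).smulTower bθ
  have hb : ∀ q, b q = algebraMap K N (ω q.1) * θ q.2 := by
    intro q
    show ((integralBasis K).smulTower bθ) q = _
    rw [Module.Basis.smulTower_apply, hbθ, integralBasis_apply, Algebra.smul_def]
  have hbs : ∀ c : Module.Free.ChooseBasisIndex ℤ (𝓞 K) × (Fin r → ZMod p) → ℤ,
      ∑ i, (c i : ℚ) • b i = ∑ χ, algebraMap K N (BU9_phi ω c χ) * θ χ := by
    intro c
    rw [← BU9_sum]
    refine Finset.sum_congr rfl fun q _ => ?_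
    rw [hb]
  have h1 : ∀ z : N, IsIntegral ℤ z → z ∈ Submodule.span ℤ (Set.range b) := by
    intro z hz
    obtain ⟨c, hc⟩ := B1 hζ h hg hz
    obtain ⟨c', hc'⟩ := BU9_phi_surj ω c
    have e : z = ∑ i, (c' i : ℚ) • b i := by
      rw [hbs, hc']
      exact hc
    rw [e]
    refine Submodule.sum_mem _ fun i _ => ?_
    rw [Int.cast_smul_eq_zsmul]
    exact Submodule.smul_mem _ _ (Submodule.subset_span ⟨i, rfl⟩)
  have h2 := Ba b h1 ((Qw x g).comap (BU9_phi ω)) (fun c => by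
    rw [hbs]
    exact Iff.rfl)
  rw [AddSubgroup.index_comap_of_surjective _ (BU9_phi_surj ω)] at h2
  have hbfun : (b : Module.Free.ChooseBasisIndex ℤ (𝓞 K) × (Fin r → ZMod p) → N) =
      fun i => algebraMap K N (ω i.1) * θ i.2 := funext hb
  have h3 := Bb ω θ (fun χ => (∏ i, if χ i = 0 then (1 : K) else (d i : K)) /
    ((p : K) ^ r * ((g χ : K) * (g (-χ) : K)))) (fun χ ψ hne => BU9_tr0 h g hne)
    (fun χ => BU9_tr1 h hg.ne χ)
  rw [h2, hbfun, h3, Fintype.card_fun, ZMod.card, Fintype.card_fin,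
    BU9_normprod hg.ne (prod_rad hd hg hA hAd)]

end Pool.Agent.Lib.MP_1a91b9_ntDF
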