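import Pool.Agent.Lib.MP_1a91b9_ntDF.BU3
import Pool.Agent.Lib.MP_1a91b9_ntDF.BU4
import Pool.Agent.Lib.MP_1a91b9_ntDF.BU6
import Pool.Agent.Lib.MP_1a91b9_ntDF.BU9
import Pool.Agent.Lib.MP_1a91b9_ntDF.BU10

set_option autoImplicit false

noncomputable section

namespace Pool.Agent.Lib.MP_1a91b9_ntDF

open NumberField

variable {K : Type} [Field K] [NumberField K]

private theorem BU11_index [IsPrincipalIdealRing (𝓞 K)] {p : ℕ} [Fact p.Prime] {r M : ℕ}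
    (h1 : r * p * p + p ≤ M) (h2 : (r + r * p) * p ^ r ≤ M) {d d' : Fin r → 𝓞 K} (hd : ∀ i, PF p (d i))
    (hd' : ∀ i, PF p (d' i)) (hdd : ∀ i, (p : 𝓞 K) ^ M ∣ d i - d' i) {N N' : Type} [Field N] [NumberField N]
    [Algebra K N] [Field N'] [NumberField N'] [Algebra K N'] {x : Fin r → N} {x' : Fin r → N'}
    (h : Kx p (dK d) x) (h' : Kx p (dK d') x') {g g' : (Fin r → ZMod p) → 𝓞 K} (hg : GD p d g)
    (hg' : GD p d' g') : (Qw x g).index = (Qw x' g').index := by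
  obtain ⟨w, u, u', hw⟩ := same_w p r h1 hd hd' hdd hg hg'
  rw [index_Qw h hg (w := w) (u := u) (fun χ => ⟨(hw χ).1, (hw χ).2.2.1⟩),
    index_Qw h' hg' (w := w) (u := u') (fun χ => ⟨(hw χ).2.1, (hw χ).2.2.2.1⟩),
    Qw_eq h2 hdd h h' (fun χ => (hw χ).2.2.2.2)]

/-- **The discriminant in a class** modulo a power of `p`. -/
theorem disc_class0 [IsPrincipalIdealRing (𝓞 K)] (p : ℕ) [Fact p.Prime] {ζ : K} (hζ : IsPrimitiveRoot ζ p) (r : ℕ) :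
    ∃ n : ℕ, ∀ u : Fin r → 𝓞 K, ∃ κ : ℝ, 0 < κ ∧ ∀ d : Fin r → 𝓞 K, (∀ i, PF p (d i)) →
      (∀ i, (p : 𝓞 K) ^ n ∣ d i - u i) → ∀ (N : Type) [Field N] [NumberField N] [Algebra K N] (x : Fin r → N),
      Kx p (dK d) x → ∀ A : 𝓞 K, Squarefree A → (∀ P : 𝓞 K, Prime P → (P ∣ A ↔ ∃ i, P ∣ d i)) →
      |(NumberField.discr N : ℝ)| = κ * |(Algebra.norm ℤ A : ℝ)| ^ ((p - 1) * p ^ (r - 1)) := by
  classical
  obtain ⟨M, h1, h2⟩ : ∃ M : ℕ, r * p * p + p ≤ M ∧ (r + r * p) * p ^ r ≤ M :=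
    ⟨max (r * p * p + p) ((r + r * p) * p ^ r), le_max_left _ _, le_max_right _ _⟩
  refine ⟨M, fun u => ?_⟩
  by_cases hex : ∃ (d : Fin r → 𝓞 K) (N : Type) (_ : Field N) (_ : NumberField N) (_ : Algebra K N) (x : Fin r → N)
      (A : 𝓞 K), (∀ i, PF p (d i)) ∧ (∀ i, (p : 𝓞 K) ^ M ∣ d i - u i) ∧ Kx p (dK d) x ∧ Squarefree A ∧
      (∀ P : 𝓞 K, Prime P → (P ∣ A ↔ ∃ i, P ∣ d i))
  · obtain ⟨d0, N0, _, _, _, x0, A0, hd0, hu0, hk0, hA0, hP0⟩ := hex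
    obtain ⟨g0, hg0⟩ := exists_GD hd0
    have hf0 := disc_formula hζ hd0 hk0 hg0 hA0 hP0
    obtain ⟨κ, hκ⟩ : ∃ κ : ℚ, κ = |(NumberField.discr K : ℚ)| ^ (p ^ r) *
      ((Qw x0 g0).index : ℚ) ^ 2 / |(Algebra.norm ℚ (p : K))| ^ (r * p ^ r) := ⟨_, rfl⟩
    have hκ0 : 0 < κ := by
      have h3 : κ ≠ 0 := by
        intro h0
        have h4 : |(NumberField.discr N0 : ℚ)| = 0 := by
          rw [hf0]
          have h5 : |(NumberField.discr K : ℚ)| ^ (p ^ r) *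
              (|(Algebra.norm ℤ A0 : ℚ)| ^ ((p - 1) * p ^ (r - 1)) / |(Algebra.norm ℚ (p : K))| ^ (r * p ^ r)) *
              ((Qw x0 g0).index : ℚ) ^ 2 = κ * |(Algebra.norm ℤ A0 : ℚ)| ^ ((p - 1) * p ^ (r - 1)) := by
            rw [hκ]; ring
          rw [h5, h0, zero_mul]
        rw [abs_eq_zero, Int.cast_eq_zero] at h4
        exact NumberField.discr_ne_zero N0 h4
      have h6 : 0 ≤ κ := by rw [hκ]; positivity
      exact lt_of_le_of_ne h6 h3.symm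
    refine ⟨(κ : ℝ), by exact_mod_cast hκ0, ?_⟩
    intro d hd hu N _ _ _ x hk A hA hP
    obtain ⟨g, hg⟩ := exists_GD hd
    have hf := disc_formula hζ hd hk hg hA hP
    have hdd : ∀ i, (p : 𝓞 K) ^ M ∣ d i - d0 i := by
      intro i
      have := dvd_sub (hu i) (hu0 i)
      rwa [sub_sub_sub_cancel_right] at this
    have hi := BU11_index h1 h2 hd hd0 hdd hk hk0 hg hg0
    rw [hi] at hf
    have h7 : |(NumberField.discr N : ℚ)| = κ * |(Algebra.norm ℤ A : ℚ)| ^ ((p - 1) * p ^ (r - 1)) := by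
      rw [hf, hκ]; ring
    exact_mod_cast h7
  · refine ⟨1, one_pos, ?_⟩
    intro d hd hu N _ _ _ x hk A hA hP
    exact absurd ⟨d, N, inferInstance, inferInstance, inferInstance, x, A, hd, hu, hk, hA, hP⟩ hex

end Pool.Agent.Lib.MP_1a91b9_ntDF
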