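import Pool.Agent.Lib.MP_1a91b9_ntDF.D0
import Pool.Agent.Lib.MP_1a91b9_ntDF.BU11

/-!
# MP_1a91b9_nt (the elementary abelian extensions ordered by the discriminant): the discriminant
-/

set_option autoImplicit false

namespace Pool.Agent.Lib.MP_1a91b9_ntDF

open NumberField

/-- **The discriminant in a class** modulo a power of `p`. -/
theorem disc_class {p : ℕ} [Fact p.Prime] (K : Type) [Field K] [NumberField K]
    [IsPrincipalIdealRing (𝓞 K)] {ζ : K} (hζ : IsPrimitiveRoot ζ p) (r : ℕ) :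
    ∃ n : ℕ, ∀ u : Fin r → 𝓞 K, ∃ κ : ℝ, 0 < κ ∧ ∀ d : Fin r → 𝓞 K, (∀ i, Pf p (d i)) →
      (∀ i, (p : 𝓞 K) ^ n ∣ d i - u i) → ∀ (N : Type) [Field N] [NumberField N] [Algebra K N]
      (x : Fin r → N), (∀ i, x i ^ p = algebraMap K N (d i : K)) →
      IntermediateField.adjoin K (Set.range x) = ⊤ → Module.finrank K N = p ^ r →
      ∀ A : 𝓞 K, Squarefree A → (∀ q, Prime q → (q ∣ A ↔ ∃ i, q ∣ d i)) →
        |(discr N : ℝ)| = κ * ((|Algebra.norm ℤ A| : ℤ) : ℝ) ^ ((p - 1) * p ^ (r - 1)) := by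
  obtain ⟨n, hn⟩ := disc_class0 (K := K) p hζ r
  refine ⟨n, fun u => ?_⟩
  obtain ⟨κ, hκ, h⟩ := hn u
  refine ⟨κ, hκ, fun d hd hu N _ _ _ x hx htop hdeg A hA hP => ?_⟩
  rw [Int.cast_abs]
  exact h d (fun i P hP hdvd => hP.not_unit (hd i P hdvd)) hu N x ⟨hx, htop, hdeg⟩ A hA hP

end Pool.Agent.Lib.MP_1a91b9_ntDF
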