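import Pool.Agent.Lib.MP_1a91b9_ntDF.B0

/-!
# Discriminant form, block B: definitions
-/

set_option autoImplicit false

noncomputable section

namespace Pool.Agent.Lib.MP_1a91b9_ntDF

open NumberField

/-- free of p-th powers of primes -/
def PF {K : Type} [Field K] [NumberField K] (p : ℕ) (y : 𝓞 K) : Prop :=
  ∀ P : 𝓞 K, Prime P → ¬ P ^ p ∣ y

/-- g_χ ^ p is the largest p-th power which divides d ^ χ -/
structure GD {K : Type} [Field K] [NumberField K] (p : ℕ) {r : ℕ} (d : Fin r → 𝓞 K)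
    (g : (Fin r → ZMod p) → 𝓞 K) : Prop where
  ne : ∀ χ, g χ ≠ 0
  ex : ∀ χ, ∃ y : 𝓞 K, PF p y ∧ mon χ d = g χ ^ p * y

/-- the elements d_i in K -/
def dK {K : Type} [Field K] [NumberField K] {r : ℕ} (d : Fin r → 𝓞 K) : Fin r → K := fun i => (d i : K)

/-- the lattice vectors X_χ / (p ^ r w_χ) -/
def tht {K : Type} [Field K] [NumberField K] {p r : ℕ} {N : Type} [Field N] [NumberField N]
    [Algebra K N] (x : Fin r → N) (w : (Fin r → ZMod p) → 𝓞 K) (χ : Fin r → ZMod p) : N :=
  mon χ x / ((p : N) ^ r * algebraMap K N (w χ))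

/-- Q(w) = the c in O ^ ι with integral sum of the c_χ X_χ / (p ^ r w_χ) -/
def Qw {K : Type} [Field K] [NumberField K] {p r : ℕ} [NeZero p] {N : Type} [Field N] [NumberField N]
    [Algebra K N] (x : Fin r → N) (w : (Fin r → ZMod p) → 𝓞 K) : AddSubgroup ((Fin r → ZMod p) → 𝓞 K) where
  carrier := {c | IsIntegral ℤ (∑ χ, algebraMap K N (c χ) * tht x w χ)}
  zero_mem' := by
    show IsIntegral ℤ _
    simp only [Pi.zero_apply, map_zero, zero_mul, Finset.sum_const_zero]
    exact isIntegral_zero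
  add_mem' := by
    intro a b ha hb
    show IsIntegral ℤ _
    have : ∑ χ, algebraMap K N ((a + b) χ : 𝓞 K) * tht x w χ
        = ∑ χ, algebraMap K N (a χ) * tht x w χ + ∑ χ, algebraMap K N (b χ) * tht x w χ := by
      simp only [Pi.add_apply, map_add, add_mul, Finset.sum_add_distrib]
    rw [this]
    exact ha.add hb
  neg_mem' := by
    intro a ha
    show IsIntegral ℤ _
    have : ∑ χ, algebraMap K N ((-a) χ : 𝓞 K) * tht x w χ
        = - ∑ χ, algebraMap K N (a χ) * tht x w χ := by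
      simp only [Pi.neg_apply, map_neg, neg_mul, Finset.sum_neg_distrib]
    rw [this]
    exact ha.neg

theorem mem_Qw {K : Type} [Field K] [NumberField K] {p r : ℕ} [NeZero p] {N : Type} [Field N] [NumberField N]
    [Algebra K N] (x : Fin r → N) (w : (Fin r → ZMod p) → 𝓞 K) (c : (Fin r → ZMod p) → 𝓞 K) :
    c ∈ Qw x w ↔ IsIntegral ℤ (∑ χ, algebraMap K N (c χ) * tht x w χ) := Iff.rfl

end Pool.Agent.Lib.MP_1a91b9_ntDF
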