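import Pool.Agent.Lib.MP_1a91b9_ntDF.BDefs

set_option autoImplicit false

noncomputable section

namespace Pool.Agent.Lib.MP_1a91b9_ntDF

open NumberField

variable {K : Type} [Field K] [NumberField K]

/-- leaf BU1: k ^ p y integral, y free of p-th powers: k integral. k = a / b reduced, b ^ p | a ^ p y, so b ^ p | y -/
theorem PF_int [IsPrincipalIdealRing (𝓞 K)] {p : ℕ} (hp : p ≠ 0) {y : 𝓞 K} (hy : PF p y) {k : K}
    (h : IsIntegral ℤ (k ^ p * (y : K))) : IsIntegral ℤ k := by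
  obtain ⟨a, b, hab, hk⟩ := IsFractionRing.exists_reduced_fraction (A := 𝓞 K) (K := K) k
  have hb0 : (b : 𝓞 K) ≠ 0 := nonZeroDivisors.ne_zero b.2
  obtain ⟨c, hc⟩ : ∃ c : 𝓞 K, algebraMap (𝓞 K) K c = k ^ p * (y : K) :=
    (IsIntegralClosure.isIntegral_iff (R := ℤ) (A := 𝓞 K) (B := K)).1 h
  have hbk : algebraMap (𝓞 K) K a = k * algebraMap (𝓞 K) K b := by
    rw [← hk]
    exact (IsLocalization.mk'_spec K a b).symm
  have h1 : a ^ p * y = c * (b : 𝓞 K) ^ p := by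
    apply NumberField.RingOfIntegers.coe_injective
    show algebraMap (𝓞 K) K _ = algebraMap (𝓞 K) K _
    rw [map_mul, map_pow, hbk, map_mul, map_pow, hc]
    ring
  have h2 : (b : 𝓞 K) ^ p ∣ y := by
    have h3 : IsRelPrime ((b : 𝓞 K) ^ p) (a ^ p) := (hab.symm).pow
    exact h3.dvd_of_dvd_mul_left ⟨c, by rw [h1]; ring⟩
  have h4 : IsUnit (b : 𝓞 K) := by
    by_contra hu
    obtain ⟨P, hP, hPb⟩ := WfDvdMonoid.exists_irreducible_factor hu hb0
    exact hy P hP.prime ((pow_dvd_pow_of_dvd hPb p).trans h2)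
  obtain ⟨v, hv⟩ := h4
  have h5 : k = algebraMap (𝓞 K) K (a * ((v⁻¹ : (𝓞 K)ˣ) : 𝓞 K)) := by
    have h6 : algebraMap (𝓞 K) K b * algebraMap (𝓞 K) K ((v⁻¹ : (𝓞 K)ˣ) : 𝓞 K) = 1 := by
      rw [← map_mul, ← hv, Units.mul_inv, map_one]
    rw [map_mul, hbk, mul_assoc, h6, mul_one]
  rw [h5]
  exact (RingOfIntegers.isIntegral_coe _)

end Pool.Agent.Lib.MP_1a91b9_ntDF
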