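import Pool.Agent.Lib.MP_1a91b9_ntDF.BDefs

set_option autoImplicit false

noncomputable section

namespace Pool.Agent.Lib.MP_1a91b9_ntDF

open NumberField

variable {K : Type} [Field K] [NumberField K]

/-- leaf BU2: the part above p -/
theorem split_p [IsPrincipalIdealRing (𝓞 K)] (p : ℕ) {g : 𝓞 K} (hg : g ≠ 0) :
    ∃ w u : 𝓞 K, ∃ k : ℕ, g = w * u ∧ IsCoprime u (p : 𝓞 K) ∧ w ∣ (p : 𝓞 K) ^ k := by
  classical
  revert hg
  refine WfDvdMonoid.induction_on_irreducible g (fun h => absurd rfl h) (fun u hu _ => ?_) (fun a q ha hq ih _ => ?_)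
  · exact ⟨1, u, 0, (one_mul u).symm, (by obtain ⟨v, hv⟩ := hu; exact ⟨(v⁻¹ : (𝓞 K)ˣ), 0, by rw [← hv, zero_mul, add_zero, Units.inv_mul]⟩), by rw [pow_zero]⟩
  · obtain ⟨w, u, k, h1, h2, h3⟩ := ih ha
    by_cases hd : q ∣ (p : 𝓞 K)
    · exact ⟨q * w, u, k + 1, by rw [h1, mul_assoc], h2, by rw [pow_succ']; exact mul_dvd_mul hd h3⟩
    · exact ⟨w, q * u, k, by rw [h1]; ring, IsCoprime.mul_left ((Irreducible.coprime_iff_not_dvd hq).2 hd) h2, h3⟩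

end Pool.Agent.Lib.MP_1a91b9_ntDF
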