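import Pool.Agent.Lib.MP_1a91b9_ntDF.BU1
import Pool.Agent.Lib.MP_1a91b9_ntDF.BU2

set_option autoImplicit false

noncomputable section

namespace Pool.Agent.Lib.MP_1a91b9_ntDF

open NumberField

variable {K : Type} [Field K] [NumberField K]

omit [NumberField K] in
/-- congruent elements have congruent monomials -/
private theorem BU3_congr {p r : ℕ} {m : 𝓞 K} {d d' : Fin r → 𝓞 K} (h : ∀ i, m ∣ d i - d' i)
    (χ : Fin r → ZMod p) : m ∣ mon χ d - mon χ d' := by
  rw [← Ideal.mem_span_singleton, ← Ideal.Quotient.eq]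
  have h1 : ∀ i, Ideal.Quotient.mk (Ideal.span {m}) (d i) = Ideal.Quotient.mk (Ideal.span {m}) (d' i) := fun i => by
    rw [Ideal.Quotient.eq, Ideal.mem_span_singleton]
    exact h i
  have h2 := mon_map (Ideal.Quotient.mk (Ideal.span {m})).toMonoidHom χ d
  have h3 := mon_map (Ideal.Quotient.mk (Ideal.span {m})).toMonoidHom χ d'
  show (Ideal.Quotient.mk (Ideal.span {m})).toMonoidHom (mon χ d) = (Ideal.Quotient.mk (Ideal.span {m})).toMonoidHom (mon χ d')
  rw [← h2, ← h3]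
  exact congrArg (mon χ) (funext h1)

/-- a prime power which divides the monomial has a small exponent -/
private theorem BU3_exp [IsPrincipalIdealRing (𝓞 K)] {p : ℕ} [Fact p.Prime] {r : ℕ} {d : Fin r → 𝓞 K}
    (hd : ∀ i, PF p (d i)) {P : 𝓞 K} (hP : Prime P) (χ : Fin r → ZMod p) {n : ℕ} (h : P ^ n ∣ mon χ d) :
    n ≤ r * (p * p) := by
  have hd0 : ∀ i, d i ≠ 0 := fun i hi => hd i P hP (hi ▸ dvd_zero _)
  have hlt : ∀ i, emultiplicity P (d i) ≤ (p : ℕ∞) := fun i => by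
    have := (emultiplicity_lt_iff_not_dvd (a := P) (b := d i) (k := p)).2 (hd i P hP)
    exact this.le
  have h1 : (n : ℕ∞) ≤ emultiplicity P (mon χ d) := le_emultiplicity_of_pow_dvd h
  have h2 : emultiplicity P (mon χ d) ≤ ((r * (p * p) : ℕ) : ℕ∞) := by
    unfold mon
    rw [Finset.emultiplicity_prod hP]
    calc ∑ i, emultiplicity P (d i ^ (χ i).val) ≤ ∑ i : Fin r, ((p * p : ℕ) : ℕ∞) := by
          refine Finset.sum_le_sum fun i _ => ?_
          rw [emultiplicity_pow hP]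
          push_cast
          refine mul_le_mul' ?_ (hlt i)
          exact_mod_cast (ZMod.val_lt (χ i)).le
      _ = ((r * (p * p) : ℕ) : ℕ∞) := by
          rw [Finset.sum_const, Finset.card_univ, Fintype.card_fin, nsmul_eq_mul]
          push_cast
          rfl
  exact_mod_cast h1.trans h2

/-- leaf BU3: the same w for d and d' -/
theorem same_w [IsPrincipalIdealRing (𝓞 K)] (p : ℕ) [Fact p.Prime] (r : ℕ) {M : ℕ} (hM : r * p * p + p ≤ M)
    {d d' : Fin r → 𝓞 K} (hd : ∀ i, PF p (d i)) (hd' : ∀ i, PF p (d' i)) (hdd : ∀ i, (p : 𝓞 K) ^ M ∣ d i - d' i)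
    {g g' : (Fin r → ZMod p) → 𝓞 K} (hg : GD p d g) (hg' : GD p d' g') :
    ∃ w u u' : (Fin r → ZMod p) → 𝓞 K, ∀ χ, g χ = w χ * u χ ∧ g' χ = w χ * u' χ ∧ IsCoprime (u χ) (p : 𝓞 K) ∧
      IsCoprime (u' χ) (p : 𝓞 K) ∧ w χ ∣ (p : 𝓞 K) ^ (r * p) := by
  have hp : p.Prime := Fact.out
  have key : ∀ χ : Fin r → ZMod p, ∃ w u u' : 𝓞 K, g χ = w * u ∧ g' χ = w * u' ∧ IsCoprime u (p : 𝓞 K) ∧
      IsCoprime u' (p : 𝓞 K) ∧ w ∣ (p : 𝓞 K) ^ (r * p) := by
    intro χ
    obtain ⟨w, u, k, h1, h2, h3⟩ := split_p p (hg.ne χ)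
    have hw : w ≠ 0 := by
      rintro rfl
      exact hg.ne χ (by rw [h1, zero_mul])
    obtain ⟨y, hy, hm⟩ := hg.ex χ
    obtain ⟨y', hy', hm'⟩ := hg'.ex χ
    have hwm : w ^ p ∣ mon χ d := by
      rw [hm, h1, mul_pow, mul_assoc]
      exact Dvd.intro _ rfl
    have hwp : w ∣ (p : 𝓞 K) ^ (r * p) := by
      rw [UniqueFactorizationMonoid.dvd_iff_emultiplicity_le hw]
      intro P hP
      by_cases hPw : P ∣ w
      · have hPp : P ∣ (p : 𝓞 K) := hP.dvd_of_dvd_pow (hPw.trans h3)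
        have h4 : ((r * p : ℕ) : ℕ∞) ≤ emultiplicity P ((p : 𝓞 K) ^ (r * p)) :=
          le_emultiplicity_of_pow_dvd (pow_dvd_pow_of_dvd hPp _)
        refine le_trans ?_ h4
        have hfin : FiniteMultiplicity P w := FiniteMultiplicity.of_prime_left hP hw
        rw [hfin.emultiplicity_eq_multiplicity]
        have h5 : P ^ (multiplicity P w * p) ∣ mon χ d := by
          rw [pow_mul]
          exact (pow_dvd_pow_of_dvd (pow_multiplicity_dvd P w) p).trans hwm
        have h6 := BU3_exp hd hP χ h5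
        have h7 : multiplicity P w ≤ r * p := by
          rw [← mul_assoc] at h6
          exact Nat.le_of_mul_le_mul_right h6 hp.pos
        exact_mod_cast h7
      · rw [emultiplicity_eq_zero.2 hPw]
        exact bot_le
    have hdiff : (p : 𝓞 K) ^ M ∣ mon χ d - mon χ d' := BU3_congr hdd χ
    have hwpp : w ^ p ∣ (p : 𝓞 K) ^ (r * p * p) := by
      rw [pow_mul]
      exact pow_dvd_pow_of_dvd hwp p
    have hwM : w ^ p ∣ (p : 𝓞 K) ^ M := hwpp.trans (pow_dvd_pow _ (by omega))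
    have hwm' : w ^ p ∣ mon χ d' := by
      have h5 := dvd_sub hwm (hwM.trans hdiff)
      rwa [sub_sub_cancel] at h5
    have hwg' : w ∣ g' χ := by
      obtain ⟨z, hz⟩ := hwm'
      have hw' : (w : K) ≠ 0 := by
        intro h
        exact hw (RingOfIntegers.ext h)
      have h6 : IsIntegral ℤ (((g' χ : K) / (w : K)) ^ p * (y' : K)) := by
        have h7 : ((g' χ : K) / (w : K)) ^ p * (y' : K) = (z : K) := by
          have h8 : ((g' χ : 𝓞 K) : K) ^ p * (y' : K) = (w : K) ^ p * (z : K) := by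
            have := congrArg (fun t : 𝓞 K => (t : K)) (hm'.symm.trans hz)
            simpa using this
          rw [div_pow, div_mul_eq_mul_div, h8, mul_comm, mul_div_assoc, div_self (pow_ne_zero _ hw'), mul_one]
        rw [h7]
        exact z.isIntegral_coe
      obtain ⟨c, hc⟩ : ∃ c : 𝓞 K, (c : K) = (g' χ : K) / (w : K) := ⟨⟨_, PF_int hp.ne_zero hy' h6⟩, rfl⟩
      refine ⟨c, RingOfIntegers.ext ?_⟩
      have h9 : ((w * c : 𝓞 K) : K) = (w : K) * (c : K) := map_mul (algebraMap (𝓞 K) K) w c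
      show ((g' χ : 𝓞 K) : K) = ((w * c : 𝓞 K) : K)
      rw [h9, hc, mul_div_cancel₀ _ hw']
    obtain ⟨u', hu'⟩ := hwg'
    refine ⟨w, u, u', h1, hu', h2, ?_, hwp⟩
    have hp0 : (p : 𝓞 K) ≠ 0 := Nat.cast_ne_zero.2 hp.ne_zero
    refine isCoprime_of_prime_dvd (fun h => hp0 h.2) fun P hP hPu hPp => ?_
    have h5 : w ^ p * P ^ p ∣ mon χ d' := by
      rw [hm', hu', mul_pow, mul_assoc]
      exact mul_dvd_mul_left _ ((pow_dvd_pow_of_dvd hPu p).trans (Dvd.intro _ rfl))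
    have h6 : w ^ p * P ^ p ∣ (p : 𝓞 K) ^ M := by
      refine (mul_dvd_mul hwpp (pow_dvd_pow_of_dvd hPp p)).trans ?_
      rw [← pow_add]
      exact pow_dvd_pow _ hM
    have h7 : w ^ p * P ^ p ∣ mon χ d := by
      have h8 := dvd_add (h6.trans hdiff) h5
      rwa [sub_add_cancel] at h8
    rw [hm, h1, mul_pow, mul_assoc] at h7
    have h8 : P ^ p ∣ u ^ p * y := (mul_dvd_mul_iff_left (pow_ne_zero p hw)).1 h7
    have h9 : IsCoprime (P ^ p) (u ^ p) := (h2.of_isCoprime_of_dvd_right hPp).symm.pow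
    exact hy P hP (h9.dvd_of_dvd_mul_left h8)
  choose w u u' h using key
  exact ⟨w, u, u', h⟩

end Pool.Agent.Lib.MP_1a91b9_ntDF
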