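import Pool.Agent.Lib.MP_1a91b9_ntDF.BDefs

set_option autoImplicit false

noncomputable section

namespace Pool.Agent.Lib.MP_1a91b9_ntDF

open NumberField

variable {K : Type} [Field K] [NumberField K]

/-- the matrix of multiplication by the sum of the y_χ X_χ -/
def mat {p r : ℕ} [NeZero p] (d : Fin r → 𝓞 K) (y : (Fin r → ZMod p) → 𝓞 K) :
    Matrix (Fin r → ZMod p) (Fin r → ZMod p) (𝓞 K) :=
  fun φ ψ => y (φ - ψ) * ∏ i, d i ^ ((((φ - ψ) i).val + (ψ i).val) / p)

private theorem BU5_mul {p r : ℕ} [Fact p.Prime] {N : Type} [Field N] [NumberField N] [Algebra K N]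
    {d : Fin r → 𝓞 K} {x : Fin r → N} (h : Kx p (dK d) x) (χ ψ : Fin r → ZMod p) :
    mon χ x * mon ψ x = algebraMap K N ((∏ i, d i ^ (((χ i).val + (ψ i).val) / p) : 𝓞 K) : K) * mon (χ + ψ) x := by
  have e : algebraMap K N (((∏ i, d i ^ (((χ i).val + (ψ i).val) / p) : 𝓞 K)) : K)
      = ∏ i, (algebraMap K N (d i)) ^ (((χ i).val + (ψ i).val) / p) := by
    simp only [map_prod, map_pow]
  unfold mon
  rw [e, ← Finset.prod_mul_distrib, ← Finset.prod_mul_distrib]
  refine Finset.prod_congr rfl fun i _ => ?_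
  have h1 : x i ^ p = algebraMap K N (d i) := h.cu i
  rw [← pow_add, ← h1, ← pow_mul, Pi.add_apply, ZMod.val_add, ← pow_add, Nat.div_add_mod]

private theorem BU5_mat {p r : ℕ} [Fact p.Prime] {N : Type} [Field N] [NumberField N] [Algebra K N]
    [FiniteDimensional K N] {d : Fin r → 𝓞 K} {x : Fin r → N} (h : Kx p (dK d) x) (y : (Fin r → ZMod p) → 𝓞 K) :
    Algebra.leftMulMatrix h.basis (∑ χ, algebraMap K N (y χ) * mon χ x) = (mat d y).map (algebraMap (𝓞 K) K) := by
  classical
  ext φ ψ
  rw [Algebra.leftMulMatrix_eq_repr_mul, h.basis_apply, Finset.sum_mul, map_sum, Finsupp.finsetSum_apply,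
    Finset.sum_eq_single (φ - ψ)]
  · rw [mul_assoc, BU5_mul h, sub_add_cancel, ← mul_assoc, ← map_mul, ← Algebra.smul_def, map_smul,
      ← h.basis_apply, Module.Basis.repr_self, Finsupp.smul_apply, Finsupp.single_eq_same, smul_eq_mul, mul_one]
    rfl
  · intro χ _ hχ
    rw [mul_assoc, BU5_mul h, ← mul_assoc, ← map_mul, ← Algebra.smul_def, map_smul, ← h.basis_apply,
      Module.Basis.repr_self, Finsupp.smul_apply, Finsupp.single_eq_of_ne, smul_zero]
    intro h1
    apply hχ
    rw [h1, add_sub_cancel_right]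
  · intro h1
    exact absurd (Finset.mem_univ _) h1

/-- leaf BU5: the criterion for integrality by the characteristic polynomial -/
theorem int_crit [IsPrincipalIdealRing (𝓞 K)] {p r : ℕ} [Fact p.Prime] {N : Type} [Field N] [NumberField N]
    [Algebra K N] {d : Fin r → 𝓞 K} {x : Fin r → N} (h : Kx p (dK d) x) (y : (Fin r → ZMod p) → 𝓞 K)
    {m : 𝓞 K} (hm : m ≠ 0) :
    IsIntegral ℤ ((∑ χ, algebraMap K N (y χ) * mon χ x) / algebraMap K N m) ↔
      ∀ k ≤ Fintype.card (Fin r → ZMod p), m ^ (Fintype.card (Fin r → ZMod p) - k) ∣ (mat d y).charpoly.coeff k := by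
  classical
  haveI : FiniteDimensional K N := Module.Finite.of_restrictScalars_finite ℚ K N
  obtain ⟨z, hz⟩ : ∃ z : N, z = ∑ χ, algebraMap K N (y χ) * mon χ x := ⟨_, rfl⟩
  have hmat := BU5_mat h y
  rw [← hz] at hmat ⊢
  have hmN : algebraMap K N (m : K) ≠ 0 := by
    rw [Ne, map_eq_zero]
    exact fun h0 => hm (RingOfIntegers.coe_injective (h0.trans (map_zero _).symm))
  have hcp : (Algebra.leftMulMatrix h.basis z).charpoly = (mat d y).charpoly.map (algebraMap (𝓞 K) K) := by
    rw [hmat, Matrix.charpoly_map]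
  constructor
  · intro hint k hk
    obtain ⟨w, hw⟩ : ∃ w : 𝓞 N, algebraMap (𝓞 N) N w = z / algebraMap K N m :=
      (IsIntegralClosure.isIntegral_iff (R := ℤ) (A := 𝓞 N) (B := N)).1 hint
    obtain ⟨z', hz'⟩ : ∃ z' : 𝓞 N, z' = m • w := ⟨_, rfl⟩
    have hzz : algebraMap (𝓞 N) N z' = z := by
      rw [hz', Algebra.smul_def, map_mul, hw]
      have : algebraMap (𝓞 N) N (algebraMap (𝓞 K) (𝓞 N) m) = algebraMap K N (m : K) := rfl
      rw [this]
      field_simp
    let β := Module.Free.chooseBasis (𝓞 K) (𝓞 N)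
    let β' := β.localizationLocalization K (nonZeroDivisors (𝓞 K)) N
    have h1 : (Algebra.leftMulMatrix β z').charpoly.map (algebraMap (𝓞 K) K)
        = (Algebra.leftMulMatrix β' z).charpoly := by
      rw [← Matrix.charpoly_map]
      have h2 := Algebra.map_leftMulMatrix_localization (R := 𝓞 K) (S := 𝓞 N) (Rₘ := K) (Sₘ := N)
        (nonZeroDivisors (𝓞 K)) β z'
      rw [hzz] at h2
      rw [← h2]
      rfl
    have h3 : (Algebra.leftMulMatrix β' z).charpoly = (Algebra.leftMulMatrix h.basis z).charpoly := by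
      rw [Algebra.leftMulMatrix_apply, Algebra.leftMulMatrix_apply, LinearMap.charpoly_toMatrix,
        LinearMap.charpoly_toMatrix]
    have h4 : (Algebra.leftMulMatrix β z').charpoly = (mat d y).charpoly :=
      Polynomial.map_injective _ RingOfIntegers.coe_injective (by rw [h1, h3, hcp])
    have h5 : ∀ i j, Algebra.leftMulMatrix β z' i j ∈ Ideal.span {m} := by
      intro i j
      rw [hz', map_smul, Matrix.smul_apply, smul_eq_mul]
      exact Ideal.mul_mem_right _ _ (Ideal.mem_span_singleton_self m)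
    have h6 := Matrix.coeff_charpoly_mem_ideal_pow h5 k
    rw [h4, Ideal.span_singleton_pow, Ideal.mem_span_singleton] at h6
    have h7 : Fintype.card (Module.Free.ChooseBasisIndex (𝓞 K) (𝓞 N)) = Fintype.card (Fin r → ZMod p) := by
      rw [← Module.finrank_eq_card_basis β', ← Module.finrank_eq_card_basis h.basis]
    rwa [h7] at h6
  · intro hdiv
    set n := Fintype.card (Fin r → ZMod p) with hn
    have hcoef : ∀ k : Fin n, ∃ e : 𝓞 K, (mat d y).charpoly.coeff (k : ℕ) = m ^ (n - (k : ℕ)) * e :=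
      fun k => hdiv k k.2.le
    choose e he using hcoef
    have hzero : Polynomial.aeval z (mat d y).charpoly = 0 := by
      apply Algebra.leftMulMatrix_injective h.basis
      rw [map_zero]
      have h1 := Matrix.aeval_self_charpoly (Algebra.leftMulMatrix h.basis z)
      rw [hcp, Polynomial.aeval_map_algebraMap] at h1
      rw [← h1]
      exact (Polynomial.aeval_algHom_apply ((Algebra.leftMulMatrix h.basis).restrictScalars (𝓞 K)) z _).symm
    have hdeg : (mat d y).charpoly.natDegree = n := Matrix.charpoly_natDegree_eq_dim _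
    rw [Polynomial.aeval_eq_sum_range, hdeg, Finset.sum_range_succ] at hzero
    have hlead : (mat d y).charpoly.coeff n = 1 := by
      have := (Matrix.charpoly_monic (mat d y)).coeff_natDegree
      rwa [hdeg] at this
    rw [hlead, one_smul] at hzero
    have hint : IsIntegral (𝓞 K) (z / algebraMap K N m) := by
      refine ⟨Polynomial.X ^ n + ∑ k : Fin n, Polynomial.C (e k) * Polynomial.X ^ (k : ℕ),
        Polynomial.monic_X_pow_add (Polynomial.degree_sum_fin_lt _), ?_⟩
      rw [Polynomial.eval₂_add, Polynomial.eval₂_X_pow, Polynomial.eval₂_finsetSum]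
      simp only [Polynomial.eval₂_mul, Polynomial.eval₂_C, Polynomial.eval₂_X_pow]
      have h8 : ∀ k : Fin n, algebraMap (𝓞 K) N (e k) * (z / algebraMap K N m) ^ (k : ℕ)
          = (algebraMap K N m ^ n)⁻¹ * ((mat d y).charpoly.coeff (k : ℕ) • z ^ (k : ℕ)) := by
        intro k
        rw [he k, Algebra.smul_def, map_mul, map_pow]
        have e1 : algebraMap (𝓞 K) N m = algebraMap K N (m : K) := rfl
        rw [e1, div_pow]
        have e2 : algebraMap K N (m : K) ^ n = algebraMap K N (m : K) ^ (n - (k : ℕ)) * algebraMap K N (m : K) ^ (k : ℕ) := by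
          rw [← pow_add, Nat.sub_add_cancel k.2.le]
        rw [e2]
        field_simp
      rw [Finset.sum_congr rfl fun k _ => h8 k, ← Finset.mul_sum, div_pow, div_eq_inv_mul, ← mul_add,
        Fin.sum_univ_eq_sum_range (fun k => (mat d y).charpoly.coeff k • z ^ k) n, add_comm, hzero, mul_zero]
    exact isIntegral_trans (R := ℤ) (A := 𝓞 K) _ hint

end Pool.Agent.Lib.MP_1a91b9_ntDF
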