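import Pool.Agent.Lib.MP_1a91b9_ntDF.BU1

set_option autoImplicit false

noncomputable section

namespace Pool.Agent.Lib.MP_1a91b9_ntDF

open NumberField

variable {K : Type} [Field K] [NumberField K]

omit [NumberField K] in
/-- Orthogonality. -/
private theorem BU7_sum_char {p : ℕ} [Fact p.Prime] {r : ℕ} {ζ : K} (hζ : IsPrimitiveRoot ζ p)
    {φ : Fin r → ZMod p} (hφ : φ ≠ 0) : ∑ a : Fin r → ZMod p, ζ ^ (φ ⬝ᵥ a).val = 0 := by
  classical
  have hp1 : 1 < p := (Fact.out : p.Prime).one_lt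
  obtain ⟨i, hi⟩ := Function.ne_iff.1 hφ
  have hz : ∀ s t : ZMod p, ζ ^ (s + t).val = ζ ^ s.val * ζ ^ t.val := by
    intro s t
    rw [ZMod.val_add, ← pow_add, ← pow_eq_pow_mod _ hζ.pow_eq_one]
  have hi' : φ i ≠ 0 := hi
  let a₀ : Fin r → ZMod p := Pi.single i (φ i)⁻¹
  have ha₀ : φ ⬝ᵥ a₀ = 1 := by
    show φ ⬝ᵥ Pi.single i (φ i)⁻¹ = 1
    rw [dotProduct_single, mul_inv_cancel₀ hi']
  have h1 : ∑ a : Fin r → ZMod p, ζ ^ (φ ⬝ᵥ a).val = ζ * ∑ a : Fin r → ZMod p, ζ ^ (φ ⬝ᵥ a).val := by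
    conv_lhs => rw [← Equiv.sum_comp (Equiv.addRight a₀) fun a : Fin r → ZMod p => ζ ^ (φ ⬝ᵥ a).val]
    rw [Finset.mul_sum]
    refine Finset.sum_congr rfl fun a _ => ?_
    have _ : Fact (1 < p) := ⟨hp1⟩
    rw [Equiv.coe_addRight, dotProduct_add, ha₀, hz, ZMod.val_one, pow_one, mul_comm]
  have h2 : (1 - ζ) * ∑ a : Fin r → ZMod p, ζ ^ (φ ⬝ᵥ a).val = 0 := by
    rw [sub_mul, one_mul, ← h1, sub_self]
  rcases mul_eq_zero.1 h2 with h3 | h3
  · exact absurd (sub_eq_zero.1 h3).symm (hζ.ne_one hp1)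
  · exact h3

/-- leaf BU7 (helper98: B1): O_N is contained in the lattice -/
theorem B1 [IsPrincipalIdealRing (𝓞 K)] {p r : ℕ} [Fact p.Prime] {ζ : K} (hζ : IsPrimitiveRoot ζ p)
    {N : Type} [Field N] [NumberField N] [Algebra K N] {d : Fin r → 𝓞 K} {x : Fin r → N} (h : Kx p (dK d) x)
    {g : (Fin r → ZMod p) → 𝓞 K} (hg : GD p d g) {z : N} (hz : IsIntegral ℤ z) :
    ∃ c : (Fin r → ZMod p) → 𝓞 K, z = ∑ χ, algebraMap K N (c χ) * tht x g χ := by
  classical
  obtain ⟨b, hb⟩ : ∃ b : Module.Basis (Fin r → ZMod p) K N, ∀ χ, b χ = mon χ x :=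
    ⟨h.basis, h.basis_apply⟩
  have hzp : ∀ s t : ZMod p, ζ ^ (s + t).val = ζ ^ s.val * ζ ^ t.val := by
    intro s t
    rw [ZMod.val_add, ← pow_add, ← pow_eq_pow_mod _ hζ.pow_eq_one]
  choose σ hσ using fun a => h.aut hζ.pow_eq_one a
  obtain ⟨B, hB⟩ : ∃ B : (Fin r → ZMod p) → K, B = fun χ => b.repr z χ := ⟨_, rfl⟩
  have hzs : z = ∑ χ, algebraMap K N (B χ) * mon χ x := by
    conv_lhs => rw [← b.sum_repr z]
    refine Finset.sum_congr rfl fun χ _ => ?_
    rw [hb, Algebra.smul_def, hB]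
  -- the projector
  have hpr : ∀ χ : Fin r → ZMod p, ∑ a, algebraMap K N (ζ ^ (-(χ ⬝ᵥ a)).val) * σ a z =
      (p : N) ^ r * (algebraMap K N (B χ) * mon χ x) := by
    intro χ
    have h1 : ∀ a, algebraMap K N (ζ ^ (-(χ ⬝ᵥ a)).val) * σ a z =
        ∑ ψ, algebraMap K N (B ψ) * mon ψ x * algebraMap K N (ζ ^ ((ψ - χ) ⬝ᵥ a).val) := by
      intro a
      conv_lhs => rw [hzs]
      rw [map_sum, Finset.mul_sum]
      refine Finset.sum_congr rfl fun ψ _ => ?_
      rw [map_mul, AlgHom.commutes, hσ, sub_dotProduct, sub_eq_add_neg, hzp, map_mul]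
      ring
    rw [Finset.sum_congr rfl fun a _ => h1 a, Finset.sum_comm, Finset.sum_eq_single χ]
    · simp only [sub_self, zero_dotProduct, ZMod.val_zero, pow_zero, map_one, mul_one]
      rw [Finset.sum_const, Finset.card_univ, Fintype.card_fun, ZMod.card, Fintype.card_fin, nsmul_eq_mul]
      push_cast
      ring
    · intro ψ _ hψ
      rw [← Finset.mul_sum, ← map_sum, BU7_sum_char hζ (sub_ne_zero.2 hψ), map_zero, mul_zero]
    · intro h'
      exact absurd (Finset.mem_univ χ) h'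
  have hζi : IsIntegral ℤ ζ := hζ.isIntegral (Fact.out : p.Prime).pos
  have hint : ∀ χ : Fin r → ZMod p, IsIntegral ℤ ((p : N) ^ r * (algebraMap K N (B χ) * mon χ x)) := by
    intro χ
    rw [← hpr χ]
    refine IsIntegral.sum _ fun a _ => IsIntegral.mul ?_ ?_
    · exact (hζi.pow _).algebraMap
    · exact hz.map ((σ a).restrictScalars ℤ)
  -- the coefficients
  have hc : ∀ χ, ∃ c : 𝓞 K, algebraMap K N (B χ) * mon χ x =
      algebraMap K N (c : K) * tht x g χ := by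
    intro χ
    obtain ⟨m, hm, hgm⟩ := hg.ex χ
    have hgK : ((g χ : 𝓞 K) : K) ≠ 0 := by exact_mod_cast hg.ne χ
    have hgN : algebraMap K N ((g χ : 𝓞 K) : K) ≠ 0 := (map_ne_zero _).2 hgK
    have hpN : (p : N) ≠ 0 := Nat.cast_ne_zero.2 (Fact.out : p.Prime).ne_zero
    have hXp : mon χ x ^ p = algebraMap K N (((g χ : 𝓞 K) : K) ^ p * (m : K)) := by
      rw [← mon_pow]
      have h2 : (fun i => x i ^ p) = fun i => (algebraMap K N : K →* N) ((d i : 𝓞 K) : K) := funext h.cu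
      rw [h2, mon_map]
      have h3 : mon χ (fun i => ((d i : 𝓞 K) : K)) = ((mon χ d : 𝓞 K) : K) :=
        mon_map (algebraMap (𝓞 K) K : 𝓞 K →* K) χ d
      rw [h3, hgm]
      show algebraMap K N ((g χ ^ p * m : 𝓞 K) : K) = _
      congr 1
    have hcint : IsIntegral ℤ ((p : K) ^ r * B χ * ((g χ : 𝓞 K) : K)) := by
      refine PF_int (Fact.out : p.Prime).ne_zero hm ?_
      have h4 : IsIntegral ℤ (algebraMap K N (((p : K) ^ r * B χ * ((g χ : 𝓞 K) : K)) ^ p * (m : K))) := by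
        have h5 : algebraMap K N (((p : K) ^ r * B χ * ((g χ : 𝓞 K) : K)) ^ p * (m : K)) =
            ((p : N) ^ r * (algebraMap K N (B χ) * mon χ x)) ^ p := by
          have h6 : ((p : N) ^ r * (algebraMap K N (B χ) * mon χ x)) ^ p =
              ((p : N) ^ r) ^ p * (algebraMap K N (B χ) ^ p * mon χ x ^ p) := by
            rw [mul_pow, mul_pow]
          rw [h6, hXp]
          simp only [map_mul, map_pow, map_natCast]
          ring
        rw [h5]
        exact (hint χ).pow p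
      exact (isIntegral_algebraMap_iff (algebraMap K N).injective).1 h4
    obtain ⟨cc, hcc⟩ : ∃ cc : 𝓞 K, (cc : K) = (p : K) ^ r * B χ * ((g χ : 𝓞 K) : K) :=
      ⟨⟨_, hcint⟩, rfl⟩
    refine ⟨cc, ?_⟩
    unfold tht
    rw [hcc]
    simp only [map_mul, map_pow, map_natCast]
    field_simp
  choose c hc using hc
  refine ⟨c, ?_⟩
  conv_lhs => rw [hzs]
  exact Finset.sum_congr rfl fun χ _ => hc χ

end Pool.Agent.Lib.MP_1a91b9_ntDF
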