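import Pool.Agent.Lib.MP_1a91b9_ntDF.D0

/-!
# MP_1a91b9_nt (the elementary abelian extensions ordered by the discriminant): the radical
-/

set_option autoImplicit false

namespace Pool.Agent.Lib.MP_1a91b9_ntDF

open NumberField

/-- The radical exists. -/
theorem c0_rad {R : Type} [CommRing R] [IsDomain R] [IsPrincipalIdealRing R] (a : R) (ha : a ≠ 0) :
    ∃ A : R, Squarefree A ∧ ∀ q, Prime q → (q ∣ A ↔ q ∣ a) := by
  revert ha
  refine UniqueFactorizationMonoid.induction_on_prime (P := fun a => a ≠ 0 → ∃ A : R, Squarefree A ∧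
    ∀ q, Prime q → (q ∣ A ↔ q ∣ a)) a (fun h => absurd rfl h) ?_ ?_
  · intro x hx _
    exact ⟨1, squarefree_one, fun q hq => ⟨fun h => absurd (isUnit_of_dvd_one h) hq.not_isUnit,
      fun h => absurd (isUnit_of_dvd_unit h hx) hq.not_isUnit⟩⟩
  · intro a q ha hq ih _
    obtain ⟨A, hA, h⟩ := ih ha
    by_cases hqA : q ∣ A
    · refine ⟨A, hA, fun s hs => ⟨fun h1 => ((h s hs).1 h1).mul_left q, fun h1 => ?_⟩⟩
      rcases hs.dvd_or_dvd h1 with h2 | h2
      · exact h2.trans hqA
      · exact (h s hs).2 h2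
    · refine ⟨q * A, ?_, fun s hs => ⟨fun h1 => ?_, fun h1 => ?_⟩⟩
      · rw [squarefree_mul_iff]
        refine ⟨?_, hq.irreducible.squarefree, hA⟩
        exact (hq.irreducible.isRelPrime_iff_not_dvd).2 hqA
      · rcases hs.dvd_or_dvd h1 with h2 | h2
        · exact h2.mul_right a
        · exact ((h s hs).1 h2).mul_left q
      · rcases hs.dvd_or_dvd h1 with h2 | h2
        · exact h2.mul_right A
        · exact ((h s hs).2 h2).mul_left q

/-- A squarefree element divides the elements with the same primes. -/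
theorem c0_sq {R : Type} [CommRing R] [IsDomain R] [IsPrincipalIdealRing R] {A B : R} (hA : Squarefree A)
    (h : ∀ q, Prime q → q ∣ A → q ∣ B) : A ∣ B := by
  have h0 : A ≠ 0 := hA.ne_zero
  obtain ⟨n, hn⟩ : ∃ n : ℕ, A ∣ B ^ n := by
    clear hA
    revert h0 h
    refine UniqueFactorizationMonoid.induction_on_prime (P := fun A => (∀ q, Prime q → q ∣ A → q ∣ B) →
      A ≠ 0 → ∃ n : ℕ, A ∣ B ^ n) A (fun _ h => absurd rfl h) ?_ ?_
    · intro x hx _ _
      exact ⟨0, hx.dvd⟩
    · intro a q ha hq ih h1 _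
      obtain ⟨n, hn⟩ := ih (fun s hs h2 => h1 s hs (h2.mul_left q)) ha
      refine ⟨n + 1, ?_⟩
      rw [pow_succ, mul_comm q a]
      exact mul_dvd_mul hn (h1 q hq (dvd_mul_right q a))
  exact hA.isRadical n B hn

/-- An element which is free of `p`-th powers divides the power of its radical. -/
theorem c0_pf {R : Type} [CommRing R] [IsDomain R] [IsPrincipalIdealRing R] {p : ℕ} (hp : 0 < p) {d A : R}
    (hd : Pf p d) (h : ∀ q, Prime q → q ∣ d → q ∣ A) : d ∣ A ^ (p - 1) := by
  revert hd h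
  refine UniqueFactorizationMonoid.induction_on_coprime (P := fun d => Pf p d →
    (∀ q, Prime q → q ∣ d → q ∣ A) → d ∣ A ^ (p - 1)) d ?_ ?_ ?_ ?_
  · intro h _
    exact absurd (h 0 (dvd_zero _)) not_isUnit_zero
  · intro x hx _ _
    exact hx.dvd
  · intro q i hq h h1
    rcases Nat.eq_zero_or_pos i with rfl | hi
    · rw [pow_zero]; exact one_dvd _
    have h2 : i < p := by
      by_contra h3
      exact hq.not_isUnit (h q (pow_dvd_pow q (not_lt.1 h3)))
    exact (pow_dvd_pow_of_dvd (h1 q hq (dvd_pow_self q hi.ne')) i).trans (pow_dvd_pow A (by omega))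
  · intro x y hxy h1 h2 h3 h4
    refine hxy.mul_dvd (h1 (fun z hz => h3 z (hz.mul_right y)) fun q hq h5 => h4 q hq (h5.mul_right y))
      (h2 (fun z hz => h3 z (hz.mul_left x)) fun q hq h5 => h4 q hq (h5.mul_left x))

end Pool.Agent.Lib.MP_1a91b9_ntDF
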