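import Mathlib

/-!
# MP_1a91b9_nt (the discriminant form): elementary Kummer theory, for a prime number `p`

A field `K` with a primitive `p`-th root of unity `ζ`, an extension `N` and elements `x i` of `N` with
`x i ^ p ∈ K`. An element `y` of `K(x)` with `y ^ p ∈ K` is the product of an element of `K` and of powers of
the `x i`.
-/

set_option autoImplicit false

namespace Pool.Agent.Lib.MP_1a91b9_ntDF

open IntermediateField Polynomial

section

variable {L N : Type*} [Field L] [Field N] [Algebra L N] {p : ℕ} {ζ : L}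

/-- If `x ∉ L` then `X ^ p - x ^ p` is the minimal polynomial of `x` over `L`. -/
theorem kum_minpoly (hp : p.Prime) (hζ : IsPrimitiveRoot ζ p) {x : N} {a : L}
    (hxa : x ^ p = algebraMap L N a) (hx : ∀ b : L, algebraMap L N b ≠ x) :
    minpoly L x = X ^ p - C a := by
  have hx0 : x ≠ 0 := fun h => hx 0 (by rw [map_zero, h])
  have h1 : ∀ b : L, b ^ p ≠ a := by
    intro b hb
    have hb0 : algebraMap L N b ≠ 0 := by
      intro h0
      apply hx0
      have h2 : x ^ p = 0 := by rw [hxa, ← hb, map_pow, h0, zero_pow hp.ne_zero]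
      exact pow_eq_zero_iff hp.ne_zero |>.1 h2
    have h2 : (x / algebraMap L N b) ^ p = 1 := by
      rw [div_pow, hxa, ← map_pow, hb, div_self]
      rw [← hb, map_pow]
      exact pow_ne_zero _ hb0
    have hζ' : IsPrimitiveRoot (algebraMap L N ζ) p := hζ.map_of_injective (algebraMap L N).injective
    have : NeZero p := ⟨hp.ne_zero⟩
    obtain ⟨i, -, hi⟩ := hζ'.eq_pow_of_pow_eq_one h2
    refine hx (ζ ^ i * b) ?_
    rw [map_mul, map_pow, hi, div_mul_cancel₀ _ hb0]
  have h2 := X_pow_sub_C_irreducible_of_prime hp h1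
  refine (minpoly.eq_of_irreducible_of_monic h2 ?_ (monic_X_pow_sub_C _ hp.ne_zero)).symm
  simp [hxa]

/-- One step. -/
theorem kum_step (hp : p.Prime) (hζ : IsPrimitiveRoot ζ p) {x y : N} {a b : L}
    (hxa : x ^ p = algebraMap L N a) (hy : y ∈ L⟮x⟯) (hyb : y ^ p = algebraMap L N b) :
    ∃ j : Fin p, ∃ w : L, y = algebraMap L N w * x ^ (j : ℕ) := by
  have : NeZero p := ⟨hp.ne_zero⟩
  by_cases hx : ∃ c : L, algebraMap L N c = x
  · obtain ⟨c, rfl⟩ := hx
    have h1 : L⟮algebraMap L N c⟯ = ⊥ := by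
      rw [adjoin_simple_eq_bot_iff]
      exact IntermediateField.algebraMap_mem _ _
    rw [h1] at hy
    obtain ⟨w, hw⟩ := IntermediateField.mem_bot.1 hy
    exact ⟨0, w, by rw [Fin.val_zero, pow_zero, mul_one, hw]⟩
  push Not at hx
  have hmin := kum_minpoly hp hζ hxa hx
  have hint : IsIntegral L x := by
    refine ⟨X ^ p - C a, monic_X_pow_sub_C _ hp.ne_zero, ?_⟩
    simp [hxa]
  by_cases hy0 : y = 0
  · exact ⟨0, 0, by rw [hy0, map_zero, zero_mul]⟩
  -- the polynomial `f` with `y = f x`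
  obtain ⟨f, hf, hfy⟩ : ∃ f : L[X], f.natDegree < p ∧ aeval x f = y := by
    have h1 : y ∈ Algebra.adjoin L {x} := by
      rw [← IntermediateField.adjoin_simple_toSubalgebra_of_isAlgebraic hint.isAlgebraic]
      exact hy
    obtain ⟨g, hg⟩ := Algebra.adjoin_singleton_eq_range_aeval L x ▸ h1
    refine ⟨g %ₘ (X ^ p - C a), ?_, ?_⟩
    · have h2 := natDegree_modByMonic_lt g (monic_X_pow_sub_C a hp.ne_zero) (by
        intro h3
        have h4 := congrArg natDegree h3
        rw [natDegree_X_pow_sub_C, natDegree_one] at h4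
        exact hp.ne_zero h4)
      rwa [natDegree_X_pow_sub_C] at h2
    · rw [aeval_modByMonic_eq_self_of_root (by simp [hxa])]
      exact hg
  have h2 : minpoly L x ∣ f ^ p - C b := by
    apply minpoly.dvd
    rw [map_sub, map_pow, hfy, hyb, aeval_C, sub_self]
  have h3 : (aeval (algebraMap L N ζ * x) f) ^ p = y ^ p := by
    rw [hmin] at h2
    obtain ⟨g, hg⟩ := h2
    have h4 := congrArg (aeval (algebraMap L N ζ * x)) hg
    rw [map_sub, map_pow, aeval_C, map_mul, map_sub, map_pow, aeval_X, aeval_C, mul_pow,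
      ← map_pow (algebraMap L N) ζ, hζ.pow_eq_one, map_one, one_mul, hxa, sub_self, zero_mul,
      sub_eq_zero] at h4
    rw [h4, hyb]
  obtain ⟨j, hj, hj'⟩ : ∃ j < p, algebraMap L N ζ ^ j = aeval (algebraMap L N ζ * x) f / y := by
    refine (hζ.map_of_injective (algebraMap L N).injective).eq_pow_of_pow_eq_one ?_
    rw [div_pow, h3, div_self (pow_ne_zero _ hy0)]
  have h4 : aeval (algebraMap L N ζ * x) f = algebraMap L N (ζ ^ j) * aeval x f := by
    rw [hfy, map_pow, hj', div_mul_cancel₀ _ hy0]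
  have h5 : f.comp (C ζ * X) - C (ζ ^ j) * f = 0 := by
    by_contra h0
    have h6 : aeval x (f.comp (C ζ * X) - C (ζ ^ j) * f) = 0 := by
      rw [map_sub, aeval_comp, map_mul, map_mul, aeval_C, aeval_C, aeval_X, h4, sub_self]
    have h7 := natDegree_le_of_dvd (minpoly.dvd L x h6) h0
    rw [hmin, natDegree_X_pow_sub_C] at h7
    have h8 : (f.comp (C ζ * X) - C (ζ ^ j) * f).natDegree < p := by
      refine (natDegree_sub_le _ _).trans_lt (max_lt ?_ ?_)
      · refine natDegree_comp_le.trans_lt ?_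
        have h9 : (C ζ * X : L[X]).natDegree ≤ 1 := (natDegree_C_mul_le _ _).trans natDegree_X_le
        calc f.natDegree * (C ζ * X : L[X]).natDegree ≤ f.natDegree * 1 := Nat.mul_le_mul_left _ h9
          _ < p := by rw [mul_one]; exact hf
      · exact (natDegree_C_mul_le _ _).trans_lt hf
    omega
  have h6 : ∀ c, c ≠ j → f.coeff c = 0 := by
    intro c hc
    by_cases hcp : p ≤ c
    · exact coeff_eq_zero_of_natDegree_lt (hf.trans_le hcp)
    have h7 := congrArg (fun g : L[X] => g.coeff c) h5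
    simp only [coeff_sub, coeff_C_mul, coeff_zero, comp_C_mul_X_coeff] at h7
    have h8 : f.coeff c * (ζ ^ c - ζ ^ j) = 0 := by linear_combination h7
    rcases mul_eq_zero.1 h8 with h9 | h9
    · exact h9
    · exact absurd (hζ.pow_inj (by omega) hj (sub_eq_zero.1 h9)) hc
  refine ⟨⟨j, hj⟩, f.coeff j, ?_⟩
  have h7 : f = C (f.coeff j) * X ^ j := by
    ext c
    rw [coeff_C_mul, coeff_X_pow]
    split_ifs with hc
    · rw [hc, mul_one]
    · rw [mul_zero, h6 c hc]
  rw [← hfy]
  conv_lhs => rw [h7]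
  rw [map_mul, aeval_C, map_pow, aeval_X]

end

section

variable {K N : Type*} [Field K] [Field N] [Algebra K N] {p : ℕ} {ζ : K} {ι : Type*} [DecidableEq ι]

/-- An element `y` of `K(x)` with `y ^ p ∈ K` is the product of an element of `K` and of powers of the `x i`. -/
theorem kum_finset (hp : p.Prime) (hζ : IsPrimitiveRoot ζ p) {x : ι → N} (hx : ∀ i, x i ≠ 0)
    (hxK : ∀ i, ∃ a : K, x i ^ p = algebraMap K N a) (s : Finset ι) : ∀ {y : N}, y ∈ adjoin K (x '' (s : Set ι)) →
    (∃ b : K, y ^ p = algebraMap K N b) →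
    ∃ (χ : ι → Fin p) (z : K), y = algebraMap K N z * ∏ i ∈ s, x i ^ (χ i : ℕ) := by
  have : NeZero p := ⟨hp.ne_zero⟩
  induction s using Finset.induction_on with
  | empty =>
    intro y hy _
    rw [Finset.coe_empty, Set.image_empty, adjoin_empty] at hy
    obtain ⟨z, hz⟩ := IntermediateField.mem_bot.1 hy
    exact ⟨fun _ => 0, z, by rw [Finset.prod_empty, mul_one, hz]⟩
  | insert i s hi ih =>
    intro y hy hyb
    obtain ⟨b, hb⟩ := hyb
    obtain ⟨a, ha⟩ := hxK i
    have h1 : y ∈ (adjoin (adjoin K (x '' (s : Set ι))) {x i}).restrictScalars K := by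
      rw [adjoin_adjoin_left, Set.union_comm, ← Set.image_singleton, ← Set.image_union,
        Set.singleton_union, ← Finset.coe_insert]
      exact hy
    have hζ' : IsPrimitiveRoot (algebraMap K (adjoin K (x '' (s : Set ι))) ζ) p :=
      hζ.map_of_injective (algebraMap K _).injective
    obtain ⟨j, w, hw⟩ := kum_step (L := adjoin K (x '' (s : Set ι))) hp hζ' (x := x i) (y := y)
      (a := algebraMap K _ a) (b := algebraMap K _ b)
      (by rw [ha, ← IsScalarTower.algebraMap_apply]) h1 (by rw [hb, ← IsScalarTower.algebraMap_apply])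
    have h2 : ∃ c : K, ((w : N)) ^ p = algebraMap K N c := by
      refine ⟨b / a ^ (j : ℕ), ?_⟩
      rw [map_div₀, map_pow, ← ha, ← hb, hw, mul_pow, ← pow_mul, ← pow_mul, mul_comm (j : ℕ) p,
        eq_div_iff (pow_ne_zero _ (hx i))]
      rfl
    obtain ⟨χ, z, hz⟩ := ih w.2 h2
    refine ⟨Function.update χ i j, z, ?_⟩
    rw [Finset.prod_insert hi, Function.update_self, hw]
    have h3 : ∏ k ∈ s, x k ^ ((Function.update χ i j k : Fin p) : ℕ) = ∏ k ∈ s, x k ^ (χ k : ℕ) :=
      Finset.prod_congr rfl fun k hk => by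
        rw [Function.update_of_ne (ne_of_mem_of_not_mem hk hi)]
    rw [h3]
    have h4 : algebraMap (adjoin K (x '' (s : Set ι))) N w = (w : N) := rfl
    rw [h4, hz]
    ring

/-- The case of all the `x i`. -/
theorem kum_mem [Fintype ι] (hp : p.Prime) (hζ : IsPrimitiveRoot ζ p) {x : ι → N} (hx : ∀ i, x i ≠ 0)
    (hxK : ∀ i, ∃ a : K, x i ^ p = algebraMap K N a) (htop : adjoin K (Set.range x) = ⊤) {y : N}
    (hyb : ∃ b : K, y ^ p = algebraMap K N b) :
    ∃ (χ : ι → Fin p) (z : K), y = algebraMap K N z * ∏ i, x i ^ (χ i : ℕ) := by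
  refine kum_finset hp hζ hx hxK Finset.univ ?_ hyb
  rw [Finset.coe_univ, Set.image_univ, htop]
  trivial

/-- The degree of `K(x i, i ∈ s)`. -/
theorem kum_finrank (hp : p.Prime) {x : ι → N}
    (hxK : ∀ i, ∃ a : K, x i ^ p = algebraMap K N a) (s : Finset ι) :
    FiniteDimensional K (adjoin K (x '' (s : Set ι))) ∧
      Module.finrank K (adjoin K (x '' (s : Set ι))) ≤ p ^ s.card := by
  induction s using Finset.induction_on with
  | empty =>
    rw [Finset.coe_empty, Set.image_empty, adjoin_empty, Finset.card_empty, pow_zero,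
      IntermediateField.finrank_bot]
    exact ⟨inferInstance, le_rfl⟩
  | insert i s hi ih =>
    obtain ⟨h1, h2⟩ := ih
    obtain ⟨a, ha⟩ := hxK i
    have hint : IsIntegral (adjoin K (x '' (s : Set ι))) (x i) := by
      refine ⟨X ^ p - C (algebraMap K _ a), monic_X_pow_sub_C _ hp.ne_zero, ?_⟩
      rw [eval₂_sub, eval₂_pow, eval₂_X, eval₂_C, ha, ← IsScalarTower.algebraMap_apply, sub_self]
    have h3 : (adjoin (adjoin K (x '' (s : Set ι))) {x i}).restrictScalars K =
        adjoin K (x '' ((insert i s : Finset ι) : Set ι)) := by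
      rw [adjoin_adjoin_left, Set.union_comm, ← Set.image_singleton, ← Set.image_union,
        Set.singleton_union, ← Finset.coe_insert]
    rw [← h3]
    have h4 : FiniteDimensional (adjoin K (x '' (s : Set ι))) (adjoin (adjoin K (x '' (s : Set ι))) {x i}) :=
      adjoin.finiteDimensional hint
    have h5 : Module.finrank (adjoin K (x '' (s : Set ι)))
        (adjoin (adjoin K (x '' (s : Set ι))) {x i}) ≤ p := by
      rw [adjoin.finrank hint]
      have h6 : aeval (x i) (X ^ p - C (algebraMap K (adjoin K (x '' (s : Set ι))) a)) = 0 := by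
        rw [map_sub, map_pow, aeval_X, aeval_C, ha, ← IsScalarTower.algebraMap_apply, sub_self]
      have h7 := natDegree_le_of_dvd (minpoly.dvd (adjoin K (x '' (s : Set ι))) (x i) h6)
        (monic_X_pow_sub_C _ hp.ne_zero).ne_zero
      rwa [natDegree_X_pow_sub_C] at h7
    constructor
    · exact FiniteDimensional.trans K (adjoin K (x '' (s : Set ι)))
        (adjoin (adjoin K (x '' (s : Set ι))) {x i})
    · have h6 := Module.finrank_mul_finrank K (adjoin K (x '' (s : Set ι)))
        (adjoin (adjoin K (x '' (s : Set ι))) {x i})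
      have h7 : Module.finrank K ((adjoin (adjoin K (x '' (s : Set ι))) {x i}).restrictScalars K) =
          Module.finrank K (adjoin (adjoin K (x '' (s : Set ι))) {x i}) := rfl
      rw [h7, ← h6, Finset.card_insert_of_notMem hi, pow_succ]
      exact Nat.mul_le_mul h2 h5

/-- If the degree of `K(x)` is `p ^ r` then a product of powers of the `x i` is in `K` only for the exponents zero. -/
theorem kum_indep {r : ℕ} (hp : p.Prime) {x : Fin r → N} (hx : ∀ i, x i ≠ 0)
    (hxK : ∀ i, ∃ a : K, x i ^ p = algebraMap K N a) (htop : adjoin K (Set.range x) = ⊤)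
    (hr : Module.finrank K N = p ^ r) (χ : Fin r → Fin p) {z : K}
    (hz : algebraMap K N z = ∏ i, x i ^ (χ i : ℕ)) (k : Fin r) : (χ k : ℕ) = 0 := by
  classical
  by_contra hk
  set s : Finset (Fin r) := Finset.univ.erase k with hs
  have h1 : x k ^ (χ k : ℕ) ∈ adjoin K (x '' (s : Set (Fin r))) := by
    have h2 : x k ^ (χ k : ℕ) = algebraMap K N z * (∏ i ∈ s, x i ^ (χ i : ℕ))⁻¹ := by
      rw [hz, ← Finset.mul_prod_erase _ _ (Finset.mem_univ k), ← hs, mul_assoc, mul_inv_cancel₀, mul_one]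
      exact Finset.prod_ne_zero_iff.2 fun i _ => pow_ne_zero _ (hx i)
    rw [h2]
    refine mul_mem (IntermediateField.algebraMap_mem _ _) (inv_mem (prod_mem fun i hi => pow_mem ?_ _))
    exact subset_adjoin K _ ⟨i, hi, rfl⟩
  have h2 : x k ^ p ∈ adjoin K (x '' (s : Set (Fin r))) := by
    obtain ⟨a, ha⟩ := hxK k
    rw [ha]
    exact IntermediateField.algebraMap_mem _ _
  have h3 : x k ∈ adjoin K (x '' (s : Set (Fin r))) := by
    have h4 : Nat.Coprime (χ k : ℕ) p :=
      (Nat.coprime_comm.1 ((Nat.Prime.coprime_iff_not_dvd hp).2 fun h =>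
        hk (Nat.eq_zero_of_dvd_of_lt h (χ k).2)))
    have h5 := Nat.gcd_eq_gcd_ab (χ k : ℕ) p
    rw [h4] at h5
    have h6 : x k = (x k ^ (χ k : ℕ)) ^ (Nat.gcdA (χ k : ℕ) p) * (x k ^ p) ^ (Nat.gcdB (χ k : ℕ) p) := by
      rw [← zpow_natCast, ← zpow_natCast, ← zpow_mul, ← zpow_mul, ← zpow_add₀ (hx k), ← h5]
      simp
    rw [h6]
    exact mul_mem (zpow_mem h1 _) (zpow_mem h2 _)
  have h4 : adjoin K (x '' (s : Set (Fin r))) = ⊤ := by
    rw [eq_top_iff, ← htop, adjoin_le_iff]
    rintro _ ⟨i, rfl⟩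
    by_cases hi : i = k
    · rw [hi]
      exact h3
    · exact subset_adjoin K _ ⟨i, Finset.mem_coe.2 (Finset.mem_erase.2 ⟨hi, Finset.mem_univ i⟩), rfl⟩
  have h5 := (kum_finrank hp hxK s).2
  rw [h4, IntermediateField.finrank_top', hr, hs, Finset.card_erase_of_mem (Finset.mem_univ k),
    Finset.card_univ, Fintype.card_fin] at h5
  have h6 : r - 1 < r := Nat.sub_lt (Fin.pos k) Nat.one_pos
  exact absurd h5 (not_le.2 (Nat.pow_lt_pow_right hp.one_lt h6))

end

end Pool.Agent.Lib.MP_1a91b9_ntDF
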