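import Pool.Agent.Lib.MP_1a91b9_ntDF.D0
import Pool.Agent.Lib.MP_1a91b9_ntDF.KU

/-!
# MP_1a91b9_nt (the elementary abelian extensions ordered by the discriminant): the generators of `NK`
-/

set_option autoImplicit false

namespace Pool.Agent.Lib.MP_1a91b9_ntDF

open NumberField

private theorem CN_adjoin {K : Type} [Field K] {p : ℕ} (hp : p.Prime) {ζ : K}
    (hζ : IsPrimitiveRoot ζ p) {r : ℕ} {d : Fin r → K} (hd : ∀ i, d i ≠ 0)
    {y : Fin r → AlgebraicClosure K} (hy : ∀ i, y i ^ p = algebraMap K (AlgebraicClosure K) (d i)) :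
    NK p d = IntermediateField.adjoin K (Set.range y) := by
  have hp0 : NeZero p := ⟨hp.ne_zero⟩
  refine le_antisymm ?_ ?_
  · rw [NK, IntermediateField.adjoin_le_iff]
    rintro x ⟨i, hx⟩
    have hy0 : y i ≠ 0 := by
      intro h0
      have h1 := hy i
      rw [h0, zero_pow hp.ne_zero] at h1
      exact hd i ((algebraMap K (AlgebraicClosure K)).injective (by rw [← h1, map_zero]))
    have h2 : (x / y i) ^ p = 1 := by
      rw [div_pow, hx, hy i, div_self]
      rw [← hy i]
      exact pow_ne_zero _ hy0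
    obtain ⟨k, -, hk⟩ :=
      (hζ.map_of_injective (algebraMap K (AlgebraicClosure K)).injective).eq_pow_of_pow_eq_one h2
    have h3 : x = algebraMap K (AlgebraicClosure K) ζ ^ k * y i := by
      rw [hk, div_mul_cancel₀ _ hy0]
    rw [h3]
    exact mul_mem (pow_mem (IntermediateField.algebraMap_mem _ _) _)
      (IntermediateField.subset_adjoin K _ ⟨i, rfl⟩)
  · rw [IntermediateField.adjoin_le_iff]
    rintro _ ⟨i, rfl⟩
    exact IntermediateField.subset_adjoin K _ ⟨i, hy i⟩

/-- The field `NK` is generated by `p`-th roots of the elements, it is a number field of degree at most `p ^ r`. -/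
theorem nk_kum {K : Type} [Field K] [NumberField K] {p : ℕ} [Fact p.Prime] {ζ : K}
    (hζ : IsPrimitiveRoot ζ p) {r : ℕ} {d : Fin r → K} (hd : ∀ i, d i ≠ 0) :
    FiniteDimensional K (NK p d) ∧ NumberField (NK p d) ∧ Module.finrank K (NK p d) ≤ p ^ r ∧
      ∃ y : Fin r → NK p d, Kum p d y := by
  have hp : p.Prime := Fact.out
  have h1 : ∀ i, ∃ y : AlgebraicClosure K, y ^ p = algebraMap K (AlgebraicClosure K) (d i) := fun i =>
    IsAlgClosed.exists_pow_nat_eq _ hp.pos
  choose y hy using h1
  have h2 := CN_adjoin hp hζ hd hy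
  obtain ⟨h3, h4⟩ := kum_finrank (K := K) hp (x := y) (fun i => ⟨d i, hy i⟩) Finset.univ
  rw [Finset.coe_univ, Set.image_univ, ← h2] at h3 h4
  rw [Finset.card_univ, Fintype.card_fin] at h4
  have hmem : ∀ i, y i ∈ NK p d := fun i => IntermediateField.subset_adjoin K _ ⟨i, hy i⟩
  refine ⟨h3, NumberField.of_module_finite K (NK p d), h4, fun i => ⟨y i, hmem i⟩, ⟨fun i => ?_, ?_⟩⟩
  · exact Subtype.ext (hy i)
  · refine IntermediateField.map_injective (NK p d).val ?_
    rw [IntermediateField.adjoin_map, ← AlgHom.fieldRange_eq_map, IntermediateField.fieldRange_val]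
    have h5 : (NK p d).val '' Set.range (fun i => (⟨y i, hmem i⟩ : NK p d)) = Set.range y := by
      rw [← Set.range_comp]
      rfl
    rw [h5, h2]

end Pool.Agent.Lib.MP_1a91b9_ntDF
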