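import Pool.Agent.Lib.MP_1a91b9_ntDF.CF
import Pool.Agent.Lib.MP_1a91b9_ntDF.CN
import Pool.Agent.Lib.MP_1a91b9_ntDF.BD
import Pool.Agent.Lib.MP_1a91b9_ntDF.C0a

/-!
# MP_1a91b9_nt (the elementary abelian extensions ordered by the discriminant): from the tuples to the fields,
with local conditions
-/

set_option autoImplicit false

namespace Pool.Agent.Lib.MP_1a91b9_ntDF

open NumberField

private theorem c1_ne {K : Type} [Field K] [NumberField K] {p : ℕ} {d : 𝓞 K}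
    (hd : Pf p d) : d ≠ 0 := by
  rintro rfl
  exact not_isUnit_zero (hd 0 (dvd_zero _))

private theorem c1_norm {K : Type} [Field K] [NumberField K] {a b : 𝓞 K} (hb : b ≠ 0) (h : a ∣ b) :
    ((|Algebra.norm ℤ a| : ℤ) : ℝ) ≤ ((|Algebra.norm ℤ b| : ℤ) : ℝ) := by
  have h1 : Algebra.norm ℤ a ∣ Algebra.norm ℤ b := map_dvd (Algebra.norm ℤ) h
  have h2 : Algebra.norm ℤ b ≠ 0 := Algebra.norm_ne_zero_iff.2 hb
  have h3 : |Algebra.norm ℤ a| ≤ |Algebra.norm ℤ b| :=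
    Int.le_of_dvd (abs_pos.2 h2) ((abs_dvd_abs _ _).2 h1)
  exact_mod_cast h3

/-- The tuples of the box. -/
private def c1_box (K : Type) [Field K] [NumberField K] (p r : ℕ) (Y : ℝ) : Set (Fin r → 𝓞 K) :=
  {d | ∃ A : 𝓞 K, A ≠ 0 ∧ |Algebra.norm ℤ A| ≤ Y ∧ ∀ i, d i ∣ A ^ (p - 1)}

private theorem c1_boxfin {K : Type} [Field K] [NumberField K] {p : ℕ}
    (hfn : ∀ X : ℝ, {A : 𝓞 K | A ≠ 0 ∧ |Algebra.norm ℤ A| ≤ X}.Finite) (r : ℕ) (Y : ℝ) :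
    (c1_box K p r Y ∩ {d | ∀ i, Pf p (d i)}).Finite := by
  have h1 : (Set.pi Set.univ (fun _ : Fin r => {A : 𝓞 K | A ≠ 0 ∧ |Algebra.norm ℤ A| ≤ Y ^ (p - 1)})).Finite :=
    Set.Finite.pi (fun _ => hfn _)
  refine h1.subset ?_
  rintro d ⟨⟨A, hA, hY, hd⟩, hpf⟩ i -
  refine ⟨c1_ne (hpf i), ?_⟩
  have h2 := c1_norm (pow_ne_zero (p - 1) hA) (hd i)
  rw [map_pow, abs_pow] at h2
  refine h2.trans ?_
  push_cast
  have h3 : (0 : ℝ) ≤ ((|Algebra.norm ℤ A| : ℤ) : ℝ) := by exact_mod_cast abs_nonneg _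
  push_cast at h3 hY
  exact pow_le_pow_left₀ h3 hY _

/-- The box and the discriminant. -/
private theorem c1_iff {K : Type} [Field K] [NumberField K] {p : ℕ} [hp : Fact p.Prime] {ζ : K}
    (hζ : IsPrimitiveRoot ζ p) [IsPrincipalIdealRing (𝓞 K)] {r n : ℕ} {u : Fin r → 𝓞 K} {κ : ℝ} (hκ : 0 < κ)
    (h : ∀ d : Fin r → 𝓞 K, (∀ i, Pf p (d i)) →
      (∀ i, (p : 𝓞 K) ^ n ∣ d i - u i) → ∀ (N : Type) [Field N] [NumberField N] [Algebra K N]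
      (x : Fin r → N), (∀ i, x i ^ p = algebraMap K N (d i : K)) →
      IntermediateField.adjoin K (Set.range x) = ⊤ → Module.finrank K N = p ^ r →
      ∀ A : 𝓞 K, Squarefree A → (∀ q, Prime q → (q ∣ A ↔ ∃ i, q ∣ d i)) →
        |(discr N : ℝ)| = κ * ((|Algebra.norm ℤ A| : ℤ) : ℝ) ^ ((p - 1) * p ^ (r - 1)))
    {X : ℝ} (hX : 0 ≤ X) {d : Fin r → 𝓞 K} (hd : ∀ i, Pf p (d i)) (hu : ∀ i, (p : 𝓞 K) ^ n ∣ d i - u i)
    (hr : Module.finrank K (NK p (cK K d)) = p ^ r) :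
    DiscLe (NK p (cK K d)) X ↔
      d ∈ c1_box K p r ((X / κ) ^ (((((p - 1) * p ^ (r - 1) : ℕ) : ℝ))⁻¹)) := by
  have hp0 : 0 < p := hp.out.pos
  have hdn : ∀ i, d i ≠ 0 := fun i => c1_ne (hd i)
  have hk : (p - 1) * p ^ (r - 1) ≠ 0 :=
    Nat.mul_ne_zero (by have := hp.out.two_le; omega) (pow_ne_zero _ hp0.ne')
  set k : ℕ := (p - 1) * p ^ (r - 1) with hkdef
  obtain ⟨hfd, hnf, -, y, hy⟩ := nk_kum (K := K) hζ (d := cK K d)
    (fun i => by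
      intro h0
      exact hdn i (RingOfIntegers.ext h0))
  obtain ⟨A, hA, hAq⟩ := c0_rad (∏ i, d i) (Finset.prod_ne_zero_iff.2 fun i _ => hdn i)
  have hAq' : ∀ q, Prime q → (q ∣ A ↔ ∃ i, q ∣ d i) := by
    intro q hq
    rw [hAq q hq, hq.dvd_finsetProd_iff]
    simp
  have hdisc := h d hd hu (NK p (cK K d)) y hy.pow hy.top hr A hA hAq'
  have hA0 : (0 : ℝ) ≤ ((|Algebra.norm ℤ A| : ℤ) : ℝ) := by exact_mod_cast abs_nonneg _
  have key : |(discr (NK p (cK K d)) : ℝ)| ≤ X ↔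
      ((|Algebra.norm ℤ A| : ℤ) : ℝ) ≤ (X / κ) ^ ((k : ℝ)⁻¹) := by
    rw [hdisc, ← le_div_iff₀' hκ]
    rw [Real.le_rpow_inv_iff_of_pos hA0 (div_nonneg hX hκ.le) (by positivity), Real.rpow_natCast]
  constructor
  · rintro ⟨_, h1⟩
    exact ⟨A, hA.ne_zero, key.1 h1, fun i => c0_pf hp0 (hd i) fun q hq hqi => (hAq' q hq).2 ⟨i, hqi⟩⟩
  · rintro ⟨B, hB, hBY, hBd⟩
    refine ⟨hnf, key.2 (le_trans ?_ hBY)⟩
    refine c1_norm hB (c0_sq hA fun q hq hqA => ?_)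
    obtain ⟨i, hi⟩ := (hAq' q hq).1 hqA
    exact hq.dvd_of_dvd_pow (hi.trans (hBd i))

private theorem c1_fib {α β : Type} [Fintype β] (S : Set α) (hS : S.Finite) (f : α → β) :
    S.ncard = ∑ c, (S ∩ f ⁻¹' {c}).ncard := by
  classical
  rw [Set.ncard_eq_toFinset_card S hS,
    Finset.card_eq_sum_card_fiberwise (f := f) (t := Finset.univ) (fun x _ => Finset.mem_coe.2 (Finset.mem_univ _))]
  refine Finset.sum_congr rfl fun c _ => ?_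
  rw [← Set.ncard_coe_finset]
  refine congrArg Set.ncard ?_
  ext x
  simp

/-- The tuples which give a field of discriminant at most `X`. -/
private def c1_D (K : Type) [Field K] [NumberField K] (p r : ℕ)
    (Q : IntermediateField K (AlgebraicClosure K) → Prop) (X : ℝ) : Set (Fin r → 𝓞 K) :=
  {d | (∀ i, Pf p (d i)) ∧ Module.finrank K (NK p (cK K d)) = p ^ r ∧
    (DiscLe (NK p (cK K d)) X ∧ Q (NK p (cK K d)))}

/-- The class of a tuple. -/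
private def c1_cls (K : Type) [Field K] [NumberField K] (r : ℕ) (m : 𝓞 K) (d : Fin r → 𝓞 K) :
    Fin r → 𝓞 K ⧸ Ideal.span {m} := fun i => Ideal.Quotient.mk _ (d i)

private theorem c1_cls_eq {K : Type} [Field K] [NumberField K] {r : ℕ} {m : 𝓞 K} {d u : Fin r → 𝓞 K} :
    c1_cls K r m d = c1_cls K r m u ↔ ∀ i, m ∣ d i - u i := by
  rw [funext_iff]
  refine forall_congr' fun i => ?_
  rw [← Ideal.mem_span_singleton, ← Ideal.Quotient.eq]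
  rfl

/-- **From the law for the tuples in all the classes to the law for the fields of a set `C`** which is defined by
a condition on the classes of the tuples modulo a power of `p`. -/
theorem law_discC {K : Type} [Field K] [NumberField K] {p : ℕ} [Fact p.Prime] {ζ : K}
    (hζ : IsPrimitiveRoot ζ p) [IsPrincipalIdealRing (𝓞 K)] [Finite (𝓞 K)ˣ]
    (hfn : ∀ X : ℝ, {A : 𝓞 K | A ≠ 0 ∧ |Algebra.norm ℤ A| ≤ X}.Finite) (r : ℕ)
    (C : Set (IntermediateField K (AlgebraicClosure K))) (hC : (C ∩ Ext K p r).Nonempty) (n₀ : ℕ)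
    (hloc : ∀ d d' : Fin r → 𝓞 K, (∀ i, Pf p (d i)) → (∀ i, Pf p (d' i)) →
      Module.finrank K (NK p (cK K d)) = p ^ r → Module.finrank K (NK p (cK K d')) = p ^ r →
      (∀ i, (p : 𝓞 K) ^ n₀ ∣ d i - d' i) → NK p (cK K d) ∈ C → NK p (cK K d') ∈ C)
    (Q : IntermediateField K (AlgebraicClosure K) → Prop) (v : ℝ)
    (h : ∀ (n : ℕ) (u : Fin r → 𝓞 K),
      (∀ i q, Prime q → ¬ (q ^ p ∣ (p : 𝓞 K) ^ n ∧ q ^ p ∣ u i)) → ∀ ε : ℝ, 0 < ε →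
      ∀ᶠ X : ℝ in Filter.atTop, v - ε ≤
        (Nat.card {d : Fin r → 𝓞 K // (∀ i, Pf p (d i) ∧ (p : 𝓞 K) ^ n ∣ d i - u i) ∧
          (∃ A, A ≠ 0 ∧ |Algebra.norm ℤ A| ≤ X ∧ ∀ i, d i ∣ A ^ (p - 1)) ∧
          (Module.finrank K (NK p (cK K d)) = p ^ r ∧ Q (NK p (cK K d)))} : ℝ) /
        (Nat.card {d : Fin r → 𝓞 K // (∀ i, Pf p (d i) ∧ (p : 𝓞 K) ^ n ∣ d i - u i) ∧
          ∃ A, A ≠ 0 ∧ |Algebra.norm ℤ A| ≤ X ∧ ∀ i, d i ∣ A ^ (p - 1)} : ℝ))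
    (ε : ℝ) (hε : 0 < ε) :
    ∀ᶠ X : ℝ in Filter.atTop, v - ε ≤
      (Nat.card {N : IntermediateField K (AlgebraicClosure K) //
        N ∈ Ext K p r ∧ N ∈ C ∧ DiscLe N X ∧ Q N} : ℝ) /
      (Nat.card {N : IntermediateField K (AlgebraicClosure K) //
        N ∈ Ext K p r ∧ N ∈ C ∧ DiscLe N X} : ℝ) := by
  rcases le_or_gt (v - ε) 0 with hv | hv
  · exact Filter.Eventually.of_forall fun X => hv.trans (by positivity)
  have hp : p.Prime := Fact.out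
  obtain ⟨w, hw, hcount⟩ := fib_count K hζ r
  obtain ⟨n, hn⟩ := disc_class K hζ r
  choose κ hκ hdc using hn
  set M : ℕ := max n n₀ with hM
  have hMn : ((p : 𝓞 K) ^ n) ∣ (p : 𝓞 K) ^ M := pow_dvd_pow _ (le_max_left _ _)
  have hMn₀ : ((p : 𝓞 K) ^ n₀) ∣ (p : 𝓞 K) ^ M := pow_dvd_pow _ (le_max_right _ _)
  have hm0 : ((p : 𝓞 K) ^ M) ≠ 0 := pow_ne_zero _ (Nat.cast_ne_zero.2 hp.ne_zero)
  have hfinR : Finite (𝓞 K ⧸ Ideal.span {(p : 𝓞 K) ^ M}) :=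
    Ideal.finiteQuotientOfFreeOfNeBot _ (by rwa [Ne, Ideal.span_singleton_eq_bot])
  have : Fintype (𝓞 K ⧸ Ideal.span {(p : 𝓞 K) ^ M}) := Fintype.ofFinite _
  have hk : 0 < (p - 1) * p ^ (r - 1) :=
    Nat.mul_pos (by have := hp.two_le; omega) (pow_pos hp.pos _)
  -- a tuple which gives a field of the set
  obtain ⟨d₀, hd₀, hr₀, hC₀⟩ : ∃ d₀ : Fin r → 𝓞 K, (∀ i, Pf p (d₀ i)) ∧
      Module.finrank K (NK p (cK K d₀)) = p ^ r ∧ NK p (cK K d₀) ∈ C := by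
    obtain ⟨N, hNC, hNE⟩ := hC
    have h1 := hcount (fun N' => N' = N)
    have h2 : Nat.card {N' : IntermediateField K (AlgebraicClosure K) // N' ∈ Ext K p r ∧ N' = N} = 1 := by
      rw [Nat.card_eq_one_iff_unique]
      exact ⟨⟨fun a b => Subtype.ext (a.2.2.trans b.2.2.symm)⟩, ⟨⟨N, hNE, rfl⟩⟩⟩
    rw [h2, mul_one] at h1
    have h3 : Nat.card {d : Fin r → 𝓞 K // (∀ i, Pf p (d i)) ∧
        Module.finrank K (NK p (cK K d)) = p ^ r ∧ NK p (cK K d) = N} ≠ 0 := by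
      rw [h1]; exact hw.ne'
    obtain ⟨⟨d, hd, hr, hN⟩⟩ := (Nat.card_ne_zero.1 h3).1
    exact ⟨d, hd, hr, by rw [hN]; exact hNC⟩
  -- the class
  have hcls : ∀ c : Fin r → 𝓞 K ⧸ Ideal.span {(p : 𝓞 K) ^ M}, ∀ᶠ X : ℝ in Filter.atTop,
      ((c1_D K p r (fun N => N ∈ C) X ∩ c1_cls K r ((p : 𝓞 K) ^ M) ⁻¹' {c}).Finite ∧
        (v - ε) * ((c1_D K p r (fun N => N ∈ C) X ∩ c1_cls K r ((p : 𝓞 K) ^ M) ⁻¹' {c}).ncard : ℝ) ≤
        ((c1_D K p r (fun N => N ∈ C ∧ Q N) X ∩ c1_cls K r ((p : 𝓞 K) ^ M) ⁻¹' {c}).ncard : ℝ)) ∧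
      (c = c1_cls K r ((p : 𝓞 K) ^ M) d₀ →
        0 < (c1_D K p r (fun N => N ∈ C ∧ Q N) X ∩ c1_cls K r ((p : 𝓞 K) ^ M) ⁻¹' {c}).ncard) := by
    intro c
    by_cases hc : ∃ u : Fin r → 𝓞 K, (∀ i, Pf p (u i)) ∧ Module.finrank K (NK p (cK K u)) = p ^ r ∧
        NK p (cK K u) ∈ C ∧ c1_cls K r ((p : 𝓞 K) ^ M) u = c
    · obtain ⟨u, hu, hur, huC, rfl⟩ := hc
      have hinC : ∀ d : Fin r → 𝓞 K, (∀ i, Pf p (d i)) → Module.finrank K (NK p (cK K d)) = p ^ r →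
          (∀ i, (p : 𝓞 K) ^ M ∣ d i - u i) → NK p (cK K d) ∈ C := by
        intro d hd hr hdu
        refine hloc u d hu hd hur hr (fun i => ?_) huC
        rw [← neg_sub, dvd_neg]
        exact hMn₀.trans (hdu i)
      have h1 := h M u (fun i q hq h2 => hq.not_isUnit (hu i q h2.2)) ε hε
      have h2 : Filter.Tendsto (fun X : ℝ => (X / κ u) ^ (((((p - 1) * p ^ (r - 1) : ℕ) : ℝ))⁻¹))
          Filter.atTop Filter.atTop :=
        (tendsto_rpow_atTop (inv_pos.2 (by exact_mod_cast hk))).comp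
          (Filter.tendsto_id.atTop_div_const (hκ u))
      filter_upwards [h2.eventually h1, Filter.eventually_ge_atTop 0] with X hX hX0
      set Y : ℝ := (X / κ u) ^ (((((p - 1) * p ^ (r - 1) : ℕ) : ℝ))⁻¹) with hY
      have hmem : ∀ d : Fin r → 𝓞 K, (∀ i, Pf p (d i)) → (∀ i, (p : 𝓞 K) ^ M ∣ d i - u i) →
          Module.finrank K (NK p (cK K d)) = p ^ r → (DiscLe (NK p (cK K d)) X ↔ d ∈ c1_box K p r Y) :=
        fun d hd hdu hr => c1_iff hζ (hκ u) (hdc u) hX0 hd (fun i => hMn.trans (hdu i)) hr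
      set b : Set (Fin r → 𝓞 K) := {d | (∀ i, Pf p (d i) ∧ (p : 𝓞 K) ^ M ∣ d i - u i) ∧
          ∃ A, A ≠ 0 ∧ |Algebra.norm ℤ A| ≤ Y ∧ ∀ i, d i ∣ A ^ (p - 1)} with hb
      set a : Set (Fin r → 𝓞 K) := {d | (∀ i, Pf p (d i) ∧ (p : 𝓞 K) ^ M ∣ d i - u i) ∧
          (∃ A, A ≠ 0 ∧ |Algebra.norm ℤ A| ≤ Y ∧ ∀ i, d i ∣ A ^ (p - 1)) ∧
          (Module.finrank K (NK p (cK K d)) = p ^ r ∧ Q (NK p (cK K d)))} with ha
      have hX' : v - ε ≤ (a.ncard : ℝ) / (b.ncard : ℝ) := hX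
      have hbfin : b.Finite := (c1_boxfin hfn r Y).subset fun d hd => ⟨hd.2, fun i => (hd.1 i).1⟩
      have hsub : c1_D K p r (fun N => N ∈ C) X ∩ c1_cls K r ((p : 𝓞 K) ^ M) ⁻¹' {c1_cls K r ((p : 𝓞 K) ^ M) u} ⊆ b := by
        rintro d ⟨⟨h3, h4, h5, -⟩, h6⟩
        have h7 := c1_cls_eq.1 h6
        exact ⟨fun i => ⟨h3 i, h7 i⟩, (hmem d h3 h7 h4).1 h5⟩
      have haeq : c1_D K p r (fun N => N ∈ C ∧ Q N) X ∩
          c1_cls K r ((p : 𝓞 K) ^ M) ⁻¹' {c1_cls K r ((p : 𝓞 K) ^ M) u} = a := by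
        ext d
        constructor
        · rintro ⟨⟨h3, h4, h5, h8⟩, h6⟩
          have h7 := c1_cls_eq.1 h6
          exact ⟨fun i => ⟨h3 i, h7 i⟩, (hmem d h3 h7 h4).1 h5, h4, h8.2⟩
        · rintro ⟨h3, h4, h5, h6⟩
          exact ⟨⟨fun i => (h3 i).1, h5, (hmem d (fun i => (h3 i).1) (fun i => (h3 i).2) h5).2 h4,
            hinC d (fun i => (h3 i).1) h5 (fun i => (h3 i).2), h6⟩, c1_cls_eq.2 fun i => (h3 i).2⟩
      rw [haeq]
      have hb0 : (0 : ℝ) < b.ncard := by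
        rcases (Nat.cast_nonneg (α := ℝ) b.ncard).lt_or_eq with h3 | h3
        · exact h3
        · rw [← h3, div_zero] at hX'
          exact absurd hX' (not_le.2 hv)
      have h4 : (v - ε) * (b.ncard : ℝ) ≤ a.ncard := (le_div_iff₀ hb0).1 hX'
      refine ⟨⟨hbfin.subset hsub, le_trans (mul_le_mul_of_nonneg_left ?_ hv.le) h4⟩, fun _ => ?_⟩
      · exact_mod_cast Set.ncard_le_ncard hsub hbfin
      · have h5 : (0 : ℝ) < a.ncard := lt_of_lt_of_le (mul_pos hv hb0) h4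
        exact_mod_cast h5
    · refine Filter.Eventually.of_forall fun X => ?_
      have h1 : ∀ P : IntermediateField K (AlgebraicClosure K) → Prop, (∀ N, P N → N ∈ C) →
          c1_D K p r P X ∩ c1_cls K r ((p : 𝓞 K) ^ M) ⁻¹' {c} = ∅ := by
        intro P hP
        rw [Set.eq_empty_iff_forall_notMem]
        rintro d ⟨h2, h3⟩
        exact hc ⟨d, h2.1, h2.2.1, hP _ h2.2.2.2, h3⟩
      rw [h1 _ (fun _ h => h), h1 _ (fun _ h => h.1)]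
      refine ⟨⟨Set.finite_empty, by simp⟩, fun h2 => ?_⟩
      exact absurd ⟨d₀, hd₀, hr₀, hC₀, h2.symm⟩ hc
  filter_upwards [Filter.eventually_all.2 hcls] with X hX
  have hfin : (c1_D K p r (fun N => N ∈ C) X).Finite := by
    have h1 : c1_D K p r (fun N => N ∈ C) X =
        ⋃ c, (c1_D K p r (fun N => N ∈ C) X ∩ c1_cls K r ((p : 𝓞 K) ^ M) ⁻¹' {c}) := by
      ext d
      simp
    rw [h1]
    exact Set.finite_iUnion fun c => (hX c).1.1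
  have hsub : c1_D K p r (fun N => N ∈ C ∧ Q N) X ⊆ c1_D K p r (fun N => N ∈ C) X :=
    fun d hd => ⟨hd.1, hd.2.1, hd.2.2.1, hd.2.2.2.1⟩
  have hfinQ := hfin.subset hsub
  have e1 := c1_fib _ hfin (c1_cls K r ((p : 𝓞 K) ^ M))
  have e2 := c1_fib _ hfinQ (c1_cls K r ((p : 𝓞 K) ^ M))
  have h1 : (v - ε) * ((c1_D K p r (fun N => N ∈ C) X).ncard : ℝ) ≤
      ((c1_D K p r (fun N => N ∈ C ∧ Q N) X).ncard : ℝ) := by
    rw [e1, e2]
    push_cast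
    rw [Finset.mul_sum]
    exact Finset.sum_le_sum fun c _ => (hX c).1.2
  have h2 : 0 < (c1_D K p r (fun N => N ∈ C ∧ Q N) X).ncard :=
    lt_of_lt_of_le ((hX _).2 rfl) (Set.ncard_le_ncard Set.inter_subset_left hfinQ)
  have h3 : 0 < (c1_D K p r (fun N => N ∈ C) X).ncard := lt_of_lt_of_le h2 (Set.ncard_le_ncard hsub hfin)
  have f1 : (c1_D K p r (fun N => N ∈ C ∧ Q N) X).ncard =
      w * Nat.card {N : IntermediateField K (AlgebraicClosure K) //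
        N ∈ Ext K p r ∧ N ∈ C ∧ DiscLe N X ∧ Q N} := by
    have h4 := hcount (fun N => N ∈ C ∧ DiscLe N X ∧ Q N)
    rw [← h4]
    refine Nat.card_congr (Equiv.subtypeEquivRight fun d => ?_)
    exact ⟨fun h => ⟨h.1, h.2.1, h.2.2.2.1, h.2.2.1, h.2.2.2.2⟩,
      fun h => ⟨h.1, h.2.1, h.2.2.2.1, h.2.2.1, h.2.2.2.2⟩⟩
  have f2 : (c1_D K p r (fun N => N ∈ C) X).ncard =
      w * Nat.card {N : IntermediateField K (AlgebraicClosure K) //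
        N ∈ Ext K p r ∧ N ∈ C ∧ DiscLe N X} := by
    have h4 := hcount (fun N => N ∈ C ∧ DiscLe N X)
    rw [← h4]
    refine Nat.card_congr (Equiv.subtypeEquivRight fun d => ?_)
    exact ⟨fun h => ⟨h.1, h.2.1, h.2.2.2, h.2.2.1⟩, fun h => ⟨h.1, h.2.1, h.2.2.2, h.2.2.1⟩⟩
  rw [f1, f2] at h1
  rw [f2] at h3
  have h5 : 0 < Nat.card {N : IntermediateField K (AlgebraicClosure K) //
      N ∈ Ext K p r ∧ N ∈ C ∧ DiscLe N X} := Nat.pos_of_mul_pos_left h3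
  have h5' : (0 : ℝ) < (Nat.card {N : IntermediateField K (AlgebraicClosure K) //
      N ∈ Ext K p r ∧ N ∈ C ∧ DiscLe N X} : ℝ) := by exact_mod_cast h5
  rw [le_div_iff₀ h5']
  push_cast at h1
  have hw' : (0 : ℝ) < w := by exact_mod_cast hw
  nlinarith

end Pool.Agent.Lib.MP_1a91b9_ntDF
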