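import Mathlib

/-!
# MP_1a91b9_nt (the elementary abelian extensions ordered by the discriminant): definitions

`Ext K p r` is the set of the Galois extensions of `K` in the algebraic closure with the Galois group `(ℤ/p)^r`, `NK p d`
the field generated by the `p`-th roots of the elements `d i`.
-/

set_option autoImplicit false

namespace Pool.Agent.Lib.MP_1a91b9_ntDF

open NumberField

noncomputable section

/-- The element is divisible by the `p`-th powers of units only. -/
def Pf (p : ℕ) {R : Type} [CommMonoid R] (x : R) : Prop := ∀ y, y ^ p ∣ x → IsUnit y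

/-- The product of the powers `x i ^ χ i`. -/
def pw {p r : ℕ} {R : Type} [CommMonoid R] (x : Fin r → R) (χ : Fin r → ZMod p) : R :=
  ∏ i, x i ^ (χ i).val

section

variable (K : Type) [Field K]

/-- The Galois extensions with the group `(ℤ/p)^r`. -/
def Ext (p r : ℕ) : Set (IntermediateField K (AlgebraicClosure K)) :=
  {N | IsGalois K N ∧ Nonempty ((N ≃ₐ[K] N) ≃* Multiplicative (Fin r → ZMod p))}

variable {K}

/-- The field generated by the `p`-th roots of the elements `d i`. -/
def NK (p : ℕ) {r : ℕ} (d : Fin r → K) : IntermediateField K (AlgebraicClosure K) :=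
  IntermediateField.adjoin K {x | ∃ i, x ^ p = algebraMap K (AlgebraicClosure K) (d i)}

/-- The discriminant is at most `X`. -/
def DiscLe (N : IntermediateField K (AlgebraicClosure K)) (X : ℝ) : Prop :=
  ∃ _ : NumberField N, |(discr N : ℝ)| ≤ X

/-- `N` is generated by the `p`-th roots `y i` of the elements `d i`. -/
structure Kum (p : ℕ) {N : Type} [Field N] [Algebra K N] {r : ℕ} (d : Fin r → K) (y : Fin r → N) : Prop where
  pow : ∀ i, y i ^ p = algebraMap K N (d i)
  top : IntermediateField.adjoin K (Set.range y) = ⊤

end

/-- The coordinates of the elements `d i` of the ring of integers in `K`. -/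
def cK (K : Type) [Field K] {r : ℕ} (d : Fin r → 𝓞 K) (i : Fin r) : K := (d i : K)

end

end Pool.Agent.Lib.MP_1a91b9_ntDF
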