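import Pool.Agent.Lib.MP_1a91b9_ntDF.B0
import Pool.Agent.Lib.MP_1a91b9_ntDF.D0

/-!
# MP_1a91b9_nt (the elementary abelian extensions ordered by the discriminant): the algebra `L ⊗ N`

If `d_i = c_i ^ p d'_i` in `L` then `L ⊗ K(d_i ^ (1/p))` and `L ⊗ K(d'_i ^ (1/p))` are isomorphic.
-/

set_option autoImplicit false

namespace Pool.Agent.Lib.MP_1a91b9_ntDF

open NumberField TensorProduct

private theorem CA_single {p r : ℕ} [Fact p.Prime] {R : Type} [CommMonoid R] (b : Fin r → R)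
    (i : Fin r) : mon (Pi.single i 1 : Fin r → ZMod p) b = b i := by
  have hp : 1 < p := (Fact.out : p.Prime).one_lt
  have _ : Fact (1 < p) := ⟨hp⟩
  unfold mon
  rw [Finset.prod_eq_single i]
  · rw [Pi.single_eq_same, ZMod.val_one, pow_one]
  · intro j _ hj
    rw [Pi.single_eq_of_ne hj, ZMod.val_zero, pow_zero]
  · intro h
    exact absurd (Finset.mem_univ i) h

/-- The product of two monomials in an algebra. -/
private theorem CA_mul {p r : ℕ} [Fact p.Prime] {K : Type} [Field K] (e : Fin r → K)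
    (χ ψ : Fin r → ZMod p) : ∃ c : K, ∀ {B : Type} [CommRing B] [Algebra K B] (b : Fin r → B),
      (∀ i, b i ^ p = algebraMap K B (e i)) →
      mon χ b * mon ψ b = algebraMap K B c * mon (χ + ψ) b := by
  obtain ⟨k, hk⟩ := mon_mul χ ψ
  refine ⟨∏ i, e i ^ k i, fun {B} _ _ b hb => ?_⟩
  rw [hk, map_prod, mul_comm]
  refine congrArg (· * _) (Finset.prod_congr rfl fun i _ => ?_)
  rw [hb i, map_pow]

section

variable {p r : ℕ} [Fact p.Prime] {K N : Type} [Field K] [Field N] [Algebra K N]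
  [FiniteDimensional K N] {e : Fin r → K} {x : Fin r → N}

/-- `N` maps to every algebra which contains `p`-th roots of the elements. -/
private theorem CA_lift (h : Kx p e x) {B : Type} [CommRing B] [Algebra K B] (b : Fin r → B)
    (hb : ∀ i, b i ^ p = algebraMap K B (e i)) : ∃ f : N →ₐ[K] B, ∀ i, f (x i) = b i := by
  classical
  let f : N →ₗ[K] B := h.basis.constr K fun χ => mon χ b
  have hf : ∀ χ : Fin r → ZMod p, f (mon χ x) = mon χ b := by
    intro χ
    have h1 := h.basis.constr_basis K (fun χ : Fin r → ZMod p => mon χ b) χ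
    rw [h.basis_apply] at h1
    exact h1
  have hf1 : f 1 = 1 := by
    have h1 := hf 0
    rwa [mon_zero, mon_zero] at h1
  have hfm : ∀ y z, f (y * z) = f y * f z := by
    intro y z
    have hb2 : ∀ χ ψ : Fin r → ZMod p, f (mon χ x * mon ψ x) = f (mon χ x) * f (mon ψ x) := by
      intro χ ψ
      obtain ⟨c, hc⟩ := CA_mul e χ ψ
      rw [hc x h.cu, hf, hf, hc b hb, ← Algebra.smul_def, map_smul, hf, Algebra.smul_def]
    have h1 : ∀ (z : N) (χ : Fin r → ZMod p), f (mon χ x * z) = f (mon χ x) * f z := by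
      intro z χ
      have h3 : f ∘ₗ (LinearMap.mulLeft K (mon χ x)) =
          (LinearMap.mulLeft K (f (mon χ x))) ∘ₗ f := by
        refine h.basis.ext fun ψ => ?_
        rw [LinearMap.comp_apply, LinearMap.comp_apply, LinearMap.mulLeft_apply,
          LinearMap.mulLeft_apply, h.basis_apply]
        exact hb2 χ ψ
      exact LinearMap.congr_fun h3 z
    have h3 : f ∘ₗ (LinearMap.mulRight K z) = (LinearMap.mulRight K (f z)) ∘ₗ f := by
      refine h.basis.ext fun χ => ?_
      rw [LinearMap.comp_apply, LinearMap.comp_apply, LinearMap.mulRight_apply,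
        LinearMap.mulRight_apply, h.basis_apply]
      exact h1 z χ
    exact LinearMap.congr_fun h3 y
  refine ⟨AlgHom.ofLinearMap f hf1 hfm, fun i => ?_⟩
  have h1 := hf (Pi.single i 1)
  rw [CA_single, CA_single] at h1
  exact h1

/-- Two homomorphisms which agree on the generators are equal. -/
private theorem CA_ext (h : Kx p e x) {B : Type} [CommRing B] [Algebra K B] {f g : N →ₐ[K] B}
    (hfg : ∀ i, f (x i) = g (x i)) : f = g := by
  have h1 : (f : N →ₗ[K] B) = (g : N →ₗ[K] B) := by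
    refine h.basis.ext fun χ => ?_
    rw [h.basis_apply]
    show f (mon χ x) = g (mon χ x)
    have e1 : ∀ u : N →ₐ[K] B, u (mon χ x) = mon χ fun i => u (x i) := fun u => by
      unfold mon
      rw [map_prod]
      exact Finset.prod_congr rfl fun i _ => map_pow u _ _
    rw [e1, e1]
    exact congrArg _ (funext hfg)
  exact AlgHom.ext fun z => LinearMap.congr_fun h1 z

end

/-- One direction. -/
private theorem CA_hom {K : Type} [Field K] {p r : ℕ} [Fact p.Prime] {N N' : Type} [Field N]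
    [Algebra K N] [FiniteDimensional K N] [Field N'] [Algebra K N'] {d d' : Fin r → K}
    {y : Fin r → N} {y' : Fin r → N'} (hy : Kx p d y) (hy' : ∀ i, y' i ^ p = algebraMap K N' (d' i))
    {L : Type} [Field L] [Algebra K L] (c : Fin r → L)
    (hd : ∀ i, algebraMap K L (d i) = c i ^ p * algebraMap K L (d' i)) :
    ∃ F : L ⊗[K] N →ₐ[L] L ⊗[K] N', ∀ i, F (1 ⊗ₜ[K] y i) = c i ⊗ₜ[K] y' i := by
  obtain ⟨f, hf⟩ := CA_lift hy (B := L ⊗[K] N') (fun i => c i ⊗ₜ[K] y' i) (fun i => by
    rw [Algebra.TensorProduct.tmul_pow, hy', Algebra.TensorProduct.algebraMap_apply, hd,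
      Algebra.algebraMap_eq_smul_one, TensorProduct.tmul_smul, TensorProduct.smul_tmul',
      Algebra.smul_def, mul_comm])
  refine ⟨Algebra.TensorProduct.lift (Algebra.ofId L _) f fun _ _ => Commute.all _ _, fun i => ?_⟩
  rw [Algebra.TensorProduct.lift_tmul, map_one, one_mul, hf]

private theorem CA_comp {K : Type} [Field K] {p r : ℕ} [Fact p.Prime] {N N' : Type} [Field N]
    [Algebra K N] [FiniteDimensional K N] [Field N'] [Algebra K N'] {d : Fin r → K}
    {y : Fin r → N} {y' : Fin r → N'} (hy : Kx p d y)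
    {L : Type} [Field L] [Algebra K L] {c c' : Fin r → L} (hc : ∀ i, c i * c' i = 1)
    {F : L ⊗[K] N →ₐ[L] L ⊗[K] N'} {G : L ⊗[K] N' →ₐ[L] L ⊗[K] N}
    (hF : ∀ i, F (1 ⊗ₜ[K] y i) = c i ⊗ₜ[K] y' i) (hG : ∀ i, G (1 ⊗ₜ[K] y' i) = c' i ⊗ₜ[K] y i) :
    G.comp F = AlgHom.id L (L ⊗[K] N) := by
  have h1 : ((G.comp F).restrictScalars K).comp Algebra.TensorProduct.includeRight =
      (Algebra.TensorProduct.includeRight : N →ₐ[K] L ⊗[K] N) := by
    refine CA_ext hy fun i => ?_
    show G (F (1 ⊗ₜ[K] y i)) = 1 ⊗ₜ[K] y i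
    have e1 : (c i ⊗ₜ[K] y' i : L ⊗[K] N') = c i • (1 ⊗ₜ[K] y' i) := by
      rw [TensorProduct.smul_tmul', smul_eq_mul, mul_one]
    rw [hF, e1, map_smul, hG, TensorProduct.smul_tmul', smul_eq_mul, hc]
  refine AlgHom.ext fun z => ?_
  induction z using TensorProduct.induction_on with
  | zero => rw [map_zero, map_zero]
  | tmul l n =>
    have e1 : (l ⊗ₜ[K] n : L ⊗[K] N) = l • (1 ⊗ₜ[K] n) := by
      rw [TensorProduct.smul_tmul', smul_eq_mul, mul_one]
    rw [e1, map_smul, map_smul]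
    exact congrArg (l • ·) (AlgHom.congr_fun h1 n)
  | add a b ha hb => rw [map_add, map_add, ha, hb]

/-- **The algebras `L ⊗ N` and `L ⊗ N'` are isomorphic** if the `d_i / d'_i` are `p`-th powers in `L`. -/
theorem ca_iso {K : Type} [Field K] {p r : ℕ} [Fact p.Prime] {N N' : Type} [Field N] [Algebra K N]
    [FiniteDimensional K N] [Field N'] [Algebra K N'] [FiniteDimensional K N'] {d d' : Fin r → K}
    {y : Fin r → N} {y' : Fin r → N'} (hy : Kum p d y) (hy' : Kum p d' y')
    (hN : Module.finrank K N = p ^ r) (hN' : Module.finrank K N' = p ^ r) {L : Type} [Field L]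
    [Algebra K L] (c : Fin r → L) (hc : ∀ i, c i ≠ 0)
    (hd : ∀ i, algebraMap K L (d i) = c i ^ p * algebraMap K L (d' i)) :
    Nonempty (L ⊗[K] N ≃ₐ[L] L ⊗[K] N') := by
  have k1 : Kx p d y := ⟨hy.pow, hy.top, hN⟩
  have k2 : Kx p d' y' := ⟨hy'.pow, hy'.top, hN'⟩
  obtain ⟨F, hF⟩ := CA_hom k1 hy'.pow c hd
  obtain ⟨G, hG⟩ := CA_hom k2 hy.pow (fun i => (c i)⁻¹) (fun i => by
    rw [hd, ← mul_assoc, ← mul_pow, inv_mul_cancel₀ (hc i), one_pow, one_mul])
  exact ⟨AlgEquiv.ofAlgHom F G (CA_comp k2 (fun i => inv_mul_cancel₀ (hc i)) hG hF)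
    (CA_comp k1 (fun i => mul_inv_cancel₀ (hc i)) hF hG)⟩

end Pool.Agent.Lib.MP_1a91b9_ntDF
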