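import Pool.Agent.Lib.MP_1a91b9_ntDF.D0

/-!
# MP_1a91b9_nt (the discriminant form): local conditions at `p`, the completions

Elements without `p`-th powers which are congruent modulo `p ^ (p + 2)` differ by a `p`-th power in the completions
above `p`: `(1 + p s) ^ p = 1 + p ^ 2 t` has a solution `s` if `|t| < 1` (fixed point).
-/

set_option autoImplicit false

namespace Pool.Agent.Lib.MP_1a91b9_ntDF

open WithZero NumberField IsDedekindDomain

private theorem CH_nonarch {K : Type} [Field K] [NumberField K] (v : HeightOneSpectrum (𝓞 K)) :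
    NonarchimedeanAddGroup (v.adicCompletion K) where
  is_nonarchimedean U hU := by
    obtain ⟨γ, hγ⟩ := Valued.mem_nhds_zero.mp hU
    exact ⟨⟨(Valued.v.restrict).ltAddSubgroup γ, Valued.isOpen_ball _ _⟩, hγ⟩

private theorem CH_nhds {K : Type} [Field K] [NumberField K] (v : HeightOneSpectrum (𝓞 K))
    {U : Set (v.adicCompletion K)} (hU : U ∈ nhds (0 : v.adicCompletion K)) :
    ∃ k : ℤ, ∀ x : v.adicCompletion K, Valued.v x < exp k → x ∈ U := by
  obtain ⟨γ, hγ⟩ := Valued.mem_nhds_zero.mp hU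
  have h0 : MonoidWithZeroHom.ValueGroup₀.embedding (γ : MonoidWithZeroHom.ValueGroup₀
      (.ofClass (Valued.v (R := v.adicCompletion K)))) ≠ 0 := by
    rw [Ne, map_eq_zero]
    exact γ.ne_zero
  refine ⟨log (MonoidWithZeroHom.ValueGroup₀.embedding (γ : MonoidWithZeroHom.ValueGroup₀
      (.ofClass (Valued.v (R := v.adicCompletion K))))), fun x hx => hγ ?_⟩
  rw [exp_log h0] at hx
  exact (Valuation.restrict_lt_iff_lt_embedding _).mpr hx

private theorem CH_le (a : ℤᵐ⁰) (h : a < 1) : a ≤ exp (-1 : ℤ) := by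
  rcases eq_or_ne a 0 with rfl | h0
  · exact zero_le
  · rw [← exp_log h0] at h ⊢
    rw [← exp_zero, exp_lt_exp] at h
    rw [exp_le_exp]
    omega

/-- A contraction of the maximal ideal has a fixed point. -/
private theorem CH_fix {K : Type} [Field K] [NumberField K] (v : HeightOneSpectrum (𝓞 K))
    {Φ : v.adicCompletion K → v.adicCompletion K} (hΦc : Continuous Φ)
    (h1 : ∀ x, Valued.v x < 1 → Valued.v (Φ x) < 1)
    (h2 : ∀ x y, Valued.v x < 1 → Valued.v y < 1 →
      Valued.v (Φ x - Φ y) ≤ exp (-1 : ℤ) * Valued.v (x - y)) : ∃ m, Φ m = m := by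
  have := CH_nonarch v
  let X : ℕ → v.adicCompletion K := fun n => Φ^[n] 0
  have hXs : ∀ n, X (n + 1) = Φ (X n) := fun n => Function.iterate_succ_apply' Φ n 0
  have hX1 : ∀ n, Valued.v (X n) < 1 := by
    intro n
    induction n with
    | zero =>
      show Valued.v (0 : v.adicCompletion K) < 1
      rw [map_zero]
      exact zero_lt_one
    | succ n ih =>
      rw [hXs]
      exact h1 _ ih
  have hX2 : ∀ n : ℕ, Valued.v (X (n + 1) - X n) ≤ exp (-(n : ℤ)) := by
    intro n
    induction n with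
    | zero =>
      rw [Nat.cast_zero, neg_zero, exp_zero]
      exact (Valuation.map_sub_lt _ (hX1 _) (hX1 _)).le
    | succ n ih =>
      have h := h2 (X (n + 1)) (X n) (hX1 _) (hX1 _)
      have h' : Valued.v (X (n + 1 + 1) - X (n + 1)) ≤
          exp (-1 : ℤ) * Valued.v (X (n + 1) - X n) := by
        rw [hXs (n + 1)]
        nth_rewrite 2 [hXs n]
        exact h
      refine h'.trans ?_
      refine (mul_le_mul_right ih _).trans ?_
      rw [← exp_add, exp_le_exp]
      push_cast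
      omega
  have hT : Filter.Tendsto (fun n => X (n + 1) - X n) Filter.atTop (nhds 0) := by
    intro U hU
    obtain ⟨k, hk⟩ := CH_nhds v hU
    rw [Filter.mem_map, Filter.mem_atTop_sets]
    refine ⟨(-k + 1).toNat, fun n hn => hk _ ((hX2 n).trans_lt ?_)⟩
    rw [exp_lt_exp]
    omega
  have hCau : CauchySeq X := NonarchimedeanAddGroup.cauchySeq_of_tendsto_sub_nhds_zero hT
  obtain ⟨m, hm⟩ := cauchySeq_tendsto_of_complete hCau
  refine ⟨m, ?_⟩
  have h3 : Filter.Tendsto (fun n => X (n + 1)) Filter.atTop (nhds m) :=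
    hm.comp (Filter.tendsto_add_atTop_nat 1)
  have h4 : Filter.Tendsto (fun n => Φ (X n)) Filter.atTop (nhds (Φ m)) :=
    (hΦc.tendsto m).comp hm
  refine tendsto_nhds_unique ?_ h3
  simp only [hXs]
  exact h4

private theorem CH_step {K : Type} [Field K] [NumberField K] (v : HeightOneSpectrum (𝓞 K))
    {x y : v.adicCompletion K} (hx : Valued.v x < 1) (hy : Valued.v y < 1) (n : ℕ) :
    Valued.v (x ^ (n + 2) - y ^ (n + 2)) ≤ exp (-1 : ℤ) * Valued.v (x - y) := by
  induction n with
  | zero =>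
    have e : x ^ (0 + 2) - y ^ (0 + 2) = (x + y) * (x - y) := by ring
    rw [e, map_mul]
    exact mul_le_mul_left (CH_le _ (Valuation.map_add_lt _ hx hy)) _
  | succ n ih =>
    have e : x ^ (n + 1 + 2) - y ^ (n + 1 + 2) =
        x * (x ^ (n + 2) - y ^ (n + 2)) + y ^ (n + 2) * (x - y) := by ring
    rw [e]
    refine Valuation.map_add_le _ ?_ ?_
    · rw [map_mul]
      calc Valued.v x * Valued.v (x ^ (n + 2) - y ^ (n + 2)) ≤
            1 * Valued.v (x ^ (n + 2) - y ^ (n + 2)) := mul_le_mul_left hx.le _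
        _ = Valued.v (x ^ (n + 2) - y ^ (n + 2)) := one_mul _
        _ ≤ _ := ih
    · rw [map_mul]
      refine mul_le_mul_left (CH_le _ ?_) _
      rw [map_pow]
      exact pow_lt_one' hy (by omega)

private theorem CH_nat {K : Type} [Field K] [NumberField K] (v : HeightOneSpectrum (𝓞 K)) (n : ℕ) :
    Valued.v (n : v.adicCompletion K) ≤ 1 := by
  have h5 : v.valuation K (n : K) ≤ 1 := by
    have h5 := HeightOneSpectrum.valuation_le_one (K := K) v (n : 𝓞 K)
    have h6 : algebraMap (𝓞 K) K n = n := map_natCast _ n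
    exact h6 ▸ h5
  have h7 : Valued.v (algebraMap K (v.adicCompletion K) n) = v.valuation K (n : K) :=
    HeightOneSpectrum.valuedAdicCompletion_eq_valuation' v _
  rw [map_natCast] at h7
  rw [h7]
  exact h5

/-- `1 + p ^ 2 t` is a `p`-th power if `|t| < 1`. -/
private theorem CH_pow {K : Type} [Field K] [NumberField K] (v : HeightOneSpectrum (𝓞 K)) (q : ℕ)
    {t : v.adicCompletion K} (ht : Valued.v t < 1) :
    ∃ c : v.adicCompletion K,
      c ^ (q + 1) = 1 + ((q + 1 : ℕ) : v.adicCompletion K) ^ 2 * t := by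
  obtain ⟨a, ha⟩ : ∃ a : ℕ → v.adicCompletion K, ∀ k, a k =
      ((q + 1).choose (k + 2) : v.adicCompletion K) * ((q + 1 : ℕ) : v.adicCompletion K) ^ k :=
    ⟨_, fun _ => rfl⟩
  have ha1 : ∀ k, Valued.v (a k) ≤ 1 := by
    intro k
    rw [ha, map_mul, map_pow]
    exact mul_le_one' (CH_nat v _) (pow_le_one' (CH_nat v _) k)
  have g1 : ∀ x : v.adicCompletion K, Valued.v x < 1 →
      Valued.v (t - ∑ k ∈ Finset.range q, a k * x ^ (k + 2)) < 1 := by
    intro x hx
    refine Valuation.map_sub_lt _ ht ?_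
    refine Valuation.map_sum_lt _ one_ne_zero fun k _ => ?_
    rw [map_mul, map_pow, mul_comm]
    exact mul_lt_one_of_lt_of_le (pow_lt_one' hx (by omega)) (ha1 k)
  have g2 : ∀ x y : v.adicCompletion K, Valued.v x < 1 → Valued.v y < 1 →
      Valued.v ((t - ∑ k ∈ Finset.range q, a k * x ^ (k + 2)) -
        (t - ∑ k ∈ Finset.range q, a k * y ^ (k + 2))) ≤ exp (-1 : ℤ) * Valued.v (x - y) := by
    intro x y hx hy
    have e : (t - ∑ k ∈ Finset.range q, a k * x ^ (k + 2)) -
        (t - ∑ k ∈ Finset.range q, a k * y ^ (k + 2)) =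
        -∑ k ∈ Finset.range q, a k * (x ^ (k + 2) - y ^ (k + 2)) := by
      simp only [mul_sub, Finset.sum_sub_distrib]
      ring
    rw [e, Valuation.map_neg]
    refine Valuation.map_sum_le _ fun k _ => ?_
    rw [map_mul]
    calc Valued.v (a k) * Valued.v (x ^ (k + 2) - y ^ (k + 2)) ≤
          1 * Valued.v (x ^ (k + 2) - y ^ (k + 2)) := mul_le_mul_left (ha1 k) _
      _ = Valued.v (x ^ (k + 2) - y ^ (k + 2)) := one_mul _
      _ ≤ _ := CH_step v hx hy k
  obtain ⟨s, hs⟩ := CH_fix v (Φ := fun x => t - ∑ k ∈ Finset.range q, a k * x ^ (k + 2))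
    (by fun_prop) g1 g2
  refine ⟨((q + 1 : ℕ) : v.adicCompletion K) * s + 1, ?_⟩
  have hs' : s + ∑ k ∈ Finset.range q, a k * s ^ (k + 2) = t := by
    have h1 : t - ∑ k ∈ Finset.range q, a k * s ^ (k + 2) = s := hs
    linear_combination -h1
  rw [add_pow, Finset.sum_range_succ', Finset.sum_range_succ', ← hs', mul_add, Finset.mul_sum]
  have e : ∀ k ∈ Finset.range q, (((q + 1 : ℕ) : v.adicCompletion K) * s) ^ (k + 1 + 1) *
      1 ^ (q + 1 - (k + 1 + 1)) * ((q + 1).choose (k + 1 + 1) : v.adicCompletion K) =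
      ((q + 1 : ℕ) : v.adicCompletion K) ^ 2 * (a k * s ^ (k + 2)) := by
    intro k _
    rw [ha, one_pow]
    ring
  rw [Finset.sum_congr rfl e]
  simp only [zero_add, one_pow, mul_one, pow_zero, pow_one, Nat.choose_one_right,
    Nat.choose_zero_right, Nat.cast_one]
  ring

/-- **Congruent elements differ by a `p`-th power in the completions above `p`.** -/
theorem ch_hens {K : Type} [Field K] [NumberField K] [IsPrincipalIdealRing (𝓞 K)] (p : ℕ)
    [Fact p.Prime] : ∃ n₀ : ℕ, ∀ d d' : 𝓞 K, Pf p d → Pf p d' → (p : 𝓞 K) ^ n₀ ∣ d - d' →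
    ∀ v : HeightOneSpectrum (𝓞 K), (p : 𝓞 K) ∈ v.asIdeal → ∃ c : v.adicCompletion K, c ≠ 0 ∧
      algebraMap K (v.adicCompletion K) (d : K) =
        c ^ p * algebraMap K (v.adicCompletion K) (d' : K) := by
  have hp0 : p ≠ 0 := (Fact.out : p.Prime).ne_zero
  obtain ⟨q, hq⟩ : ∃ q, p = q + 1 := Nat.exists_eq_succ_of_ne_zero hp0
  refine ⟨p + 2, fun d d' hd hd' h v hv => ?_⟩
  have hne : ∀ x : 𝓞 K, Pf p x → x ≠ 0 := by
    rintro x hx rfl
    exact not_isUnit_zero (hx 0 (dvd_zero _))
  have hd0 := hne d hd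
  have hd'0 := hne d' hd'
  have hval : ∀ x : K, Valued.v (algebraMap K (v.adicCompletion K) x) = v.valuation K x :=
    fun x => HeightOneSpectrum.valuedAdicCompletion_eq_valuation' v x
  have hint : ∀ x : 𝓞 K, v.valuation K (x : K) = v.intValuation x :=
    fun x => v.valuation_of_algebraMap x
  have hpK : ((p : 𝓞 K) : K) = (p : K) := map_natCast (algebraMap (𝓞 K) K) p
  have hpK0 : (p : K) ≠ 0 := Nat.cast_ne_zero.2 hp0
  -- the valuation of `p`
  have hvp : v.valuation K (p : K) ≤ exp (-1 : ℤ) := by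
    rw [← hpK, hint]
    have h1 := (v.intValuation_le_pow_iff_mem (p : 𝓞 K) 1).2 (by rw [pow_one]; exact hv)
    exact_mod_cast h1
  -- the valuation of `d'`
  have hvd : exp (-(p : ℤ)) < v.valuation K (d' : K) := by
    rw [hint]
    by_contra h1
    have h2 := (v.intValuation_le_pow_iff_mem d' p).1 (not_lt.1 h1)
    obtain ⟨π, hπ⟩ := (IsPrincipalIdealRing.principal v.asIdeal).principal
    have hπ' : v.asIdeal = Ideal.span {π} := hπ
    rw [hπ', Ideal.span_singleton_pow, Ideal.mem_span_singleton] at h2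
    have h3 := hd' π h2
    exact v.isPrime.ne_top (by rw [hπ', Ideal.span_singleton_eq_top]; exact h3)
  have hvp3 : v.valuation K (p : K) ^ p < v.valuation K (d' : K) := by
    refine lt_of_le_of_lt ?_ hvd
    calc v.valuation K (p : K) ^ p ≤ exp (-1 : ℤ) ^ p := pow_le_pow_left₀ zero_le hvp p
      _ = exp (-(p : ℤ)) := by rw [← exp_nsmul]; simp
  obtain ⟨z, hz⟩ := h
  have hzK : (d : K) - (d' : K) = (p : K) ^ (p + 2) * (z : K) := by
    have h1 := congrArg (algebraMap (𝓞 K) K) hz
    rw [map_sub, map_mul, map_pow, map_natCast] at h1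
    exact h1
  have hz1 : v.valuation K (z : K) ≤ 1 := v.valuation_le_one z
  have hd'K : (d' : K) ≠ 0 := fun h => hd'0 (RingOfIntegers.ext h)
  have hdK : (d : K) ≠ 0 := fun h => hd0 (RingOfIntegers.ext h)
  obtain ⟨t, ht⟩ : ∃ t : K, t = (p : K) ^ p * (z : K) / (d' : K) := ⟨_, rfl⟩
  have ht1 : Valued.v (algebraMap K (v.adicCompletion K) t) < 1 := by
    rw [hval, ht, map_div₀, map_mul, map_pow]
    refine (div_lt_one₀ (lt_of_le_of_lt zero_le hvd)).2 (lt_of_le_of_lt ?_ hvp3)
    calc v.valuation K (p : K) ^ p * v.valuation K (z : K) ≤ v.valuation K (p : K) ^ p * 1 :=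
          mul_le_mul_right hz1 _
      _ = _ := mul_one _
  have hdt : (d : K) = (1 + (p : K) ^ 2 * t) * (d' : K) := by
    have h5 : t * (d' : K) = (p : K) ^ p * (z : K) := by
      rw [ht, div_mul_cancel₀ _ hd'K]
    linear_combination hzK - (p : K) ^ 2 * h5
  obtain ⟨c, hc⟩ := CH_pow v q ht1
  rw [← hq] at hc
  have e : algebraMap K (v.adicCompletion K) (d : K) =
      c ^ p * algebraMap K (v.adicCompletion K) (d' : K) := by
    rw [hc, hdt, map_mul, map_add, map_mul, map_pow, map_one, map_natCast]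
  refine ⟨c, ?_, e⟩
  rintro rfl
  rw [zero_pow hp0, zero_mul] at e
  exact hdK ((map_eq_zero (algebraMap K (v.adicCompletion K))).1 e)

end Pool.Agent.Lib.MP_1a91b9_ntDF
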