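import Pool.Agent.Lib.MP_1a91b9_ntDF.C1
import Pool.Agent.Lib.MP_1a91b9_ntDF.CA
import Pool.Agent.Lib.MP_1a91b9_ntDF.CH

/-!
# MP_1a91b9_nt (the elementary abelian extensions ordered by the discriminant): the local conditions
-/

set_option autoImplicit false

namespace Pool.Agent.Lib.MP_1a91b9_ntDF

open NumberField IsDedekindDomain

private theorem c2_ne {K : Type} [Field K] [NumberField K] {p : ℕ} {d : 𝓞 K}
    (hd : Pf p d) : d ≠ 0 := by
  rintro rfl
  exact not_isUnit_zero (hd 0 (dvd_zero _))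

open scoped TensorProduct in
/-- **The local conditions at `p`.** -/
theorem loc_bridge {K : Type} [Field K] [NumberField K] {p : ℕ} [Fact p.Prime] {ζ : K}
    (hζ : IsPrimitiveRoot ζ p) [IsPrincipalIdealRing (𝓞 K)] (r : ℕ)
    (C : Set (IntermediateField K (AlgebraicClosure K)))
    (hC : ∀ N N' : IntermediateField K (AlgebraicClosure K),
      (∀ v : HeightOneSpectrum (𝓞 K), (p : 𝓞 K) ∈ v.asIdeal →
        Nonempty (v.adicCompletion K ⊗[K] N ≃ₐ[v.adicCompletion K] v.adicCompletion K ⊗[K] N')) →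
      N ∈ C → N' ∈ C) :
    ∃ n₀ : ℕ, ∀ d d' : Fin r → 𝓞 K, (∀ i, Pf p (d i)) → (∀ i, Pf p (d' i)) →
      Module.finrank K (NK p (cK K d)) = p ^ r → Module.finrank K (NK p (cK K d')) = p ^ r →
      (∀ i, (p : 𝓞 K) ^ n₀ ∣ d i - d' i) → NK p (cK K d) ∈ C → NK p (cK K d') ∈ C := by
  obtain ⟨n₀, hn₀⟩ := ch_hens (K := K) p
  refine ⟨n₀, fun d d' hd hd' hr hr' hdd hN => hC _ _ (fun v hv => ?_) hN⟩
  obtain ⟨hfd, -, -, y, hy⟩ := nk_kum (K := K) hζ (d := cK K d)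
    (fun i h0 => c2_ne (hd i) (RingOfIntegers.ext h0))
  obtain ⟨hfd', -, -, y', hy'⟩ := nk_kum (K := K) hζ (d := cK K d')
    (fun i h0 => c2_ne (hd' i) (RingOfIntegers.ext h0))
  choose c hc0 hc using fun i => hn₀ (d i) (d' i) (hd i) (hd' i) (hdd i) v hv
  exact ca_iso hy hy' hr hr' c hc0 hc

end Pool.Agent.Lib.MP_1a91b9_ntDF
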