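import Pool.Agent.Lib.MP_1a91b9_ntDF.KA2

/-!
# MP_1a91b9_nt (the elementary abelian extensions ordered by the discriminant): the characters and the tuples
-/

set_option autoImplicit false

namespace Pool.Agent.Lib.MP_1a91b9_ntDF

open NumberField

/-- The tuples of characters with trivial common kernel. -/
abbrev a3_X (K : Type) [Field K] (G : Type) [Group G] (r : ℕ) : Type :=
  {χ : Fin r → (G →* Kˣ) // ∀ σ, (∀ i, χ i σ = 1) → σ = 1}

/-- The `p`-th powers of the units. -/
abbrev a3_U (R : Type) [CommRing R] (p : ℕ) : Type := {v : R // ∃ u : Rˣ, v = (u : R) ^ p}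

theorem a3_Xe {K : Type} [Field K] {G G' : Type} [Group G] [Group G'] (r : ℕ) (e : G ≃* G') :
    Nonempty (a3_X K G r ≃ a3_X K G' r) := by
  refine ⟨⟨fun χ => ⟨fun i => (χ.1 i).comp e.symm.toMonoidHom, ?_⟩,
    fun χ => ⟨fun i => (χ.1 i).comp e.toMonoidHom, ?_⟩, ?_, ?_⟩⟩
  · intro σ hσ
    have h := χ.2 (e.symm σ) hσ
    have h2 := congrArg e h
    rwa [e.apply_symm_apply, map_one] at h2
  · intro σ hσ
    have h := χ.2 (e σ) hσ
    have h2 := congrArg e.symm h
    rwa [e.symm_apply_apply, map_one] at h2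
  · intro χ
    apply Subtype.ext
    funext i
    ext σ
    simp
  · intro χ
    apply Subtype.ext
    funext i
    ext σ
    simp

theorem a3_Xfin {K : Type} [Field K] {p r : ℕ} (hp : 0 < p) :
    Finite (a3_X K (Multiplicative (Fin r → ZMod p)) r) := by
  have : NeZero p := ⟨hp.ne'⟩
  have hpow : ∀ (χ : Multiplicative (Fin r → ZMod p) →* Kˣ) g, χ g ^ p = 1 := by
    intro χ g
    rw [← map_pow]
    have h : g ^ p = 1 := by
      apply Multiplicative.toAdd.injective
      rw [toAdd_pow, toAdd_one]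
      funext i
      simp
    rw [h, map_one]
  let f : a3_X K (Multiplicative (Fin r → ZMod p)) r →
      (Fin r → Multiplicative (Fin r → ZMod p) → rootsOfUnity p K) :=
    fun χ i g => ⟨χ.1 i g, (mem_rootsOfUnity p _).2 (hpow _ g)⟩
  have hf : Function.Injective f := by
    intro χ χ' h
    apply Subtype.ext
    funext i
    refine MonoidHom.ext fun g => Units.ext ?_
    have h1 := congrFun (congrFun h i) g
    have h2 := congrArg (fun z : rootsOfUnity p K => ((z : Kˣ) : K)) h1
    exact h2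
  exact Finite.of_injective f hf

theorem a3_Xne {K : Type} [Field K] {p r : ℕ} (hp : 0 < p) {ζ : K} (hζ : IsPrimitiveRoot ζ p) :
    Nonempty (a3_X K (Multiplicative (Fin r → ZMod p)) r) := by
  have : NeZero p := ⟨hp.ne'⟩
  have hζu : IsPrimitiveRoot (Units.mk0 ζ (hζ.ne_zero hp.ne')) p := by
    rw [← IsPrimitiveRoot.coe_units_iff]
    exact hζ
  refine ⟨⟨fun i => ⟨⟨fun g => ((Additive.toMul (hζu.zmodEquivZPowers (Multiplicative.toAdd g i)) :
    Subgroup.zpowers _) : Kˣ), ?_⟩, ?_⟩, ?_⟩⟩
  · simp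
  · intro x y
    simp
  · intro σ hσ
    apply Multiplicative.toAdd.injective
    rw [toAdd_one]
    funext i
    have h := hσ i
    have h1 : (Additive.toMul (hζu.zmodEquivZPowers (Multiplicative.toAdd σ i)) :
        Subgroup.zpowers (Units.mk0 ζ (hζ.ne_zero hp.ne'))) = 1 := by
      apply Subtype.ext
      exact h
    have h2 : hζu.zmodEquivZPowers (Multiplicative.toAdd σ i) = 0 := by
      apply Additive.toMul.injective
      rw [h1]
      rfl
    rw [← map_zero hζu.zmodEquivZPowers] at h2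
    exact hζu.zmodEquivZPowers.injective h2

theorem a3_grp {K : Type} [Field K] [CharZero K] {p r : ℕ} {ζ : K} (hζ : IsPrimitiveRoot ζ p)
    (hp : 0 < p) {a : Fin r → K} (ha : ∀ i, a i ≠ 0) (hr : Module.finrank K (NK p a) = p ^ r) :
    NK p a ∈ Ext K p r := by
  have : NeZero p := ⟨hp.ne'⟩
  have hgal : IsGalois K (NK p a) := a2_normal
  have hfd : FiniteDimensional K (NK p a) := by
    apply Module.finite_of_finrank_pos
    rw [hr]
    exact pow_pos hp r
  refine ⟨hgal, ?_⟩
  obtain ⟨χ, -, hχ, hker⟩ := a2_char hζ hp ha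
  have hζu : IsPrimitiveRoot (Units.mk0 ζ (hζ.ne_zero hp.ne')) p := by
    rw [← IsPrimitiveRoot.coe_units_iff]
    exact hζ
  have hmem : ∀ i σ, χ i σ ∈ Subgroup.zpowers (Units.mk0 ζ (hζ.ne_zero hp.ne')) := by
    intro i σ
    rw [hζu.zpowers_eq, mem_rootsOfUnity]
    exact hχ i σ
  let φ : (NK p a ≃ₐ[K] NK p a) →* Multiplicative (Fin r → ZMod p) :=
    { toFun := fun σ => Multiplicative.ofAdd fun i =>
        hζu.zmodEquivZPowers.symm (Additive.ofMul ⟨χ i σ, hmem i σ⟩)
      map_one' := by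
        apply Multiplicative.toAdd.injective
        rw [toAdd_ofAdd, toAdd_one]
        funext i
        have h1 : (⟨χ i 1, hmem i 1⟩ : Subgroup.zpowers (Units.mk0 ζ (hζ.ne_zero hp.ne'))) = 1 := by
          apply Subtype.ext
          exact map_one _
        rw [h1, ofMul_one, map_zero]
        rfl
      map_mul' := by
        intro σ τ
        apply Multiplicative.toAdd.injective
        rw [toAdd_mul, toAdd_ofAdd, toAdd_ofAdd, toAdd_ofAdd]
        funext i
        have h1 : (⟨χ i (σ * τ), hmem i (σ * τ)⟩ :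
            Subgroup.zpowers (Units.mk0 ζ (hζ.ne_zero hp.ne'))) =
            ⟨χ i σ, hmem i σ⟩ * ⟨χ i τ, hmem i τ⟩ := by
          apply Subtype.ext
          exact map_mul _ _ _
        rw [h1, ofMul_mul, map_add]
        rfl }
  have hinj : Function.Injective φ := by
    rw [injective_iff_map_eq_one]
    intro σ hσ
    apply hker
    intro i
    have h1 := congrFun (congrArg Multiplicative.toAdd hσ) i
    have h2 : hζu.zmodEquivZPowers.symm (Additive.ofMul ⟨χ i σ, hmem i σ⟩) = 0 := h1
    rw [← map_zero hζu.zmodEquivZPowers.symm] at h2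
    have h3 := hζu.zmodEquivZPowers.symm.injective h2
    have h4 := congrArg (fun z => ((Additive.toMul z :
      Subgroup.zpowers (Units.mk0 ζ (hζ.ne_zero hp.ne'))) : Kˣ)) h3
    exact h4
  have hcard : Nat.card (NK p a ≃ₐ[K] NK p a) = Nat.card (Multiplicative (Fin r → ZMod p)) := by
    rw [IsGalois.card_aut_eq_finrank, hr]
    have h1 : Nat.card (Multiplicative (Fin r → ZMod p)) = Nat.card (Fin r → ZMod p) :=
      Nat.card_congr Multiplicative.toAdd
    rw [h1, Nat.card_fun, Nat.card_zmod, Nat.card_fin]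
  exact ⟨MulEquiv.ofBijective φ ((Nat.bijective_iff_injective_and_card φ).2 ⟨hinj, hcard⟩)⟩

theorem a3_deg {K : Type} [Field K] {p r : ℕ} [NeZero p] {N : IntermediateField K (AlgebraicClosure K)}
    (hN : N ∈ Ext K p r) : FiniteDimensional K N ∧ Module.finrank K N = p ^ r := by
  obtain ⟨hg, ⟨e⟩⟩ := hN
  have hfin : Finite (N ≃ₐ[K] N) := Finite.of_equiv _ e.symm.toEquiv
  have hfd : FiniteDimensional K N := IsGalois.finiteDimensional_of_finite K N
  refine ⟨hfd, ?_⟩
  rw [← IsGalois.card_aut_eq_finrank, Nat.card_congr e.toEquiv]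
  have h1 : Nat.card (Multiplicative (Fin r → ZMod p)) = Nat.card (Fin r → ZMod p) :=
    Nat.card_congr Multiplicative.toAdd
  rw [h1, Nat.card_fun, Nat.card_zmod, Nat.card_fin]

end Pool.Agent.Lib.MP_1a91b9_ntDF
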