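import Pool.Agent.Lib.MP_1a91b9_ntDF.D0
import Pool.Agent.Lib.MP_1a91b9_ntDF.KA3

/-!
# MP_1a91b9_nt (the elementary abelian extensions ordered by the discriminant): the fields and the tuples
-/

set_option autoImplicit false

namespace Pool.Agent.Lib.MP_1a91b9_ntDF

open NumberField

private theorem CF_fib (K : Type) [Field K] [NumberField K] {p : ℕ} (hp : 0 < p) {ζ : K}
    (hζ : IsPrimitiveRoot ζ p) [IsPrincipalIdealRing (𝓞 K)] (r : ℕ)
    (N : IntermediateField K (AlgebraicClosure K)) (hN : N ∈ Ext K p r) :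
    Nonempty ((a3_X K (N ≃ₐ[K] N) r × (Fin r → a3_U (𝓞 K) p)) ≃
      {d : Fin r → 𝓞 K // (∀ i, Pf p (d i)) ∧ NK p (cK K d) = N}) := by
  have hne : NeZero p := ⟨hp.ne'⟩
  obtain ⟨hfd, hdeg⟩ := a3_deg hN
  obtain ⟨hg, ⟨e⟩⟩ := hN
  have hpow : ∀ (χ : (N ≃ₐ[K] N) →* Kˣ) g, χ g ^ p = 1 := by
    intro χ g
    rw [← map_pow]
    have h : g ^ p = 1 := by
      apply e.injective
      rw [map_pow, map_one]
      apply Multiplicative.toAdd.injective
      rw [toAdd_pow, toAdd_one]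
      funext i
      simp
    rw [h, map_one]
  have hbase : ∀ χ : (N ≃ₐ[K] N) →* Kˣ, ∃ c : 𝓞 K, Pf p c ∧ a_Rel p χ (c : K) := by
    intro χ
    obtain ⟨a, ha, hR⟩ := a1_exists χ (hpow χ)
    obtain ⟨b, c, hb, hbc, hc⟩ := a1_pfK (R := 𝓞 K) hp a ha
    refine ⟨c, hc, ?_⟩
    have h1 := a1_mul hR (inv_ne_zero hb)
    rw [hbc, ← mul_assoc, ← mul_pow, inv_mul_cancel₀ hb, one_pow, one_mul] at h1
    exact h1
  choose base hb1 hb2 using hbase
  have hcK : ∀ (d : Fin r → 𝓞 K) i, cK K d i = algebraMap (𝓞 K) K (d i) := fun _ _ => rfl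
  let f : (a3_X K (N ≃ₐ[K] N) r × (Fin r → a3_U (𝓞 K) p)) →
      {d : Fin r → 𝓞 K // (∀ i, Pf p (d i)) ∧ NK p (cK K d) = N} := fun z =>
    ⟨fun i => (z.2 i).1 * base (z.1.1 i), by
      refine ⟨fun i => ?_, ?_⟩
      · obtain ⟨u, hu⟩ := (z.2 i).2
        show Pf p ((z.2 i).1 * base (z.1.1 i))
        rw [hu]
        exact a1_pfu (hb1 _) u
      · refine a2_iff hζ hp N z.1.1 (fun i => ?_) z.1.2
        obtain ⟨u, hu⟩ := (z.2 i).2
        rw [hcK, hu, map_mul, map_pow]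
        refine a1_mul (hb2 _) ?_
        rw [Ne, ← map_zero (algebraMap (𝓞 K) K)]
        exact fun h => u.ne_zero (IsFractionRing.injective (𝓞 K) K h)⟩
  have hf : Function.Bijective f := by
    constructor
    · rintro ⟨χ, v⟩ ⟨χ', v'⟩ h
      have h1 : ∀ i, (v i).1 * base (χ.1 i) = (v' i).1 * base (χ'.1 i) := fun i =>
        congrFun (congrArg Subtype.val h) i
      have h2 : ∀ i, χ.1 i = χ'.1 i := by
        intro i
        have h3 : a_Rel p (χ.1 i) (((v i).1 * base (χ.1 i) : 𝓞 K) : K) := by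
          obtain ⟨u, hu⟩ := (v i).2
          rw [hu]
          show a_Rel p (χ.1 i) (algebraMap (𝓞 K) K _)
          rw [map_mul, map_pow]
          refine a1_mul (hb2 _) ?_
          rw [Ne, ← map_zero (algebraMap (𝓞 K) K)]
          exact fun h => u.ne_zero (IsFractionRing.injective (𝓞 K) K h)
        have h4 : a_Rel p (χ'.1 i) (((v' i).1 * base (χ'.1 i) : 𝓞 K) : K) := by
          obtain ⟨u, hu⟩ := (v' i).2
          rw [hu]
          show a_Rel p (χ'.1 i) (algebraMap (𝓞 K) K _)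
          rw [map_mul, map_pow]
          refine a1_mul (hb2 _) ?_
          rw [Ne, ← map_zero (algebraMap (𝓞 K) K)]
          exact fun h => u.ne_zero (IsFractionRing.injective (𝓞 K) K h)
        rw [← h1 i] at h4
        exact a1_uniq hζ hp h3 h4
      have h5 : χ = χ' := Subtype.ext (funext h2)
      subst h5
      refine Prod.ext rfl (funext fun i => Subtype.ext ?_)
      exact mul_right_cancel₀ (a1_pf0 (hb1 _)) (h1 i)
    · rintro ⟨d, hd, hdN⟩
      have hd0 : ∀ i, cK K d i ≠ 0 := by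
        intro i
        rw [hcK, Ne, ← map_zero (algebraMap (𝓞 K) K)]
        exact fun h => a1_pf0 (hd i) (IsFractionRing.injective (𝓞 K) K h)
      have hchar := a2_char hζ hp hd0
      rw [hdN] at hchar
      obtain ⟨χ, hR, -, hker⟩ := hchar
      have h6 : ∀ i, ∃ u : (𝓞 K)ˣ, d i = (u : 𝓞 K) ^ p * base (χ i) := by
        intro i
        obtain ⟨c, hc, h7⟩ := a1_same (hb2 (χ i)) (hR i)
        exact a1_unit (K := K) (hb1 (χ i)) (hd i) h7
      choose u hu using h6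
      refine ⟨⟨⟨χ, hker⟩, fun i => ⟨(u i : 𝓞 K) ^ p, u i, rfl⟩⟩, ?_⟩
      apply Subtype.ext
      funext i
      exact (hu i).symm
  exact ⟨Equiv.ofBijective f hf⟩

/-- **The number of the tuples which give a field of the set is a constant times the number of the fields.** -/
theorem fib_count (K : Type) [Field K] [NumberField K] {p : ℕ} [Fact p.Prime] {ζ : K}
    (hζ : IsPrimitiveRoot ζ p) [IsPrincipalIdealRing (𝓞 K)] [Finite (𝓞 K)ˣ] (r : ℕ) :
    ∃ w : ℕ, 0 < w ∧ ∀ Q : IntermediateField K (AlgebraicClosure K) → Prop,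
      Nat.card {d : Fin r → 𝓞 K // (∀ i, Pf p (d i)) ∧
        Module.finrank K (NK p (cK K d)) = p ^ r ∧ Q (NK p (cK K d))} =
      w * Nat.card {N : IntermediateField K (AlgebraicClosure K) // N ∈ Ext K p r ∧ Q N} := by
  have hp : 0 < p := (Fact.out : p.Prime).pos
  have hne : NeZero p := ⟨hp.ne'⟩
  refine ⟨Nat.card (a3_X K (Multiplicative (Fin r → ZMod p)) r × (Fin r → a3_U (𝓞 K) p)), ?_, ?_⟩
  · have h1 : Finite (a3_X K (Multiplicative (Fin r → ZMod p)) r) := a3_Xfin hp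
    have h2 : Finite (a3_U (𝓞 K) p) := by
      let g : (𝓞 K)ˣ → a3_U (𝓞 K) p := fun u => ⟨(u : 𝓞 K) ^ p, u, rfl⟩
      refine Finite.of_surjective g ?_
      rintro ⟨v, u, hu⟩
      exact ⟨u, Subtype.ext hu.symm⟩
    have h3 : Nonempty (a3_X K (Multiplicative (Fin r → ZMod p)) r) := a3_Xne hp hζ
    have h4 : Nonempty (a3_U (𝓞 K) p) := ⟨⟨1, 1, by simp⟩⟩
    exact Nat.card_pos
  · intro Q
    have h1 : ∀ d : Fin r → 𝓞 K, (∀ i, Pf p (d i)) → Module.finrank K (NK p (cK K d)) = p ^ r →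
        NK p (cK K d) ∈ Ext K p r := by
      intro d hd hdeg
      refine a3_grp hζ hp (fun i => ?_) hdeg
      show algebraMap (𝓞 K) K (d i) ≠ 0
      rw [Ne, ← map_zero (algebraMap (𝓞 K) K)]
      exact fun h => a1_pf0 (hd i) (IsFractionRing.injective (𝓞 K) K h)
    let f : {d : Fin r → 𝓞 K // (∀ i, Pf p (d i)) ∧
        Module.finrank K (NK p (cK K d)) = p ^ r ∧ Q (NK p (cK K d))} →
        {N : IntermediateField K (AlgebraicClosure K) // N ∈ Ext K p r ∧ Q N} := fun d =>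
      ⟨NK p (cK K d.1), h1 d.1 d.2.1 d.2.2.1, d.2.2.2⟩
    have h2 : ∀ N : {N : IntermediateField K (AlgebraicClosure K) // N ∈ Ext K p r ∧ Q N},
        Nonempty ({x // f x = N} ≃
          (a3_X K (Multiplicative (Fin r → ZMod p)) r × (Fin r → a3_U (𝓞 K) p))) := by
      rintro ⟨N, hN, hQ⟩
      obtain ⟨E⟩ := CF_fib K hp hζ r N hN
      obtain ⟨e⟩ := hN.2
      obtain ⟨E2⟩ := a3_Xe (K := K) r e
      refine ⟨(Equiv.trans ?_ E.symm).trans (Equiv.prodCongr E2 (Equiv.refl _))⟩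
      refine ⟨fun x => ⟨x.1.1, x.1.2.1, congrArg Subtype.val x.2⟩,
        fun d => ⟨⟨d.1, d.2.1, ?_, ?_⟩, ?_⟩, fun x => rfl, fun d => rfl⟩
      · rw [d.2.2]
        exact (a3_deg hN).2
      · rw [d.2.2]
        exact hQ
      · exact Subtype.ext d.2.2
    have h3 := Nat.card_congr (((Equiv.sigmaFiberEquiv f).symm.trans
      (Equiv.sigmaCongrRight fun N => (h2 N).some)).trans (Equiv.sigmaEquivProd _ _))
    rw [h3, Nat.card_prod, mul_comm]

end Pool.Agent.Lib.MP_1a91b9_ntDF
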