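import Pool.Agent.Lib.MP_1a91b9_ntDF.D0
import Pool.Agent.Lib.MP_1a91b9_ntDV.T20

/-!
# MP_1a91b9_nt (the elementary abelian extensions ordered by the discriminant): the property of the fields
-/

set_option autoImplicit false

namespace Pool.Agent.Lib.MP_1a91b9_ntDF

open NumberField IsDedekindDomain Pool.Agent.Lib.MP_1a91b9_nuT.S9 Pool.Agent.Lib.MP_1a91b9_nuT3.S9

/-- The condition on the ramification of `L / F`, for the curve `V` over `F` and the prime number `q`. -/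
def RamOK (K : Type) [Field K] [NumberField K] {F : Type} [Field F] [NumberField F] [Algebra K F]
    (V : WeierstrassCurve F) (q : ℕ) (L : Type) [Field L] [NumberField L] [Algebra F L] : Prop :=
  ∀ (v : HeightOneSpectrum (𝓞 F)) (w : HeightOneSpectrum (𝓞 L)),
    v.asIdeal.map (algebraMap (𝓞 F) (𝓞 L)) ≤ w.asIdeal ^ 2 →
      ((q : 𝓞 F) ∈ v.asIdeal →
        Ideal.absNorm (v.asIdeal.comap (algebraMap (𝓞 K) (𝓞 F))) = q) ∧
      ((q : 𝓞 F) ∉ v.asIdeal → ∀ (V₀ : WeierstrassCurve (𝓞 F))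
        (C₀ : WeierstrassCurve.VariableChange F),
        C₀ • V = V₀.map (algebraMap (𝓞 F) F) → V₀.Δ ∉ v.asIdeal →
          ¬ q ∣ Nat.card (V₀.map (Ideal.Quotient.mk v.asIdeal)).toAffine.Point)

open Classical in
/-- The `q`-part of the conjecture in rank zero for the curve `W` over `N`, where all the terms are prime to
`q`. -/
def BSD0 (q : ℕ) [Fact q.Prime] {N : Type} [Field N] [NumberField N] (W : WeierstrassCurve N) : Prop :=
  ∃ g : ℂ → ℂ, Differentiable ℂ g ∧ (∀ s : ℂ, 3 / 2 < s.re → g s = W.LSeries s) ∧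
    g 1 ≠ 0 ∧
    (∃ r : ℚ, IsCoprime r.num (q : ℤ) ∧ r.den.Coprime q ∧
      g 1 * (√|(discr N : ℝ)| : ℝ) / (period W : ℝ) =
        (r * ((Nat.card (ShaP q W) : ℝ) * ((∏ᶠ v : HeightOneSpectrum (𝓞 N), tam W v : ℕ) : ℝ) /
          (Nat.card W.toAffine.Point : ℝ) ^ 2) : ℝ)) ∧
    Nat.card (ShaP q W) = 1 ∧ (∀ v : HeightOneSpectrum (𝓞 N), (tam W v).Coprime q) ∧
    Finite W.toAffine.Point ∧ (Nat.card W.toAffine.Point).Coprime q

open Classical in
/-- The `q`-part of the relative conjecture for the curves `W` over `L` and `W'` over `L'`. -/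
def RelBSD (q : ℕ) [Fact q.Prime] {L L' : Type} [Field L] [NumberField L] [Field L'] [NumberField L']
    [Algebra L L'] (W : WeierstrassCurve L) (W' : WeierstrassCurve L') : Prop :=
  (∃ g : ℂ → ℂ, Differentiable ℂ g ∧ g 1 ≠ 0 ∧
    (∀ s : ℂ, 3 / 2 < s.re → W'.LSeries s = W.LSeries s * g s) ∧
    ∃ r : ℚ, (IsCoprime r.num (q : ℤ) ∧ r.den.Coprime q) ∧
      g 1 * ((√|(discr L' : ℝ)| / period W' : ℝ) : ℂ) =
        (r : ℂ) * ((√|(discr L : ℝ)| / period W : ℝ) : ℂ)) ∧
  Module.finrank ℤ W'.toAffine.Point = Module.finrank ℤ W.toAffine.Point ∧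
  ((AddSubgroup.closure {P : W'.toAffine.Point | ∃ (x y : L)
    (h : W'.toAffine.Nonsingular (algebraMap L L' x) (algebraMap L L' y)),
    P = WeierstrassCurve.Affine.Point.some _ _ h}).index).Coprime q ∧
  (∀ v : HeightOneSpectrum (𝓞 L), (tam W v).Coprime q) ∧
  (∀ v : HeightOneSpectrum (𝓞 L'), (tam W' v).Coprime q) ∧
  Nonempty (ShaP q W' ≃+ ShaP q W)

/-- The twist of `E` by the `p`-th root of `e`, over `F`. -/
def tw (p : ℕ) {K : Type} [Field K] (E : WeierstrassCurve K) (F : Type) [Field F] [Algebra K F] (e : K) :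
    WeierstrassCurve F :=
  ⟨0, algebraMap K F (E.a₂ * e ^ (2 / p)), algebraMap K F (E.a₃ * e ^ (3 / p)),
    algebraMap K F (E.a₄ * e ^ (4 / p)), 0⟩

open Classical in
/-- The property (A) of `F' / F` for the curve `E` over `K`. -/
def NoNewPoints {K : Type} [Field K] (E : WeierstrassCurve K) (F F' : Type) [Field F] [Algebra K F]
    [Field F'] [NumberField F'] [Algebra F F'] : Prop :=
  (∀ x' y' : F', ((E.baseChange F).baseChange F').toAffine.Equation x' y' →
    ∃ x y : F, algebraMap F F' x = x' ∧ algebraMap F F' y = y') ∧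
  (Module.finrank K F = 1 →
    (E = ⟨0, 0, 3, 0, 0⟩ →
      (∃ h : ℂ → ℂ, Differentiable ℂ h ∧
        (∀ s : ℂ, 3 / 2 < s.re → h s = ((E.baseChange F).baseChange F').LSeries s) ∧ h 1 ≠ 0) ∧
      Finite ((E.baseChange F).baseChange F').toAffine.Point) ∧
    (E = ⟨0, 4, 0, 2, 0⟩ ∨ E.a₃ ^ 2 = -3 →
      (∃ h : ℂ → ℂ, Differentiable ℂ h ∧
        (∀ s : ℂ, 3 / 2 < s.re → h s = ((E.baseChange F).baseChange F').LSeries s) ∧
        analyticOrderAt h 1 = 2) ∧
      Module.finrank ℤ ((E.baseChange F).baseChange F').toAffine.Point = 2))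

/-- The property `R` of `e` in `K`. -/
def PropR (p : ℕ) {K : Type} [Field K] [NumberField K] (E : WeierstrassCurve K) (F : Type) [Field F]
    [NumberField F] [Algebra K F] (e : K) : Prop :=
  ∃ S : Finset ℕ, ∀ (q : ℕ) [Fact q.Prime], q ∉ S →
    ∀ (k : ℕ) (L M : Type) [Field L] [NumberField L] [Field M] [NumberField M]
      [Algebra F L] [Algebra L M] [Algebra F M] [IsScalarTower F L M] [IsGalois F M],
      Module.finrank F M = q ^ k → (∀ i, 0 < i → i < p → RamOK K (tw p E F (e ^ i)) q L) →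
    (∀ i, 0 < i → i < p → ∀ (N : Type) [Field N] [NumberField N] [Algebra N L]
      (W : WeierstrassCurve N) (C : WeierstrassCurve.VariableChange L),
      C • W.baseChange L = (tw p E F (e ^ i)).baseChange L → BSD0 q W) ∧
    ∀ (L' : Type) [Field L'] [NumberField L'] [Algebra L L'] (y : L'),
      y ^ p = algebraMap L L' (algebraMap F L (algebraMap K F e)) →
      IntermediateField.adjoin L {y} = ⊤ →
      RelBSD q ((E.baseChange F).baseChange L) (((E.baseChange F).baseChange L).baseChange L')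

/-- **The property `M` of the extension `N` of `K`**. -/
def PropM (p : ℕ) {K : Type} [Field K] [NumberField K] (E : WeierstrassCurve K) (F : Type) [Field F]
    [NumberField F] [Algebra K F] (N : Type) [Field N] [Algebra K N] : Prop :=
  ∀ (M : Type) [Field M] [NumberField M] [Algebra K M] [Algebra F M] [IsScalarTower K F M]
    [Algebra N M] [IsScalarTower K N M],
    IntermediateField.adjoin F (Set.range (algebraMap N M)) = ⊤ →
    Module.finrank F M = Module.finrank K N ∧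
    ∀ (F' : Type) [Field F'] [NumberField F'] [Algebra K F'] [Algebra F F'] [IsScalarTower K F F']
      [Algebra F' M] [IsScalarTower F F' M],
      NoNewPoints E F F' ∧
      (∃ g : ℂ → ℂ, Differentiable ℂ g ∧ g 1 ≠ 0 ∧ ∀ s : ℂ, 3 / 2 < s.re →
        (E.baseChange F').LSeries s = (E.baseChange F).LSeries s * g s) ∧
      (∀ (F'' : Type) [Field F''] [NumberField F''] [Algebra F F''] [Algebra F' F'']
        [IsScalarTower F F' F''] [Algebra F'' M] [IsScalarTower F' F'' M],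
        Module.finrank F' F'' ≠ 1 →
        ∃ S : Finset ℕ, ∀ (q : ℕ) [Fact q.Prime], q ∉ S →
          RelBSD q (E.baseChange F') ((E.baseChange F').baseChange F'')) ∧
      ∀ e : K, (∃ x : N, x ^ p = algebraMap K N e) → (¬ ∃ y : F', y ^ p = algebraMap K F' e) →
        PropR p E F' e

open Classical in
/-- The constant `c`. -/
noncomputable def cst (p : ℕ) (K F : Type) [Field K] [NumberField K] [Field F] : ℝ :=
  if p = 3 then ∏' i : ℕ, (1 + 1 / (3 : ℝ) ^ (i + 1))⁻¹ else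
  if Prime (2 : 𝓞 K) then (if ∃ x : F, x ^ 2 = -1 then
      √((∏' i : ℕ, (1 + 1 / (2 : ℝ) ^ (2 * i + 1))⁻¹) / 2) else
      ∏' i : ℕ, (1 + 1 / (2 : ℝ) ^ (2 * i + 1))⁻¹) else
    if Squarefree (2 : 𝓞 K) then ∏' i : ℕ, (1 - 1 / (2 : ℝ) ^ (i + 1)) else
    ∏' i : ℕ, (1 + 1 / (2 : ℝ) ^ (i + 1))⁻¹

/-- The standing hypotheses on `p`, `K`, `E` and `F`. -/
def Hyp (p : ℕ) (K : Type) [Field K] [NumberField K] (E : WeierstrassCurve K) (F : Type) [Field F]
    [NumberField F] [Algebra K F] : Prop :=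
  Module.finrank ℚ K = 2 ∧ E.Δ ≠ 0 ∧ E.a₁ = 0 ∧ E.a₆ = 0 ∧
  ((p = 2 ∧ E.a₃ = 0 ∧ (∃ j D : ℤ,
      (j, D) ∈ [(0, -3), (54000, -3), (-12288000, -3), (1728, -4), (287496, -4), (-3375, -7),
        (16581375, -7), (8000, -8), (-32768, -11), (-884736, -19), (-884736000, -43),
        (-147197952000, -67), (-262537412640768000, -163)] ∧
      E.c₄ ^ 3 = j * E.Δ ∧ ∃ s : K, s ^ 2 = D)) ∨
    (p = 3 ∧ E.a₂ = 0 ∧ E.a₄ = 0 ∧ ∃ s : K, s ^ 2 = -3)) ∧
  ∃ l : ℕ, (l = p ∨ p = 2 ∧ l = 4 ∧ ∃ i : K, i ^ 2 = -1) ∧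
    IntermediateField.adjoin K {x : F | ∃ c : K, x ^ l = algebraMap K F c} = ⊤

end Pool.Agent.Lib.MP_1a91b9_ntDF
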