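import Pool.Agent.Lib.MP_1a91b9_ntDF.DC
import Pool.Agent.Lib.MP_1a91b9_ntDF.D1
import Pool.Agent.Lib.MP_1a91b9_ntMQ.UW8

/-!
# MP_1a91b9_nt (the elementary abelian extensions ordered by the discriminant): the property, `p = 2`
-/

set_option autoImplicit false

namespace Pool.Agent.Lib.MP_1a91b9_ntDF

open NumberField

/-- The condition on the ramification depends only on the isomorphism class of the curve. -/
private theorem D2_ramOK {K : Type} [Field K] [NumberField K] {F : Type} [Field F] [NumberField F]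
    [Algebra K F] {V V' : WeierstrassCurve F} (C : WeierstrassCurve.VariableChange F) (hC : C • V = V')
    {q : ℕ} {L : Type} [Field L] [NumberField L] [Algebra F L] (h : RamOK K V q L) :
    Pool.Agent.Lib.MP_1a91b9_ntDV.Fin.RamOK K V' q L := by
  intro v w hvw
  obtain ⟨h1, h2⟩ := h v w hvw
  refine ⟨h1, fun hq V₀ C₀ hC₀ hΔ => h2 hq V₀ (C₀ * C) ?_ hΔ⟩
  rw [mul_smul, hC, hC₀]

private theorem D2_tw {K : Type} [Field K] (E : WeierstrassCurve K) (h3 : E.a₃ = 0) (F : Type) [Field F]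
    [Algebra K F] (D : K) :
    tw 2 E F D = ⟨0, algebraMap K F (E.a₂ * D), 0, algebraMap K F (E.a₄ * D ^ 2), 0⟩ := by
  unfold tw
  rw [h3, zero_mul, map_zero, show 2 / 2 = 1 from rfl, show 4 / 2 = 2 from rfl, pow_one]

/-- The twist by `z² D` is isomorphic to the twist by `D`. -/
private theorem D2_tw_smul {K : Type} [Field K] (E : WeierstrassCurve K) (h3 : E.a₃ = 0) (F : Type)
    [Field F] [Algebra K F] {D z : K} (hz : z ≠ 0) :
    ∃ C : WeierstrassCurve.VariableChange F, C • tw 2 E F (z ^ 2 * D) = tw 2 E F D := by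
  have hz' : algebraMap K F z ≠ 0 := (map_ne_zero _).2 hz
  refine ⟨⟨Units.mk0 _ hz', 0, 0, 0⟩, ?_⟩
  rw [D2_tw E h3, D2_tw E h3, WeierstrassCurve.variableChange_def]
  ext
  · simp
  · simp only [Units.val_inv_eq_inv_val, Units.val_mk0, map_mul, map_pow]
    field_simp
    ring
  · simp
  · simp only [Units.val_inv_eq_inv_val, Units.val_mk0, map_mul, map_pow]
    field_simp
    ring
  · simp

private theorem D2_adjoin_div {F F' : Type} [Field F] [Field F'] [Algebra F F'] {x : F'} {z : F}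
    (hz : z ≠ 0) (h : IntermediateField.adjoin F {x} = ⊤) :
    IntermediateField.adjoin F {x / algebraMap F F' z} = ⊤ := by
  rw [eq_top_iff, ← h, IntermediateField.adjoin_le_iff, Set.singleton_subset_iff]
  have h1 : x / algebraMap F F' z ∈ IntermediateField.adjoin F {x / algebraMap F F' z} :=
    IntermediateField.subset_adjoin F _ rfl
  have h2 := mul_mem h1 ((IntermediateField.adjoin F {x / algebraMap F F' z}).algebraMap_mem z)
  rwa [div_mul_cancel₀ _ ((map_ne_zero _).2 hz)] at h2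

/-- The property `R` of `z² D` from that of `D`. -/
private theorem D2_propR {K : Type} [Field K] [NumberField K] (E : WeierstrassCurve K) (h3 : E.a₃ = 0)
    (F : Type) [Field F] [NumberField F] [Algebra K F] {D z : K} (hz : z ≠ 0)
    (h : Pool.Agent.Lib.MP_1a91b9_ntDV.Fin.PropR E F D) : PropR 2 E F (z ^ 2 * D) := by
  have hzF : algebraMap K F z ≠ 0 := (map_ne_zero _).2 hz
  obtain ⟨C, hC⟩ := D2_tw_smul E h3 F (D := D) hz
  obtain ⟨-, h2⟩ := h
  obtain ⟨S, hS⟩ := h2 (tw 2 E F D) (D2_tw E h3 F D)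
  refine ⟨S, fun q _ hq k L M _ _ _ _ _ _ _ _ _ hM hram => ?_⟩
  have hr := hram 1 one_pos one_lt_two
  rw [pow_one] at hr
  obtain ⟨g1, g2⟩ := hS q hq k L M hM (D2_ramOK C hC hr)
  refine ⟨fun i hi0 hi2 N _ _ _ W C' hC' => ?_, fun L' _ _ _ y hy hgen => ?_⟩
  · obtain rfl : i = 1 := by omega
    rw [pow_one] at hC'
    refine g1 N W (C.map (algebraMap F L) * C') ?_
    rw [mul_smul, hC', ← hC]
    exact WeierstrassCurve.map_variableChange (tw 2 E F (z ^ 2 * D)) C (algebraMap F L)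
  · have hzL : algebraMap F L (algebraMap K F z) ≠ 0 := (map_ne_zero _).2 hzF
    have hzL' : algebraMap L L' (algebraMap F L (algebraMap K F z)) ^ 2 ≠ 0 :=
      pow_ne_zero _ ((map_ne_zero _).2 hzL)
    refine g2 L' (y / algebraMap L L' (algebraMap F L (algebraMap K F z))) ?_
      (D2_adjoin_div hzL hgen) _ _ rfl rfl
    rw [div_pow, hy, map_mul, map_mul, map_mul, map_pow, map_pow, map_pow, mul_div_cancel_left₀ _ hzL']

private theorem D2_noNew {K : Type} [Field K] [NumberField K] {E : WeierstrassCurve K} (h3 : E.a₃ = 0)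
    {F F' : Type} [Field F] [NumberField F] [Algebra K F] [Field F'] [NumberField F'] [Algebra F F']
    (h : Pool.Agent.Lib.MP_1a91b9_ntDV.Fin.NoNewPoints E F F') : NoNewPoints E F F' := by
  refine ⟨h.1, fun hF => ⟨fun hE => ?_, fun hE => ?_⟩⟩
  · rw [hE] at h3
    exact absurd h3 (by norm_num)
  · rcases hE with hE | hE
    · exact h.2 hE hF
    · rw [h3] at hE
      exact absurd hE (by norm_num)

private theorem D2_pw {K : Type} [Field K] {r : ℕ} (d : Fin r → K) (χ : Fin r → ZMod 2) :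
    pw d χ = ∏ i ∈ Finset.univ.filter (fun i => χ i ≠ 0), d i := by
  rw [Finset.prod_filter]
  refine Finset.prod_congr rfl fun i _ => ?_
  split_ifs with h
  · have h1 := ZMod.val_lt (χ i)
    have h2 : (χ i).val ≠ 0 := (ZMod.val_ne_zero _).2 h
    rw [show (χ i).val = 1 by omega, pow_one]
  · have h1 : χ i = 0 := not_not.1 h
    rw [h1, ZMod.val_zero, pow_zero]

/-- **The property of the field from the property of the tuple**, `p = 2`. -/
theorem d2 {K : Type} [Field K] [NumberField K] (E : WeierstrassCurve K)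
    (hE : E.a₁ = 0 ∧ E.a₃ = 0 ∧ E.a₆ = 0) (F : Type) [Field F] [NumberField F] [Algebra K F] {r : ℕ}
    {d : Fin r → K} (hd : ∀ i, d i ≠ 0) (h : Pool.Agent.Lib.MP_1a91b9_ntMQ.Fin.PropMF E F d) :
    Module.finrank K (NK 2 d) = 2 ^ r ∧ PropM 2 E F (NK 2 d) := by
  have hp : Fact (Nat.Prime 2) := ⟨Nat.prime_two⟩
  have hζ : IsPrimitiveRoot (-1 : K) 2 := IsPrimitiveRoot.neg_one 0 (by norm_num)
  have hdeg : Module.finrank K (NK 2 d) = 2 ^ r :=
    fin_of (F := F) hζ hd fun M _ _ _ x hx hg => (h M x hx hg).1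
  obtain ⟨-, -, -, y, hy⟩ := nk_kum hζ hd
  refine ⟨hdeg, ?_⟩
  intro M _ _ _ _ _ _ _ hM
  obtain ⟨hx, hg⟩ := kum_push hy hM
  obtain ⟨h1, h2⟩ := h M (fun i => algebraMap (NK 2 d) M (y i)) hx hg
  refine ⟨h1.trans hdeg.symm, fun F' _ _ _ _ _ _ _ => ?_⟩
  obtain ⟨c1, c2, c3, c4⟩ := h2 F'
  refine ⟨D2_noNew hE.2.1 c1, c2, fun F'' _ _ _ _ _ _ _ hn => c3 F'' hn, ?_⟩
  rintro e ⟨x, hxe⟩ hne
  obtain ⟨χ, z, hz⟩ := kum_class hζ hd hy hxe
  have hz0 : z ≠ 0 := by
    rintro rfl
    refine hne ⟨0, ?_⟩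
    rw [hz, zero_pow two_ne_zero, zero_pow two_ne_zero, zero_mul, map_zero]
  rw [hz]
  refine D2_propR E hE.2.1 F' hz0 ?_
  rw [D2_pw]
  refine c4 _ ?_
  rintro ⟨w, hw⟩
  refine hne ⟨algebraMap K F' z * w, ?_⟩
  rw [hz, D2_pw, map_mul, hw, map_pow]
  ring

end Pool.Agent.Lib.MP_1a91b9_ntDF
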