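import Pool.Agent.Lib.MP_1a91b9_ntDF.D1
import Pool.Agent.Lib.MP_1a91b9_ntMC.D1

/-!
# MP_1a91b9_nt (the elementary abelian extensions ordered by the discriminant): the towers for a tuple, `p = 3`
-/

set_option autoImplicit false

namespace Pool.Agent.Lib.MP_1a91b9_ntDF

open NumberField
open Pool.Agent.Lib.MP_1a91b9_ntJ (TowP)

/-- The towers property of the cubic twists by the products, over all the intermediate fields. -/
def TowM {K : Type} [Field K] [NumberField K] (E : WeierstrassCurve K) (F : Type) [Field F]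
    [NumberField F] [Algebra K F] {r : ℕ} (e : Fin r → K) : Prop :=
  ∀ (N : Type) [Field N] [NumberField N] [Algebra F N] (x : Fin r → N),
    (∀ i, x i ^ 3 = algebraMap F N (algebraMap K F (e i))) →
    IntermediateField.adjoin F (Set.range x) = ⊤ →
    ∀ (F' : Type) [Field F'] [NumberField F'] [Algebra K F'] [Algebra F F'] [IsScalarTower K F F']
      [Algebra F' N] [IsScalarTower F F' N] (χ : Fin r → ZMod 3),
      (¬ ∃ y : F', y ^ 3 = algebraMap K F' (pw e χ)) →
      TowP K (tw 3 E F' (pw e χ)) ∧ TowP K (tw 3 E F' (pw e χ ^ 2))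

end Pool.Agent.Lib.MP_1a91b9_ntDF
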