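import Pool.Agent.Lib.MP_1a91b9_ntMC.D1

/-!
# MP_1a91b9_nt (discriminant form), `p = 3`: the property `R` depends on `e` only up to cubes
-/

set_option autoImplicit false

namespace Pool.Agent.Lib.MP_1a91b9_ntDF.M3

open NumberField IsDedekindDomain
open Pool.Agent.Lib.MP_1a91b9_ntMC.Fin (RamOK tw PropR)

noncomputable section

/-- The condition on the ramification depends only on the isomorphism class of the curve. -/
theorem ramOK_smul {K : Type} [Field K] [NumberField K] {F : Type} [Field F] [NumberField F]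
    [Algebra K F] {V V' : WeierstrassCurve F} (C : WeierstrassCurve.VariableChange F) (hC : C • V = V')
    {q : ℕ} {L : Type} [Field L] [NumberField L] [Algebra F L] (h : RamOK K V q L) :
    RamOK K V' q L := by
  intro v w hvw
  obtain ⟨h1, h2⟩ := h v w hvw
  refine ⟨h1, fun hq V₀ C₀ hC₀ hΔ => h2 hq V₀ (C₀ * C) ?_ hΔ⟩
  rw [mul_smul, hC, hC₀]

/-- The twist by `e z³` is isomorphic to the twist by `e`. -/
theorem tw_smul {K : Type} [Field K] (E : WeierstrassCurve K) (F : Type) [Field F] [Algebra K F]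
    {e z : K} (hz : z ≠ 0) : ∃ C : WeierstrassCurve.VariableChange F,
      C • tw E F (e * z ^ 3) = tw E F e := by
  have hz' : algebraMap K F z ≠ 0 := (map_ne_zero _).2 hz
  refine ⟨⟨Units.mk0 _ hz', 0, 0, 0⟩, ?_⟩
  rw [WeierstrassCurve.variableChange_def]
  unfold tw
  ext
  · simp
  · simp
  · simp only [Units.val_inv_eq_inv_val, Units.val_mk0, map_mul, map_pow]
    field_simp
    ring
  · simp
  · simp

theorem adjoin_div {F F' : Type} [Field F] [Field F'] [Algebra F F'] {x : F'} {z : F} (hz : z ≠ 0)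
    (h : IntermediateField.adjoin F {x} = ⊤) :
    IntermediateField.adjoin F {x / algebraMap F F' z} = ⊤ := by
  rw [eq_top_iff, ← h, IntermediateField.adjoin_le_iff, Set.singleton_subset_iff]
  have h1 : x / algebraMap F F' z ∈ IntermediateField.adjoin F {x / algebraMap F F' z} :=
    IntermediateField.subset_adjoin F _ rfl
  have h2 := mul_mem h1 ((IntermediateField.adjoin F {x / algebraMap F F' z}).algebraMap_mem z)
  rwa [div_mul_cancel₀ _ ((map_ne_zero _).2 hz)] at h2

/-- **The property `R` of `e` depends on `e` only up to cubes.** -/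
theorem propR_mul_cube {K : Type} [Field K] [NumberField K] (E : WeierstrassCurve K) (F : Type)
    [Field F] [NumberField F] [Algebra K F] {e z : K} (hz : z ≠ 0) (h : PropR E F e) :
    PropR E F (e * z ^ 3) := by
  have hzF : algebraMap K F z ≠ 0 := (map_ne_zero _).2 hz
  obtain ⟨hA, S, hS⟩ := h
  refine ⟨fun F' _ _ _ x hx hgen => hA F' (x / algebraMap F F' (algebraMap K F z)) ?_
    (adjoin_div hzF hgen), S, fun q _ hq k L M _ _ _ _ _ _ _ _ _ hM h1 h2 L' _ _ _ y hy hgen => ?_⟩
  · rw [div_pow, hx, map_mul, map_mul, map_pow, map_pow, mul_div_cancel_right₀]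
    exact pow_ne_zero _ ((map_ne_zero _).2 hzF)
  · have hzL : algebraMap F L (algebraMap K F z) ≠ 0 := (map_ne_zero _).2 hzF
    obtain ⟨C₁, hC₁⟩ := tw_smul E F (e := e) hz
    obtain ⟨C₂, hC₂⟩ := tw_smul E F (e := e ^ 2) (pow_ne_zero 2 hz)
    have h2' : RamOK K (tw E F (e ^ 2 * (z ^ 2) ^ 3)) q L := by
      rw [show e ^ 2 * (z ^ 2) ^ 3 = (e * z ^ 3) ^ 2 by ring]
      exact h2
    refine hS q hq k L M hM (ramOK_smul C₁ hC₁ h1) (ramOK_smul C₂ hC₂ h2') L'
      (y / algebraMap L L' (algebraMap F L (algebraMap K F z))) ?_ (adjoin_div hzL hgen)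
    rw [div_pow, hy, map_mul, map_mul, map_mul, map_pow, map_pow, map_pow, mul_div_cancel_right₀]
    exact pow_ne_zero _ ((map_ne_zero _).2 hzL)

end

end Pool.Agent.Lib.MP_1a91b9_ntDF.M3
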