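import Pool.Agent.Lib.MP_1a91b9_ntDF.DC
import Pool.Agent.Lib.MP_1a91b9_ntDF.D3a
import Pool.Agent.Lib.MP_1a91b9_ntDF.T3a

/-!
# MP_1a91b9_nt (the elementary abelian extensions ordered by the discriminant): the property, `p = 3`
-/

set_option autoImplicit false

namespace Pool.Agent.Lib.MP_1a91b9_ntDF

open NumberField
open Pool.Agent.Lib.MP_1a91b9_ntJ (TowP towP_vc)

private theorem D3_tw {K : Type} [Field K] {E : WeierstrassCurve K}
    (hE : E.a₁ = 0 ∧ E.a₂ = 0 ∧ E.a₄ = 0 ∧ E.a₆ = 0) (F : Type) [Field F] [Algebra K F] (e : K) :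
    tw 3 E F e = Pool.Agent.Lib.MP_1a91b9_ntMC.Fin.tw E F e := by
  unfold tw Pool.Agent.Lib.MP_1a91b9_ntMC.Fin.tw
  rw [hE.2.1, hE.2.2.1, zero_mul, zero_mul, map_zero, show 3 / 3 = 1 from rfl, pow_one]

/-- The towers property in the language of `BSD0`. -/
private theorem D3_bsd {K : Type} [Field K] [NumberField K] {F : Type} [Field F] [NumberField F]
    [Algebra K F] {V : WeierstrassCurve F} (h : TowP K V) :
    ∃ S : Finset ℕ, ∀ (q : ℕ) [Fact q.Prime], q ∉ S →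
      ∀ (k : ℕ) (L M : Type) [Field L] [NumberField L] [Field M] [NumberField M]
        [Algebra F L] [Algebra L M] [Algebra F M] [IsScalarTower F L M] [IsGalois F M],
        Module.finrank F M = q ^ k → RamOK K V q L →
        ∀ (N : Type) [Field N] [NumberField N] [Algebra N L]
          (W : WeierstrassCurve N) (C : WeierstrassCurve.VariableChange L),
          C • W.baseChange L = V.baseChange L → BSD0 q W := by
  obtain ⟨S, hS⟩ := h
  exact ⟨S, fun q _ hq k L M _ _ _ _ _ _ _ _ _ hM hR N _ _ _ W C hC =>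
    hS q hq k N L M hM hR W C hC⟩

private theorem D3_zeta {K : Type} [Field K] [NumberField K] (h3 : ∃ s : K, s ^ 2 = -3) :
    ∃ z : K, IsPrimitiveRoot z 3 := by
  obtain ⟨z, hz⟩ : ∃ z : K, z ^ 2 + z + 1 = 0 := by
    obtain ⟨s, hs⟩ := h3
    refine ⟨(-1 + s) / 2, ?_⟩
    field_simp
    linear_combination hs
  have hz1 : z ≠ 1 := by
    rintro rfl
    have h3 : (3 : K) ≠ 0 := by norm_num
    apply h3
    linear_combination hz
  have hz3 : z ^ 3 = 1 := by linear_combination (z - 1) * hz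
  refine ⟨z, ?_⟩
  rw [← orderOf_eq_prime hz3 hz1]
  exact IsPrimitiveRoot.orderOf z

/-- **The property of the field from the property of the tuple**, `p = 3`. -/
theorem d3 {K : Type} [Field K] [NumberField K] (h3 : ∃ s : K, s ^ 2 = -3) (E : WeierstrassCurve K)
    (hE : E.a₁ = 0 ∧ E.a₂ = 0 ∧ E.a₄ = 0 ∧ E.a₆ = 0) (F : Type) [Field F] [NumberField F]
    [Algebra K F] {r : ℕ} {d : Fin r → K} (hd : ∀ i, d i ≠ 0)
    (h : Pool.Agent.Lib.MP_1a91b9_ntMC.Fin.PropM E F d) (hT : TowM E F d) :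
    Module.finrank K (NK 3 d) = 3 ^ r ∧ PropM 3 E F (NK 3 d) := by
  obtain ⟨w, hw⟩ := D3_zeta h3
  have hfin : Module.finrank K (NK 3 d) = 3 ^ r :=
    fin_of (F := F) hw hd fun M _ _ _ x hx hgen => (h M x hx hgen).1
  refine ⟨hfin, ?_⟩
  obtain ⟨-, -, -, y, hy⟩ := nk_kum hw hd
  intro M _ _ _ _ _ _ _ hM
  obtain ⟨h1, h2⟩ := kum_push hy hM
  obtain ⟨hdeg, hF⟩ := h M _ h1 h2
  refine ⟨hdeg.trans hfin.symm, fun F' _ _ _ _ _ _ _ => ?_⟩
  obtain ⟨c1, c2, c3, c4⟩ := hF F'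
  refine ⟨⟨c1.1, fun hF1 => ⟨(c1.2 hF1).1, fun h0 => (c1.2 hF1).2 ?_⟩⟩, c2, c3, fun e hx hne => ?_⟩
  · rcases h0 with h0 | h0
    · exfalso
      have h4 := hE.2.1
      rw [h0] at h4
      exact absurd h4 (by norm_num)
    · exact h0
  · obtain ⟨x, hx⟩ := hx
    obtain ⟨χ, z, rfl⟩ := kum_class hw hd hy hx
    have hz : z ≠ 0 := by
      rintro rfl
      refine hne ⟨0, ?_⟩
      rw [zero_pow three_ne_zero, zero_pow three_ne_zero, zero_mul, map_zero]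
    have hne' : ¬ ∃ y : F', y ^ 3 = algebraMap K F' (pw d χ) := by
      rintro ⟨t, ht⟩
      refine hne ⟨algebraMap K F' z * t, ?_⟩
      rw [mul_pow, ht, map_mul, map_pow]
    obtain ⟨t1, t2⟩ := hT M _ h1 h2 F' χ hne'
    have e1 : z ^ 3 * pw d χ = pw d χ * z ^ 3 := mul_comm _ _
    have e2 : (z ^ 3 * pw d χ) ^ 2 = pw d χ ^ 2 * (z ^ 2) ^ 3 := by ring
    obtain ⟨C₁, hC₁⟩ := M3.tw_smul E F' (e := pw d χ) hz
    obtain ⟨C₂, hC₂⟩ := M3.tw_smul E F' (e := pw d χ ^ 2) (pow_ne_zero 2 hz)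
    rw [← D3_tw hE, ← D3_tw hE, ← e1] at hC₁
    rw [← D3_tw hE, ← D3_tw hE, ← e2] at hC₂
    obtain ⟨S₁, hS₁⟩ := D3_bsd (towP_vc hC₁ t1)
    obtain ⟨S₂, hS₂⟩ := D3_bsd (towP_vc hC₂ t2)
    have hR : Pool.Agent.Lib.MP_1a91b9_ntMC.Fin.PropR E F' (z ^ 3 * pw d χ) := by
      rw [e1]
      exact M3.propR_mul_cube E F' hz (c4 χ hne')
    obtain ⟨-, S₃, hS₃⟩ := hR
    refine ⟨S₁ ∪ S₂ ∪ S₃, fun q _ hq k L M' _ _ _ _ _ _ _ _ _ hM' hRam => ?_⟩
    rw [Finset.mem_union, Finset.mem_union, not_or, not_or] at hq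
    have r1 := hRam 1 one_pos (by norm_num)
    have r2 := hRam 2 two_pos (by norm_num)
    rw [pow_one] at r1
    refine ⟨fun i hi hi3 N _ _ _ W C hC => ?_, fun L' _ _ _ y hy hgen => ?_⟩
    · have hi' : i = 1 ∨ i = 2 := by omega
      rcases hi' with rfl | rfl
      · rw [pow_one] at hC
        exact hS₁ q hq.1.1 k L M' hM' r1 N W C hC
      · exact hS₂ q hq.1.2 k L M' hM' r2 N W C hC
    · rw [D3_tw hE] at r1 r2
      exact hS₃ q hq.2 k L M' hM' r1 r2 L' y hy hgen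

end Pool.Agent.Lib.MP_1a91b9_ntDF
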