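import Mathlib

/-!
# MP_1a91b9_nt (the elementary abelian extensions ordered by the discriminant): the composite of two extensions
-/

set_option autoImplicit false

namespace Pool.Agent.Lib.MP_1a91b9_ntDF

open NumberField

noncomputable section

/-- The composite of `F` and `N` exists, and its degree over `F` is at most the degree of `N` over `K`. -/
theorem exists_composite (K F N : Type) [Field K] [Field F] [NumberField F]
    [Algebra K F] [Field N] [Algebra K N] [FiniteDimensional K N] :
    ∃ (M : Type) (_ : Field M) (_ : NumberField M) (_ : Algebra K M) (_ : Algebra F M)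
      (_ : IsScalarTower K F M) (_ : Algebra N M) (_ : IsScalarTower K N M),
      IntermediateField.adjoin F (Set.range (algebraMap N M)) = ⊤ ∧
        Module.finrank F M ≤ Module.finrank K N := by
  have hφ : Nonempty (N →ₐ[K] AlgebraicClosure F) := ⟨IsAlgClosed.lift⟩
  obtain ⟨φ⟩ := hφ
  have hfr : Module.Finite K φ.fieldRange :=
    Module.Finite.equiv (AlgEquiv.ofInjectiveField φ).toLinearEquiv
  have hL : Module.rank F (IntermediateField.adjoin F (φ.fieldRange : Set (AlgebraicClosure F))) ≤
      Module.rank K φ.fieldRange := IntermediateField.adjoin_rank_le_of_isAlgebraic_right F _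
  have hfin : FiniteDimensional F
      (IntermediateField.adjoin F (φ.fieldRange : Set (AlgebraicClosure F))) := by
    rw [FiniteDimensional, ← Module.rank_lt_aleph0_iff]
    exact lt_of_le_of_lt hL (Module.rank_lt_aleph0 K _)
  have hnum : NumberField
      (IntermediateField.adjoin F (φ.fieldRange : Set (AlgebraicClosure F))) :=
    NumberField.of_module_finite F _
  let ψ : N →+* IntermediateField.adjoin F (φ.fieldRange : Set (AlgebraicClosure F)) :=
    (φ : N →+* AlgebraicClosure F).codRestrict _ fun x =>
      IntermediateField.subset_adjoin F _ ⟨x, rfl⟩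
  let _ : Algebra N (IntermediateField.adjoin F (φ.fieldRange : Set (AlgebraicClosure F))) :=
    ψ.toAlgebra
  have htow : IsScalarTower K N
      (IntermediateField.adjoin F (φ.fieldRange : Set (AlgebraicClosure F))) := by
    refine IsScalarTower.of_algebraMap_eq fun x => ?_
    refine Subtype.ext ?_
    show algebraMap K (AlgebraicClosure F) x = φ (algebraMap K N x)
    rw [φ.commutes]
  refine ⟨IntermediateField.adjoin F (φ.fieldRange : Set (AlgebraicClosure F)), inferInstance, hnum,
    inferInstance, inferInstance, inferInstance, ψ.toAlgebra, htow, ?_, ?_⟩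
  · apply IntermediateField.lift_injective
    rw [IntermediateField.lift_adjoin, IntermediateField.lift_top]
    refine congrArg _ ?_
    ext y
    constructor
    · rintro ⟨_, ⟨x, rfl⟩, rfl⟩
      exact ⟨x, rfl⟩
    · rintro ⟨x, rfl⟩
      exact ⟨ψ x, ⟨x, rfl⟩, rfl⟩
  · have h2 := Cardinal.toNat_le_toNat hL (Module.rank_lt_aleph0 K _)
    refine h2.trans (le_of_eq ?_)
    exact (LinearEquiv.finrank_eq (AlgEquiv.ofInjectiveField φ).toLinearEquiv).symm

/-- The generators of `N` over `K` generate the composite over `F`. -/
theorem adjoin_composite {K F N M : Type} [Field K] [Field F] [Field N] [Field M] [Algebra K F]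
    [Algebra K N] [Algebra K M] [Algebra F M] [IsScalarTower K F M] [Algebra N M]
    [IsScalarTower K N M] {s : Set N} (hs : IntermediateField.adjoin K s = ⊤)
    (hM : IntermediateField.adjoin F (Set.range (algebraMap N M)) = ⊤) :
    IntermediateField.adjoin F (algebraMap N M '' s) = ⊤ := by
  rw [eq_top_iff, ← hM, IntermediateField.adjoin_le_iff]
  rintro _ ⟨y, rfl⟩
  have h1 : IntermediateField.adjoin K s ≤
      ((IntermediateField.adjoin F (algebraMap N M '' s)).restrictScalars K).comap
        (IsScalarTower.toAlgHom K N M) := by
    rw [IntermediateField.adjoin_le_iff]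
    intro x hx
    exact IntermediateField.subset_adjoin F _ ⟨x, hx, rfl⟩
  have h2 : y ∈ IntermediateField.adjoin K s := by
    rw [hs]
    exact IntermediateField.mem_top
  exact h1 h2

end

end Pool.Agent.Lib.MP_1a91b9_ntDF
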