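import Pool.Agent.Lib.MP_1a91b9_ntDF.CN
import Pool.Agent.Lib.MP_1a91b9_ntDF.KU
import Pool.Agent.Lib.MP_1a91b9_ntDF.TC

/-!
# MP_1a91b9_nt (the elementary abelian extensions ordered by the discriminant): the compositum with `F`
-/

set_option autoImplicit false

namespace Pool.Agent.Lib.MP_1a91b9_ntDF

open NumberField

/-- The generators of the compositum with `F`. -/
theorem kum_push {K : Type} [Field K] {F : Type} [Field F] [Algebra K F] {N : Type} [Field N]
    [Algebra K N] {M : Type} [Field M] [Algebra K M] [Algebra F M] [IsScalarTower K F M]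
    [Algebra N M] [IsScalarTower K N M] {p r : ℕ} {d : Fin r → K} {y : Fin r → N}
    (hy : Kum p d y) (hM : IntermediateField.adjoin F (Set.range (algebraMap N M)) = ⊤) :
    (∀ i, algebraMap N M (y i) ^ p = algebraMap F M (algebraMap K F (d i))) ∧
      IntermediateField.adjoin F (Set.range fun i => algebraMap N M (y i)) = ⊤ := by
  have h1 := adjoin_composite hy.top hM
  rw [← Set.range_comp] at h1
  refine ⟨fun i => ?_, h1⟩
  rw [← map_pow, hy.pow, ← IsScalarTower.algebraMap_apply, ← IsScalarTower.algebraMap_apply]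

/-- The degree over `K` from the degree over `F`. -/
theorem fin_of {K : Type} [Field K] [NumberField K] {F : Type} [Field F] [NumberField F] [Algebra K F]
    {p : ℕ} [Fact p.Prime] {ζ : K} (hζ : IsPrimitiveRoot ζ p) {r : ℕ} {d : Fin r → K}
    (hd : ∀ i, d i ≠ 0)
    (h : ∀ (M : Type) [Field M] [NumberField M] [Algebra F M] (x : Fin r → M),
      (∀ i, x i ^ p = algebraMap F M (algebraMap K F (d i))) →
      IntermediateField.adjoin F (Set.range x) = ⊤ → Module.finrank F M = p ^ r) :
    Module.finrank K (NK p d) = p ^ r := by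
  obtain ⟨hfin, -, hle, y, hy⟩ := nk_kum hζ hd
  obtain ⟨M, _, _, _, _, _, _, _, hM, hMle⟩ := exists_composite K F (NK p d)
  obtain ⟨h1, h2⟩ := kum_push hy hM
  refine le_antisymm hle ?_
  rw [← h M _ h1 h2]
  exact hMle

/-- The elements of `K` which are `p`-th powers in `N`. -/
theorem kum_class {K : Type} [Field K] {p : ℕ} [Fact p.Prime] {ζ : K} (hζ : IsPrimitiveRoot ζ p)
    {N : Type} [Field N] [Algebra K N] {r : ℕ} {d : Fin r → K} (hd : ∀ i, d i ≠ 0)
    {y : Fin r → N} (hy : Kum p d y) {e : K} {x : N} (hx : x ^ p = algebraMap K N e) :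
    ∃ (χ : Fin r → ZMod p) (z : K), e = z ^ p * pw d χ := by
  have hp : p.Prime := Fact.out
  have hy0 : ∀ i, y i ≠ 0 := by
    intro i h0
    have h1 := hy.pow i
    rw [h0, zero_pow hp.ne_zero] at h1
    exact hd i ((map_eq_zero (algebraMap K N)).1 h1.symm)
  obtain ⟨χ, z, hz⟩ := kum_mem hp hζ hy0 (fun i => ⟨d i, hy.pow i⟩) hy.top ⟨e, hx⟩
  refine ⟨fun i => ((χ i : ℕ) : ZMod p), z, (algebraMap K N).injective ?_⟩
  rw [← hx, hz, mul_pow, map_mul, map_pow, ← Finset.prod_pow]
  unfold pw
  rw [map_prod]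
  refine congrArg _ (Finset.prod_congr rfl fun i _ => ?_)
  rw [ZMod.val_cast_of_lt (χ i).2, map_pow, ← hy.pow, ← pow_mul, ← pow_mul, mul_comm]

end Pool.Agent.Lib.MP_1a91b9_ntDF
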