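import Pool.Agent.Lib.MP_1a91b9_ntDF.D1
import Pool.Agent.Lib.MP_1a91b9_ntMN.UW11

/-!
# MP_1a91b9_nt (the elementary abelian extensions ordered by the discriminant): the law for the tuples, `p = 2`
-/

set_option autoImplicit false

namespace Pool.Agent.Lib.MP_1a91b9_ntDF

open NumberField

private theorem l2_pf {R : Type} [CommMonoid R] (x : R) : Squarefree x ↔ Pf 2 x := by
  constructor
  · intro h y hy
    exact h y (by rwa [← pow_two])
  · intro h y hy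
    exact h y (by rwa [pow_two])

private theorem l2_enc {α : Type} (a : α) (P : α → Prop) :
    ((1 : ℕ) : ℕ∞) ≤ {δ ∈ ({a} : Set α) | P δ}.encard ↔ P a := by
  rw [Nat.cast_one, Set.one_le_encard_iff_nonempty]
  constructor
  · rintro ⟨δ, hδ, h⟩
    rw [Set.mem_singleton_iff] at hδ
    rwa [hδ] at h
  · intro h
    exact ⟨a, rfl, h⟩

open Classical in
/-- **The law for the tuples**, `p = 2`. -/
theorem l2 (K : Type) [Field K] [NumberField K] (hK : Module.finrank ℚ K = 2)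
    (E : WeierstrassCurve K) (hE : E.a₁ = 0 ∧ E.a₃ = 0 ∧ E.a₆ = 0) (hΔ : E.Δ ≠ 0) (j D : ℤ)
    (hjD : (j, D) ∈ [(0, -3), (54000, -3), (-12288000, -3), (1728, -4), (287496, -4), (-3375, -7),
      (16581375, -7), (8000, -8), (-32768, -11), (-884736, -19), (-884736000, -43),
      (-147197952000, -67), (-262537412640768000, -163)])
    (hj : E.c₄ ^ 3 = j * E.Δ) (hD : ∃ s : K, s ^ 2 = D)
    (l : ℕ) (hl : l = 2 ∨ l = 4 ∧ ∃ i : K, i ^ 2 = -1)
    (F : Type) [Field F] [NumberField F] [Algebra K F]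
    (hF : IntermediateField.adjoin K {x : F | ∃ c : K, x ^ l = algebraMap K F c} = ⊤) (r : ℕ)
    (n : ℕ) (u : Fin r → 𝓞 K)
    (hu : ∀ i q, Prime q → ¬ (q ^ 2 ∣ ((2 : ℕ) : 𝓞 K) ^ n ∧ q ^ 2 ∣ u i)) (ε : ℝ) (hε : 0 < ε) :
    ∀ᶠ X : ℝ in Filter.atTop,
      cst 2 K F ^ ((2 ^ r - 1) * Module.finrank K F) - ε ≤
      (Nat.card {d : Fin r → 𝓞 K //
        (∀ i, Pf 2 (d i) ∧ ((2 : ℕ) : 𝓞 K) ^ n ∣ d i - u i) ∧
        (∃ A, A ≠ 0 ∧ |Algebra.norm ℤ A| ≤ X ∧ ∀ i, d i ∣ A ^ (2 - 1)) ∧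
        Pool.Agent.Lib.MP_1a91b9_ntMQ.Fin.PropMF E F (cK K d)} : ℝ) /
        (Nat.card {d : Fin r → 𝓞 K // (∀ i, Pf 2 (d i) ∧ ((2 : ℕ) : 𝓞 K) ^ n ∣ d i - u i) ∧
          ∃ A, A ≠ 0 ∧ |Algebra.norm ℤ A| ≤ X ∧ ∀ i, d i ∣ A ^ (2 - 1)} : ℝ) := by
  obtain ⟨c, hc⟩ : ∃ c, c = cst 2 K F := ⟨_, rfl⟩
  have hc' : c = Pool.Agent.Lib.MP_1a91b9_ntDV.Fin.cst K F := by
    rw [hc]
    unfold cst Pool.Agent.Lib.MP_1a91b9_ntDV.Fin.cst
    rw [if_neg (by norm_num : ¬ (2 : ℕ) = 3)]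
  obtain ⟨T, hT⟩ : ∃ T : Set (Fin r → 𝓞 K), T = {fun _ => 1} := ⟨_, rfl⟩
  have h := Pool.Agent.Lib.MP_1a91b9_ntMN.Fin.fin_den K hK E hE hΔ j D hjD hj hD l hl F hF r T
    (by
      rw [hT]
      rintro δ hδ i
      rw [Set.mem_singleton_iff] at hδ
      rw [hδ]
      exact one_ne_zero)
    (by
      rw [hT]
      rintro δ hδ δ' hδ' hne
      rw [Set.mem_singleton_iff] at hδ hδ'
      exact absurd (hδ.trans hδ'.symm) hne)
    n (2 ^ n) u dvd_rfl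
    (by
      intro i q hq hh
      refine hu i q hq ?_
      rwa [Nat.cast_ofNat]) c hc' 1 (c ^ ((2 ^ r - 1) * Module.finrank K F))
    (by
      rw [if_neg (Set.not_infinite.2 (by rw [hT]; exact Set.finite_singleton _)), hT,
        Set.ncard_singleton, Finset.Icc_self, Finset.sum_singleton, Nat.choose_self, Nat.sub_self,
        pow_zero, Nat.cast_one, one_mul, mul_one, pow_one]) ε hε
  rw [← hc]
  filter_upwards [h] with X hX
  refine hX.trans (le_of_eq ?_)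
  have e2 : ((2 : ℕ) : 𝓞 K) = 2 := Nat.cast_ofNat
  congr 2
  · refine Nat.card_congr (Equiv.subtypeEquivRight fun d => ?_)
    rw [hT, l2_enc]
    have e1 : (fun i => (((fun _ => 1 : Fin r → 𝓞 K) i * d i : 𝓞 K) : K)) = cK K d := by
      funext i
      rw [one_mul]
      rfl
    rw [e1, e2]
    simp only [l2_pf, Nat.add_one_sub_one, pow_one]
  · refine congrArg Nat.cast (Nat.card_congr (Equiv.subtypeEquivRight fun d => ?_))
    rw [e2]
    simp only [l2_pf, Nat.add_one_sub_one, pow_one]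

end Pool.Agent.Lib.MP_1a91b9_ntDF
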