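import Pool.Agent.Lib.MP_1a91b9_ntDF.D3a
import Pool.Agent.Lib.MP_1a91b9_ntMC.A8

/-!
# MP_1a91b9_nt (the elementary abelian extensions ordered by the discriminant): the law for the tuples, `p = 3`
-/

set_option autoImplicit false

namespace Pool.Agent.Lib.MP_1a91b9_ntDF

open NumberField WeierstrassCurve
open Pool.Agent.Lib.MP_1a91b9_ntJ (TowP exists_e6 exists_cube_mul)
open Pool.Agent.Lib.MP_1a91b9_ntZ (bn AtF CB cb_three)
open Pool.Agent.Lib.MP_1a91b9_ntMC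

private theorem l3_chp {K : Type} [Field K] [NumberField K] {L : Type} [Field L] [Algebra K L] {r : ℕ}
    (χ : Fin r → ZMod 3) (e : Fin r → 𝓞 K) :
    chp χ (fun i => algebraMap K L ((e i : 𝓞 K) : K)) = algebraMap K L ((chp χ e : 𝓞 K) : K) := by
  rw [show (algebraMap K L ((chp χ e : 𝓞 K) : K)) =
      ((algebraMap K L : K →* L).comp (algebraMap (𝓞 K) K : 𝓞 K →* K)) (chp χ e) from rfl,
      ← chp_map]
  rfl

private theorem l3_chpK {K : Type} [Field K] [NumberField K] {r : ℕ}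
    (χ : Fin r → ZMod 3) (e : Fin r → 𝓞 K) :
    pw (cK K e) χ = ((chp χ e : 𝓞 K) : K) := by
  rw [show ((chp χ e : 𝓞 K) : K) = (algebraMap (𝓞 K) K : 𝓞 K →* K) (chp χ e) from rfl, ← chp_map]
  rfl

/-- The intermediate fields are generated over `K` by cube roots. -/
private theorem l3_gen {K : Type} [Field K] [NumberField K] {F : Type} [Field F] [NumberField F]
    [Algebra K F] (hF : IntermediateField.adjoin K {x : F | ∃ c : K, x ^ 3 = algebraMap K F c} = ⊤)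
    {r : ℕ} (e : Fin r → K) (F' : Type) [Field F'] [NumberField F'] [Algebra K F'] [Algebra F F']
    [IsScalarTower K F F']
    (h : IntermediateField.adjoin F {y : F' | ∃ χ : Fin r → ZMod 3, y ^ 3 =
      algebraMap F F' (chp χ fun i => algebraMap K F (e i))} = ⊤) :
    IntermediateField.adjoin K {x : F' | ∃ c : K, x ^ 3 = algebraMap K F' c} = ⊤ := by
  obtain ⟨A, hA⟩ : ∃ A : IntermediateField K F', A =
      IntermediateField.adjoin K {x : F' | ∃ c : K, x ^ 3 = algebraMap K F' c} := ⟨_, rfl⟩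
  rw [← hA, eq_top_iff]
  have h1 : ∀ z : F, algebraMap F F' z ∈ A := by
    intro z
    have hz : z ∈ IntermediateField.adjoin K {x : F | ∃ c : K, x ^ 3 = algebraMap K F c} := by
      rw [hF]
      trivial
    refine IntermediateField.adjoin_induction (F := K) (p := fun z _ => algebraMap F F' z ∈ A)
      ?_ ?_ ?_ ?_ ?_ hz
    · rintro x ⟨c, hc⟩
      rw [hA]
      refine IntermediateField.subset_adjoin K _ ⟨c, ?_⟩
      rw [← map_pow, hc, ← IsScalarTower.algebraMap_apply]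
    · intro c
      rw [← IsScalarTower.algebraMap_apply K F F']
      exact A.algebraMap_mem c
    · intro x y _ _ hx hy
      rw [map_add]
      exact A.add_mem hx hy
    · intro x _ hx
      rw [map_inv₀]
      exact A.inv_mem hx
    · intro x y _ _ hx hy
      rw [map_mul]
      exact A.mul_mem hx hy
  intro z _
  have hz : z ∈ IntermediateField.adjoin F {y : F' | ∃ χ : Fin r → ZMod 3, y ^ 3 =
      algebraMap F F' (chp χ fun i => algebraMap K F (e i))} := by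
    rw [h]
    trivial
  refine IntermediateField.adjoin_induction (F := F) (p := fun z _ => z ∈ A)
    ?_ ?_ ?_ ?_ ?_ hz
  · rintro y ⟨χ, hy⟩
    rw [hA]
    refine IntermediateField.subset_adjoin K _ ⟨chp χ e, ?_⟩
    rw [hy, IsScalarTower.algebraMap_apply K F F']
    congr 1
    exact chp_map (algebraMap K F : K →* F) χ e
  · exact h1
  · intro x y _ _ hx hy
    exact A.add_mem hx hy
  · intro x _ hx
    exact A.inv_mem hx
  · intro x y _ _ hx hy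
    exact A.mul_mem hx hy

/-- The towers property of the tuple. -/
private theorem l3_tow {K : Type} [Field K] [NumberField K] (hK : Module.finrank ℚ K = 2)
    (h3 : ∃ s : K, s ^ 2 = -3) {a : K} (F : Type) [Field F] [NumberField F] [Algebra K F]
    (hF : IntermediateField.adjoin K {x : F | ∃ c : K, x ^ 3 = algebraMap K F c} = ⊤) {r : ℕ}
    {α t₀ : 𝓞 K} (hα : α ≠ 0) (ht₀ : t₀ ≠ 0) (hαt : (α : K) = a * (t₀ : K) ^ 3)
    {e : Fin r → 𝓞 K} (he : ∀ i, e i ≠ 0) (hR : RkA F α e)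
    (hex : ∀ χ : Fin r → ZMod 3, χ ≠ 0 →
        ¬ ∃ c : F, c ^ 3 = algebraMap K F ((∏ k, e k ^ (χ k).val : 𝓞 K) : K) * 1) :
    TowM (⟨0, 0, a, 0, 0⟩ : WeierstrassCurve K) F (cK K e) := by
  obtain ⟨z, hz⟩ : ∃ z : K, z ^ 2 + z + 1 = 0 := by
    obtain ⟨s, hs⟩ := h3
    refine ⟨(-1 + s) / 2, ?_⟩
    field_simp
    linear_combination hs
  have hw : IsPrimitiveRoot (algebraMap K F z) 3 := by
    have hz1 : z ≠ 1 := by
      rintro rfl
      have h3 : (3 : K) ≠ 0 := by norm_num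
      apply h3
      linear_combination hz
    have hz3 : z ^ 3 = 1 := by linear_combination (z - 1) * hz
    have hp : IsPrimitiveRoot z 3 := by
      rw [← orderOf_eq_prime hz3 hz1]
      exact IsPrimitiveRoot.orderOf z
    exact hp.map_of_injective (algebraMap K F).injective
  intro N _ _ _ x hx hgen F' _ _ _ _ _ _ _ χ hχ
  have hM : MCx (fun i => algebraMap K F ((e i : 𝓞 K) : K)) x := ⟨hx, hgen⟩
  have heK : ∀ i, ((e i : 𝓞 K) : K) ≠ 0 := fun i => by exact_mod_cast he i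
  have heF : ∀ i, algebraMap K F ((e i : 𝓞 K) : K) ≠ 0 := fun i => (map_ne_zero _).2 (heK i)
  have hind : ∀ χ : Fin r → ZMod 3, χ ≠ 0 →
      ¬ ∃ c : F, c ^ 3 = chp χ (fun i => algebraMap K F ((e i : 𝓞 K) : K)) := by
    rintro χ hχ ⟨c, hc⟩
    refine hex χ hχ ⟨c, ?_⟩
    rw [hc, l3_chp, mul_one]
    rfl
  have hF' := l3_gen hF (fun i => ((e i : 𝓞 K) : K)) F' (hM.inter hw heF hind F')
  rw [l3_chpK] at hχ ⊢
  obtain ⟨t1, t2⟩ := towP_mid hK h3 hα ht₀ hαt he hR hM F' hF' hχ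
  have e1 : ∀ y : K, tw 3 (⟨0, 0, a, 0, 0⟩ : WeierstrassCurve K) F' y =
      ⟨0, 0, algebraMap K F' (a * y), 0, 0⟩ := by
    intro y
    refine WeierstrassCurve.ext rfl ?_ ?_ ?_ rfl
    · show algebraMap K F' (0 * y ^ (2 / 3)) = 0
      rw [zero_mul, map_zero]
    · show algebraMap K F' (a * y ^ (3 / 3)) = algebraMap K F' (a * y)
      rw [Nat.div_self three_pos, pow_one]
    · show algebraMap K F' (0 * y ^ (4 / 3)) = 0
      rw [zero_mul, map_zero]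
  rw [e1, e1]
  exact ⟨t1, t2⟩

private theorem l3_enc {α : Type} (a : α) (P : α → Prop) :
    ((1 : ℕ) : ℕ∞) ≤ {δ ∈ ({a} : Set α) | P δ}.encard ↔ P a := by
  rw [Nat.cast_one, Set.one_le_encard_iff_nonempty]
  constructor
  · rintro ⟨δ, hδ, h⟩
    rw [Set.mem_singleton_iff] at hδ
    rwa [hδ] at h
  · intro h
    exact ⟨a, rfl, h⟩

open Classical in
/-- **The law for the tuples**, `p = 3`. -/
theorem l3 (K : Type) [Field K] [NumberField K] (hK : Module.finrank ℚ K = 2)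
    (h3 : ∃ s : K, s ^ 2 = -3) (E : WeierstrassCurve K)
    (hE : E.a₁ = 0 ∧ E.a₂ = 0 ∧ E.a₄ = 0 ∧ E.a₆ = 0) (hΔ : E.Δ ≠ 0)
    (F : Type) [Field F] [NumberField F] [Algebra K F]
    (hF : IntermediateField.adjoin K {x : F | ∃ c : K, x ^ 3 = algebraMap K F c} = ⊤) (r : ℕ)
    (n : ℕ) (u : Fin r → 𝓞 K)
    (hu : ∀ i q, Prime q → ¬ (q ^ 3 ∣ ((3 : ℕ) : 𝓞 K) ^ n ∧ q ^ 3 ∣ u i)) (ε : ℝ) (hε : 0 < ε) :
    ∀ᶠ X : ℝ in Filter.atTop,
      (∏' i : ℕ, (1 + 1 / (3 : ℝ) ^ (i + 1))⁻¹) ^ ((3 ^ r - 1) * Module.finrank K F) - ε ≤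
      (Nat.card {d : Fin r → 𝓞 K //
        (∀ i, Pf 3 (d i) ∧ ((3 : ℕ) : 𝓞 K) ^ n ∣ d i - u i) ∧
        (∃ A, A ≠ 0 ∧ |Algebra.norm ℤ A| ≤ X ∧ ∀ i, d i ∣ A ^ (3 - 1)) ∧
        (Pool.Agent.Lib.MP_1a91b9_ntMC.Fin.PropM E F (cK K d) ∧ TowM E F (cK K d))} : ℝ) /
        (Nat.card {d : Fin r → 𝓞 K // (∀ i, Pf 3 (d i) ∧ ((3 : ℕ) : 𝓞 K) ^ n ∣ d i - u i) ∧
          ∃ A, A ≠ 0 ∧ |Algebra.norm ℤ A| ≤ X ∧ ∀ i, d i ∣ A ^ (3 - 1)} : ℝ) := by
  obtain ⟨h1, h2, h4, h6⟩ := hE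
  have ha : E.a₃ ≠ 0 := by
    intro h
    apply hΔ
    unfold WeierstrassCurve.Δ WeierstrassCurve.b₂ WeierstrassCurve.b₄ WeierstrassCurve.b₆
      WeierstrassCurve.b₈
    rw [h1, h2, h4, h6, h]
    ring
  have hE : E = ⟨0, 0, E.a₃, 0, 0⟩ := WeierstrassCurve.ext h1 h2 rfl h4 h6
  obtain ⟨a, haE⟩ : ∃ a, a = E.a₃ := ⟨_, rfl⟩
  rw [← haE] at ha hE
  subst hE
  obtain ⟨s, hs⟩ := h3
  obtain ⟨e⟩ := exists_e6 hK hs
  obtain ⟨e'⟩ := Pool.Agent.Lib.MP_1a91b9_ntN.exists_iso36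
  obtain ⟨f, -⟩ : ∃ f : Pool.Agent.Lib.MP_1a91b9_ntT.K ≃+* K, True :=
    ⟨(e' : Pool.Agent.Lib.MP_1a91b9_ntT.K ≃+* _).trans e, trivial⟩
  obtain ⟨α, t₀, hα, ht₀, hαt⟩ := exists_cube_mul ha
  obtain ⟨Eo, hEo⟩ : ∃ Eo : 𝓞 (Pool.Agent.Lib.MP_1a91b9_ntT.K) ≃+* 𝓞 K,
    Eo = RingOfIntegers.mapRingEquiv f := ⟨_, rfl⟩
  obtain ⟨α', hα'⟩ := Eo.surjective α
  have hα0 : α' ≠ 0 := by
    rintro rfl
    exact hα (by rw [← hα', map_zero])
  have H : KBM K α := by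
    rw [← hα', hEo]
    exact KBM.equiv f (kbM_main jm3 covPos3M hα0)
  obtain ⟨B, hB0, hB⟩ := propM3_of hK ⟨s, hs⟩ ha F hF r
  obtain ⟨c, hc⟩ : ∃ c : ℝ, c = ∏' i : ℕ, (1 + 1 / (3 : ℝ) ^ (i + 1))⁻¹ := ⟨_, rfl⟩
  have hcb : CB (c ^ ((3 ^ r - 1) * Module.finrank K F)) := by
    rw [hc]
    exact cb_three.pow _
  obtain ⟨T, hT⟩ : ∃ T : Set (Fin r → 𝓞 K), T = {fun _ => 1} := ⟨_, rfl⟩
  have h0 : ∀ δ ∈ T, ∀ i, δ i ≠ 0 := by
    rw [hT]
    rintro δ hδ i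
    rw [Set.mem_singleton_iff] at hδ
    rw [hδ]
    exact one_ne_zero
  have hpn : (3 : 𝓞 K) ^ n ∣ 3 ^ n := dvd_rfl
  have key := shell3 (P := RkA F α)
    (Q := fun e : Fin r → 𝓞 K => Pool.Agent.Lib.MP_1a91b9_ntMC.Fin.PropM ⟨0, 0, a, 0, 0⟩ F (cK K e) ∧
      TowM (⟨0, 0, a, 0, 0⟩ : WeierstrassCurve K) F (cK K e))
    (B := insert 1 B) (T := T) (u := u) covPos3M hK ⟨s, hs⟩ f h0 hpn
    (by
      intro i q hq hh
      refine hu i q hq ?_
      rwa [Nat.cast_ofNat])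
    (by
      intro β hβ
      rcases Finset.mem_insert.1 hβ with rfl | h
      · exact one_ne_zero
      · exact hB0 β h)
    (fun e he hP hβ => ⟨Pool.Agent.Lib.MP_1a91b9_ntMC.Fin.propM_of3 hK ⟨s, hs⟩ a F
      (hB α t₀ hα ht₀ hαt e he hP fun β h => hβ β (Finset.mem_insert_of_mem h)),
      l3_tow hK ⟨s, hs⟩ F hF hα ht₀ hαt he hP (hβ 1 (Finset.mem_insert_self _ _))⟩) (t := 1)
    hcb.1 hcb.2 (v := c ^ ((3 ^ r - 1) * Module.finrank K F))
    (by
      rw [if_neg (Set.not_infinite.2 (by rw [hT]; exact Set.finite_singleton _)), hT,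
        Set.ncard_singleton]
      unfold bn
      rw [Finset.Icc_self, Finset.sum_singleton, Nat.choose_self, Nat.sub_self,
        pow_zero, Nat.cast_one, one_mul, mul_one, pow_one]) (fun S hS => ?_) ε hε
  · rw [← hc]
    filter_upwards [key] with X hX
    refine hX.trans (le_of_eq ?_)
    have e2 : ((3 : ℕ) : 𝓞 K) = 3 := Nat.cast_ofNat
    congr 2
    refine Nat.card_congr (Equiv.subtypeEquivRight fun d => ?_)
    rw [hT, l3_enc]
    have e1 : (fun i => (fun _ => 1 : Fin r → 𝓞 K) i * d i) = d := by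
      funext i
      rw [one_mul]
    rw [e1, e2]
    rfl
  · have h5 := H F hF r n (3 ^ n) u dvd_rfl (by
      intro i q hq hh
      refine hu i q hq ?_
      rwa [Nat.cast_ofNat]) S (fun δ hδ => h0 δ (hS (Finset.mem_coe.2 hδ)))
      (by
        intro δ hδ δ' hδ' hne
        have h7 := hS (Finset.mem_coe.2 hδ)
        have h8 := hS (Finset.mem_coe.2 hδ')
        rw [hT, Set.mem_singleton_iff] at h7 h8
        exact absurd (h7.trans h8.symm) hne) 1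
    rw [← hc] at h5
    exact h5

end Pool.Agent.Lib.MP_1a91b9_ntDF
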