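import Pool.Agent.Lib.MP_1a91b9_ntDF.C0
import Pool.Agent.Lib.MP_1a91b9_ntDF.D2
import Pool.Agent.Lib.MP_1a91b9_ntDF.D3
import Pool.Agent.Lib.MP_1a91b9_ntDF.L2
import Pool.Agent.Lib.MP_1a91b9_ntDF.L3

/-!
# MP_1a91b9_nt (the elementary abelian extensions ordered by the discriminant): the law
-/

set_option autoImplicit false

namespace Pool.Agent.Lib.MP_1a91b9_ntDF

open NumberField
open Pool.Agent.Lib.MP_1a91b9_ntL (crv)

/-- The elements of bounded norm. -/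
private theorem fin_norm {K : Type} [Field K] [NumberField K] [Finite (𝓞 K)ˣ] (X : ℝ) :
    {A : 𝓞 K | A ≠ 0 ∧ |Algebra.norm ℤ A| ≤ X}.Finite :=
  Pool.Agent.Lib.MP_1a91b9_ntW.J.finite_norm_le (K := K) X

/-- Monotonicity of the proportion. -/
private theorem fin_mono {α : Type} {v ε : ℝ} {A B : ℝ → α → Prop} {P P' : α → Prop}
    (hfin : ∀ X, {d | A X d ∧ B X d}.Finite) (hP : ∀ X d, A X d → P d → P' d)
    (h : ∀ᶠ X : ℝ in Filter.atTop, v - ε ≤ (Nat.card {d : α // A X d ∧ B X d ∧ P d} : ℝ) /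
      (Nat.card {d : α // A X d ∧ B X d} : ℝ)) :
    ∀ᶠ X : ℝ in Filter.atTop, v - ε ≤ (Nat.card {d : α // A X d ∧ B X d ∧ P' d} : ℝ) /
      (Nat.card {d : α // A X d ∧ B X d} : ℝ) := by
  filter_upwards [h] with X hX
  refine hX.trans (div_le_div_of_nonneg_right ?_ (Nat.cast_nonneg _))
  have h1 : {d | A X d ∧ B X d ∧ P d} ⊆ {d | A X d ∧ B X d ∧ P' d} := by
    rintro d ⟨h1, h2, h3⟩
    exact ⟨h1, h2, hP X d h1 h3⟩
  have h2 : {d | A X d ∧ B X d ∧ P' d}.Finite := by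
    refine (hfin X).subset ?_
    rintro d ⟨h1, h2, -⟩
    exact ⟨h1, h2⟩
  exact_mod_cast Set.ncard_le_ncard h1 h2

/-- The tuples with bounded norm. -/
private theorem fin_tup {K : Type} [Field K] [NumberField K] [Finite (𝓞 K)ˣ] (r p : ℕ) (X : ℝ)
    (P : (Fin r → 𝓞 K) → Prop) :
    {d : Fin r → 𝓞 K | P d ∧ ∃ A, A ≠ 0 ∧ |Algebra.norm ℤ A| ≤ X ∧ ∀ i, d i ∣ A ^ p}.Finite := by
  have h1 : {x : 𝓞 K | x ≠ 0 ∧ |Algebra.norm ℤ x| ≤ X ^ p}.Finite := fin_norm (X ^ p)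
  refine (Set.Finite.pi fun _ : Fin r => h1).subset ?_
  rintro d ⟨-, A, hA1, hA2, hA3⟩
  rw [Set.mem_pi]
  intro k _
  have hA0 : A ^ p ≠ 0 := pow_ne_zero p hA1
  have hk0 : d k ≠ 0 := fun h => hA0 (by
    have h2 := hA3 k
    rw [h] at h2
    exact zero_dvd_iff.1 h2)
  refine ⟨hk0, ?_⟩
  have h2 : Algebra.norm ℤ (d k) ∣ Algebra.norm ℤ A ^ p := by
    rw [← map_pow]
    exact map_dvd (Algebra.norm ℤ) (hA3 k)
  have h3 : Algebra.norm ℤ A ^ p ≠ 0 := by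
    rw [← map_pow]
    intro h
    exact hA0 (Algebra.norm_eq_zero_iff.1 h)
  have h4 : |Algebra.norm ℤ (d k)| ≤ |Algebra.norm ℤ A| ^ p := by
    rw [← abs_pow]
    exact Int.le_of_dvd (abs_pos.2 h3) ((abs_dvd_abs _ _).2 h2)
  have h5 : ((|Algebra.norm ℤ (d k)| : ℤ) : ℝ) ≤ ((|Algebra.norm ℤ A| : ℤ) : ℝ) ^ p := by
    exact_mod_cast h4
  exact h5.trans (pow_le_pow_left₀ (by positivity) hA2 p)

/-- **The law.** -/
theorem fin (p : ℕ) (K : Type) [Field K] [NumberField K] (E : WeierstrassCurve K) (F : Type) [Field F]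
    [NumberField F] [Algebra K F] (H : Hyp p K E F) (r : ℕ) (ε : ℝ) (hε : 0 < ε) :
    ∀ᶠ X : ℝ in Filter.atTop, cst p K F ^ ((p ^ r - 1) * Module.finrank K F) - ε ≤
      (Nat.card {N : IntermediateField K (AlgebraicClosure K) //
        N ∈ Ext K p r ∧ DiscLe N X ∧ PropM p E F N} : ℝ) /
      (Nat.card {N : IntermediateField K (AlgebraicClosure K) // N ∈ Ext K p r ∧ DiscLe N X} : ℝ) := by
  obtain ⟨hK, hΔ, h1, h6, hp, l, hl, hF⟩ := H
  rcases hp with ⟨rfl, h3, j, D, hjD, hj, hD⟩ | ⟨rfl, h2, h4, hs⟩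
  · have hl' : l = 2 ∨ l = 4 ∧ ∃ i : K, i ^ 2 = -1 := by
      rcases hl with h | ⟨-, h⟩
      · exact Or.inl h
      · exact Or.inr h
    have hneg : D < 0 := by
      have h7 := hjD
      simp only [List.mem_cons, Prod.mk.injEq, List.not_mem_nil, or_false] at h7
      rcases h7 with ⟨-, rfl⟩ | ⟨-, rfl⟩ | ⟨-, rfl⟩ | ⟨-, rfl⟩ | ⟨-, rfl⟩ | ⟨-, rfl⟩ | ⟨-, rfl⟩ |
        ⟨-, rfl⟩ | ⟨-, rfl⟩ | ⟨-, rfl⟩ | ⟨-, rfl⟩ | ⟨-, rfl⟩ | ⟨-, rfl⟩ <;> norm_num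
    have hfu : Finite (𝓞 K)ˣ := by
      obtain ⟨s, hs⟩ := hD
      exact Pool.Agent.Lib.MP_1a91b9_ntW.J.finite_units hK
        (Pool.Agent.Lib.MP_1a91b9_ntW.J.no_real hs hneg)
    have hpi : IsPrincipalIdealRing (𝓞 K) := by
      obtain ⟨a, ha⟩ : ∃ a, a = E.a₂ := ⟨_, rfl⟩
      obtain ⟨b, hb⟩ : ∃ b, b = E.a₄ := ⟨_, rfl⟩
      have hE : E = crv a b := WeierstrassCurve.ext h1 ha.symm h3 hb.symm h6
      have hΔ' := hΔ
      have hj' := hj
      rw [hE] at hΔ' hj'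
      rw [Pool.Agent.Lib.MP_1a91b9_ntY.crv_Δ] at hΔ' hj'
      rw [Pool.Agent.Lib.MP_1a91b9_ntY.crv_c₄] at hj'
      have hE' : b * (a ^ 2 - 4 * b) ≠ 0 := by
        intro h
        refine hΔ' ?_
        linear_combination 16 * b * h
      have hj2 : 256 * (a ^ 2 - 3 * b) ^ 3 = j * (b ^ 2 * (a ^ 2 - 4 * b)) := by
        have h16 : (16 : K) ≠ 0 := by norm_num
        refine mul_left_cancel₀ h16 ?_
        linear_combination hj'
      have hb0 : b ≠ 0 := left_ne_zero_of_mul hE'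
      have hW : Pool.Agent.Lib.MP_1a91b9_ntY.CMK (crv a b) := by
        obtain ⟨s, hs⟩ := hD
        refine ⟨?_, j, D, s, hjD, hs, ?_⟩
        · rw [Pool.Agent.Lib.MP_1a91b9_ntY.crv_Δ]
          exact mul_ne_zero (mul_ne_zero (by norm_num) (pow_ne_zero 2 hb0)) (right_ne_zero_of_mul hE')
        · refine Pool.Agent.Lib.MP_1a91b9_ntY.hasJ_crv ?_
          linear_combination 16 * hj2
      have hP : Pool.Agent.Lib.MP_1a91b9_ntY.Pt2 (crv a b) := by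
        refine ⟨0, ?_⟩
        unfold crv WeierstrassCurve.b₂ WeierstrassCurve.b₄ WeierstrassCurve.b₆
        ring
      exact Pool.Agent.Lib.MP_1a91b9_ntC.pid_of hK hW hP
    have hζ : IsPrimitiveRoot (-1 : K) 2 := IsPrimitiveRoot.neg_one 0 (by norm_num)
    refine law_disc hζ fin_norm r (fun N => PropM 2 E F N)
      (cst 2 K F ^ ((2 ^ r - 1) * Module.finrank K F)) (fun n u hu ε hε => ?_) ε hε
    refine fin_mono (α := Fin r → 𝓞 K) (A := fun _ d => ∀ i, Pf 2 (d i) ∧ ((2 : ℕ) : 𝓞 K) ^ n ∣ d i - u i)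
      (B := fun X d => ∃ A, A ≠ 0 ∧ |Algebra.norm ℤ A| ≤ X ∧ ∀ i, d i ∣ A ^ (2 - 1))
      (P := fun d => Pool.Agent.Lib.MP_1a91b9_ntMQ.Fin.PropMF E F (cK K d))
      (P' := fun d => Module.finrank K (NK 2 (cK K d)) = 2 ^ r ∧ PropM 2 E F (NK 2 (cK K d)))
      (fun X => fin_tup r _ X _) (fun X d hd hM => ?_)
      (l2 K hK E ⟨h1, h3, h6⟩ hΔ j D hjD hj hD l hl' F hF r n u hu ε hε)
    refine d2 E ⟨h1, h3, h6⟩ F (fun i => ?_) hM
    have h7 : d i ≠ 0 := by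
      intro h0
      have h8 := (hd i).1 0 (by
        rw [h0]
        exact dvd_zero _)
      exact not_isUnit_zero h8
    show ((d i : 𝓞 K) : K) ≠ 0
    exact_mod_cast h7
  · have hl' : l = 3 := by
      rcases hl with h | ⟨h, -⟩
      · exact h
      · exact absurd h (by norm_num)
    rw [hl'] at hF
    have hfu : Finite (𝓞 K)ˣ := by
      obtain ⟨s, hs⟩ := hs
      have hs' : s ^ 2 = ((-3 : ℤ) : K) := by
        rw [hs]
        push_cast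
        rfl
      exact Pool.Agent.Lib.MP_1a91b9_ntW.J.finite_units hK
        (Pool.Agent.Lib.MP_1a91b9_ntW.J.no_real hs' (by norm_num))
    have hpi : IsPrincipalIdealRing (𝓞 K) := by
      obtain ⟨s, hs⟩ := hs
      obtain ⟨e⟩ := Pool.Agent.Lib.MP_1a91b9_ntJ.exists_e6 hK hs
      obtain ⟨e'⟩ := Pool.Agent.Lib.MP_1a91b9_ntN.exists_iso36
      exact Pool.Agent.Lib.MP_1a91b9_ntMC.pid3
        ((e' : Pool.Agent.Lib.MP_1a91b9_ntT.K ≃+* _).trans e)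
    obtain ⟨z, hz⟩ : ∃ z : K, IsPrimitiveRoot z 3 := by
      obtain ⟨s, hs⟩ := hs
      obtain ⟨z, hz⟩ := Pool.Agent.Lib.MP_1a91b9_ntMC.zeta_of_sq hs
      refine ⟨z, ?_⟩
      have hz1 : z ≠ 1 := by
        rintro rfl
        have h3 : (3 : K) ≠ 0 := by norm_num
        apply h3
        linear_combination hz
      have hz3 : z ^ 3 = 1 := by linear_combination (z - 1) * hz
      rw [← orderOf_eq_prime hz3 hz1]
      exact IsPrimitiveRoot.orderOf z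
    have e1 : cst 3 K F = ∏' i : ℕ, (1 + 1 / (3 : ℝ) ^ (i + 1))⁻¹ := by
      unfold cst
      rw [if_pos rfl]
    rw [e1]
    refine law_disc hz fin_norm r (fun N => PropM 3 E F N)
      ((∏' i : ℕ, (1 + 1 / (3 : ℝ) ^ (i + 1))⁻¹) ^ ((3 ^ r - 1) * Module.finrank K F))
      (fun n u hu ε hε => ?_) ε hε
    refine fin_mono (α := Fin r → 𝓞 K) (A := fun _ d => ∀ i, Pf 3 (d i) ∧ ((3 : ℕ) : 𝓞 K) ^ n ∣ d i - u i)
      (B := fun X d => ∃ A, A ≠ 0 ∧ |Algebra.norm ℤ A| ≤ X ∧ ∀ i, d i ∣ A ^ (3 - 1))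
      (P := fun d => Pool.Agent.Lib.MP_1a91b9_ntMC.Fin.PropM E F (cK K d) ∧ TowM E F (cK K d))
      (P' := fun d => Module.finrank K (NK 3 (cK K d)) = 3 ^ r ∧ PropM 3 E F (NK 3 (cK K d)))
      (fun X => fin_tup r _ X _) (fun X d hd hM => ?_)
      (l3 K hK hs E ⟨h1, h2, h4, h6⟩ hΔ F hF r n u hu ε hε)
    refine d3 hs E ⟨h1, h2, h4, h6⟩ F (fun i => ?_) hM.1 hM.2
    have h7 : d i ≠ 0 := by
      intro h0
      have h8 := (hd i).1 0 (by
        rw [h0]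
        exact dvd_zero _)
      exact not_isUnit_zero h8
    show ((d i : 𝓞 K) : K) ≠ 0
    exact_mod_cast h7

end Pool.Agent.Lib.MP_1a91b9_ntDF
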