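import Pool.Agent.Lib.MP_1a91b9_ntDF.D0

set_option autoImplicit false

namespace Pool.Agent.Lib.MP_1a91b9_ntDF

section KA1
variable {K : Type} [Field K] {L : Type} [Field L] [Algebra K L] {p : ℕ}

/-- `a` is the `p`-th power of an eigenvector for the character `χ` of the Galois group. -/
def a_Rel (p : ℕ) (χ : (L ≃ₐ[K] L) →* Kˣ) (a : K) : Prop :=
  ∃ x : L, x ≠ 0 ∧ x ^ p = algebraMap K L a ∧
    ∀ σ : L ≃ₐ[K] L, σ x = algebraMap K L (χ σ : K) * x

theorem a1_exists [FiniteDimensional K L] [IsGalois K L] (χ : (L ≃ₐ[K] L) →* Kˣ)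
    (hχ : ∀ σ, χ σ ^ p = 1) : ∃ a : K, a ≠ 0 ∧ a_Rel p χ a := by
  obtain ⟨x, hx⟩ := groupCohomology.isMulCoboundary₁_of_isMulCocycle₁_of_aut_to_units
    (K := K) (L := L) (fun σ => Units.map (algebraMap K L).toMonoidHom (χ σ)) (by
      intro g h
      ext
      simp [AlgEquiv.smul_units_def, mul_comm])
  have h1 : ∀ σ : L ≃ₐ[K] L, σ (x : L) = algebraMap K L (χ σ : K) * x := by
    intro σ
    have h := hx σ
    rw [div_eq_iff_eq_mul] at h
    have h' := congrArg (fun u : Lˣ => (u : L)) h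
    simpa [AlgEquiv.smul_units_def] using h'
  have h2 : ∀ σ : L ≃ₐ[K] L, σ ((x : L) ^ p) = (x : L) ^ p := by
    intro σ
    rw [map_pow, h1, mul_pow, ← map_pow]
    have h3 : ((χ σ : Kˣ) : K) ^ p = 1 := by
      rw [← Units.val_pow_eq_pow_val, hχ, Units.val_one]
    rw [h3, map_one, one_mul]
  obtain ⟨a, ha⟩ := (IsGalois.mem_range_algebraMap_iff_fixed (F := K) ((x : L) ^ p)).2 h2
  refine ⟨a, ?_, (x : L), x.ne_zero, ha.symm, h1⟩
  rintro rfl
  rw [map_zero] at ha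
  exact pow_ne_zero p x.ne_zero ha.symm

theorem a1_char {ζ : K} (hζ : IsPrimitiveRoot ζ p) (hp : 0 < p) {x : L} (hx : x ≠ 0) {a : K}
    (hxa : x ^ p = algebraMap K L a) :
    ∃ χ : (L ≃ₐ[K] L) →* Kˣ, (∀ σ, σ x = algebraMap K L (χ σ : K) * x) ∧ ∀ σ, χ σ ^ p = 1 := by
  have : NeZero p := ⟨hp.ne'⟩
  have hinj := (algebraMap K L).injective
  have h1 : ∀ σ : L ≃ₐ[K] L, ∃ u : Kˣ, σ x = algebraMap K L (u : K) * x ∧ u ^ p = 1 := by
    intro σ
    have h2 : (σ x / x) ^ p = 1 := by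
      rw [div_pow, ← map_pow, hxa, AlgEquiv.commutes, div_self]
      rw [← hxa]
      exact pow_ne_zero p hx
    obtain ⟨k, -, hk⟩ := (hζ.map_of_injective hinj).eq_pow_of_pow_eq_one h2
    have hζ0 : ζ ≠ 0 := hζ.ne_zero hp.ne'
    refine ⟨Units.mk0 (ζ ^ k) (pow_ne_zero k hζ0), ?_, ?_⟩
    · rw [Units.val_mk0, map_pow, hk, div_mul_cancel₀ _ hx]
    · ext
      rw [Units.val_pow_eq_pow_val, Units.val_mk0, ← pow_mul, mul_comm, pow_mul, hζ.pow_eq_one,
        one_pow, Units.val_one]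
  choose f hf hf1 using h1
  refine ⟨⟨⟨f, ?_⟩, ?_⟩, hf, hf1⟩
  · ext
    apply hinj
    apply mul_right_cancel₀ hx
    rw [← hf]
    simp
  · intro σ τ
    ext
    apply hinj
    apply mul_right_cancel₀ hx
    show algebraMap K L (f (σ * τ) : K) * x = _
    rw [← hf, AlgEquiv.mul_apply, hf τ, map_mul, AlgEquiv.commutes, hf σ]
    show _ = algebraMap K L ((f σ : K) * (f τ : K)) * x
    rw [map_mul]
    ring

theorem a1_uniq {ζ : K} (hζ : IsPrimitiveRoot ζ p) (hp : 0 < p)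
    {χ χ' : (L ≃ₐ[K] L) →* Kˣ} {a : K} (h : a_Rel p χ a) (h' : a_Rel p χ' a) : χ = χ' := by
  have : NeZero p := ⟨hp.ne'⟩
  obtain ⟨x, hx, hxa, hxs⟩ := h
  obtain ⟨y, hy, hya, hys⟩ := h'
  have hinj := (algebraMap K L).injective
  have h2 : (y / x) ^ p = 1 := by
    rw [div_pow, hya, hxa, div_self]
    rw [← hxa]
    exact pow_ne_zero p hx
  obtain ⟨k, -, hk⟩ := (hζ.map_of_injective hinj).eq_pow_of_pow_eq_one h2
  have hyx : y = algebraMap K L (ζ ^ k) * x := by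
    rw [map_pow, hk, div_mul_cancel₀ _ hx]
  ext σ
  apply hinj
  apply mul_right_cancel₀ hy
  rw [← hys σ, hyx, map_mul, AlgEquiv.commutes, hxs σ]
  ring

theorem a1_same [FiniteDimensional K L] [IsGalois K L] {χ : (L ≃ₐ[K] L) →* Kˣ} {a a' : K}
    (h : a_Rel p χ a) (h' : a_Rel p χ a') : ∃ c : K, c ≠ 0 ∧ a' = c ^ p * a := by
  obtain ⟨x, hx, hxa, hxs⟩ := h
  obtain ⟨y, hy, hya, hys⟩ := h'
  have hinj := (algebraMap K L).injective
  have h2 : ∀ σ : L ≃ₐ[K] L, σ (y / x) = y / x := by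
    intro σ
    rw [map_div₀, hxs, hys]
    rw [mul_div_mul_left]
    rw [Ne, map_eq_zero]
    exact (χ σ).ne_zero
  obtain ⟨c, hc⟩ := (IsGalois.mem_range_algebraMap_iff_fixed (F := K) (y / x)).2 h2
  have hyx : y = algebraMap K L c * x := by
    rw [hc, div_mul_cancel₀ _ hx]
  refine ⟨c, ?_, ?_⟩
  · rintro rfl
    rw [map_zero, zero_mul] at hyx
    exact hy hyx
  · apply hinj
    rw [← hya, hyx, mul_pow, hxa, map_mul, map_pow]

theorem a1_mul {χ : (L ≃ₐ[K] L) →* Kˣ} {a c : K} (h : a_Rel p χ a) (hc : c ≠ 0) :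
    a_Rel p χ (c ^ p * a) := by
  obtain ⟨x, hx, hxa, hxs⟩ := h
  refine ⟨algebraMap K L c * x, mul_ne_zero ?_ hx, ?_, ?_⟩
  · rwa [Ne, map_eq_zero]
  · rw [mul_pow, hxa, map_mul, map_pow]
  · intro σ
    rw [map_mul, AlgEquiv.commutes, hxs]
    ring

theorem a1_ne {χ : (L ≃ₐ[K] L) →* Kˣ} {a : K} (h : a_Rel p χ a) : a ≠ 0 := by
  obtain ⟨x, hx, hxa, hxs⟩ := h
  rintro rfl
  rw [map_zero] at hxa
  exact pow_ne_zero p hx hxa

end KA1

section KA1R
variable {R : Type} [CommRing R] [IsDomain R] {p : ℕ}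

theorem a1_pf [IsPrincipalIdealRing R] (hp : 0 < p) (a : R) (ha : a ≠ 0) :
    ∃ b c : R, b ≠ 0 ∧ a = b ^ p * c ∧ Pf p c := by
  induction a using (wellFounded_dvdNotUnit (α := R)).induction with
  | _ a ih =>
    by_cases h : Pf p a
    · exact ⟨1, a, one_ne_zero, by rw [one_pow, one_mul], h⟩
    · rw [Pf] at h
      push Not at h
      obtain ⟨x, ⟨y, hy⟩, hx⟩ := h
      have hy0 : y ≠ 0 := by rintro rfl; exact ha (by rw [hy, mul_zero])
      have hx0 : x ≠ 0 := by rintro rfl; exact ha (by rw [hy, zero_pow hp.ne', zero_mul])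
      obtain ⟨b, c, hb, hbc, hc⟩ := ih y ⟨hy0, x ^ p, by
        rw [isUnit_pow_iff hp.ne']; exact hx, by rw [hy, mul_comm]⟩ hy0
      exact ⟨x * b, c, mul_ne_zero hx0 hb, by rw [hy, hbc]; ring, hc⟩

theorem a1_pfK [IsPrincipalIdealRing R] {K : Type} [Field K] [Algebra R K] [IsFractionRing R K]
    (hp : 0 < p) (a : K) (ha : a ≠ 0) :
    ∃ (b : K) (c : R), b ≠ 0 ∧ a = b ^ p * algebraMap R K c ∧ Pf p c := by
  obtain ⟨x, y, hy, hxy⟩ := IsFractionRing.div_surjective (A := R) a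
  have hinj := IsFractionRing.injective R K
  have hy0 : y ≠ 0 := nonZeroDivisors.ne_zero hy
  have hyK : algebraMap R K y ≠ 0 := by
    rw [Ne, ← map_zero (algebraMap R K)]
    exact fun h => hy0 (hinj h)
  have hx0 : x ≠ 0 := by
    rintro rfl
    rw [map_zero, zero_div] at hxy
    exact ha hxy.symm
  obtain ⟨b, c, hb, hbc, hc⟩ := a1_pf hp (x * y ^ (p - 1))
    (mul_ne_zero hx0 (pow_ne_zero _ hy0))
  have hbK : algebraMap R K b ≠ 0 := by
    rw [Ne, ← map_zero (algebraMap R K)]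
    exact fun h => hb (hinj h)
  refine ⟨algebraMap R K b / algebraMap R K y, c, div_ne_zero hbK hyK, ?_, hc⟩
  rw [div_pow, div_mul_eq_mul_div, ← map_pow, ← map_mul, ← hbc, map_mul, map_pow, eq_div_iff
    (pow_ne_zero p hyK), ← hxy]
  obtain ⟨q, rfl⟩ : ∃ q, p = q + 1 := ⟨p - 1, by omega⟩
  rw [Nat.add_sub_cancel]
  rw [pow_succ, div_mul_eq_mul_div, eq_comm]
  field_simp

theorem a1_unit [IsPrincipalIdealRing R] {K : Type} [Field K] [Algebra R K] [IsFractionRing R K]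
    {a a' : R} (ha : Pf p a) (ha' : Pf p a') {c : K}
    (h : algebraMap R K a' = c ^ p * algebraMap R K a) : ∃ u : Rˣ, a' = (u : R) ^ p * a := by
  classical
  have hinj := IsFractionRing.injective R K
  obtain ⟨x, y, hxy, hc⟩ := IsFractionRing.exists_reduced_fraction (A := R) c
  have hy0 : (y : R) ≠ 0 := nonZeroDivisors.ne_zero y.2
  have hyK : algebraMap R K y ≠ 0 := by
    rw [Ne, ← map_zero (algebraMap R K)]
    exact fun h => hy0 (hinj h)
  have h1 : (y : R) ^ p * a' = x ^ p * a := by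
    apply hinj
    rw [map_mul, map_mul, map_pow, map_pow, h, ← hc, IsFractionRing.mk'_eq_div, div_pow]
    field_simp
  have hcop : IsCoprime x (y : R) := hxy.isCoprime
  have h2 : IsUnit (y : R) := by
    apply ha
    exact (IsCoprime.pow hcop.symm).dvd_of_dvd_mul_left ⟨a', h1.symm⟩
  have h3 : IsUnit x := by
    apply ha'
    exact (IsCoprime.pow hcop).dvd_of_dvd_mul_left ⟨a, h1⟩
  obtain ⟨u, hu⟩ := h2
  obtain ⟨v, hv⟩ := h3
  refine ⟨v * u⁻¹, ?_⟩
  rw [← hu, ← hv] at h1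
  have h4 : (u : R) ^ p * a' = (u : R) ^ p * (((v * u⁻¹ : Rˣ) : R) ^ p * a) := by
    rw [h1, ← mul_assoc, ← mul_pow]
    congr 2
    rw [Units.val_mul, mul_comm (v : R), ← mul_assoc, Units.mul_inv, one_mul]
  exact mul_left_cancel₀ (pow_ne_zero p u.ne_zero) h4

omit [IsDomain R] in
theorem a1_pfu {a : R} (ha : Pf p a) (u : Rˣ) : Pf p ((u : R) ^ p * a) := by
  intro x hx
  apply ha x
  rw [← Units.val_pow_eq_pow_val, mul_comm] at hx
  exact (Units.dvd_mul_right).1 hx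

theorem a1_pf0 {a : R} (ha : Pf p a) : a ≠ 0 := by
  rintro rfl
  exact not_isUnit_zero (ha 0 (dvd_zero _))

end KA1R
end Pool.Agent.Lib.MP_1a91b9_ntDF
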