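import Pool.Agent.Lib.MP_1a91b9_ntDF.KA1

set_option autoImplicit false

namespace Pool.Agent.Lib.MP_1a91b9_ntDF

section KA2
variable {K : Type} [Field K] {p : ℕ} {r : ℕ}

theorem a2_root (hp : 0 < p) (a : K) :
    ∃ x : AlgebraicClosure K, x ^ p = algebraMap K (AlgebraicClosure K) a :=
  IsAlgClosed.exists_pow_nat_eq _ hp

theorem a2_le {ζ : K} (hζ : IsPrimitiveRoot ζ p) (hp : 0 < p) {a : Fin r → K} (ha : ∀ i, a i ≠ 0)
    (N : IntermediateField K (AlgebraicClosure K)) (x : Fin r → N)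
    (hx : ∀ i, x i ^ p = algebraMap K N (a i)) : NK p a ≤ N := by
  have : NeZero p := ⟨hp.ne'⟩
  rw [NK, IntermediateField.adjoin_le_iff]
  rintro y ⟨i, hy⟩
  have hxi : ((x i : N) : AlgebraicClosure K) ^ p = algebraMap K (AlgebraicClosure K) (a i) := by
    have h := congrArg (fun z : N => (z : AlgebraicClosure K)) (hx i)
    simpa using h
  have hxi0 : ((x i : N) : AlgebraicClosure K) ≠ 0 := by
    intro h
    rw [h, zero_pow hp.ne'] at hxi
    exact ha i ((map_eq_zero _).1 hxi.symm)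
  have h2 : (y / (x i : AlgebraicClosure K)) ^ p = 1 := by
    rw [div_pow, hy, hxi, div_self]
    rw [← hxi]
    exact pow_ne_zero p hxi0
  obtain ⟨k, -, hk⟩ := (hζ.map_of_injective
    (algebraMap K (AlgebraicClosure K)).injective).eq_pow_of_pow_eq_one h2
  have hyx : y = algebraMap K (AlgebraicClosure K) (ζ ^ k) * (x i : AlgebraicClosure K) := by
    rw [map_pow, hk, div_mul_cancel₀ _ hxi0]
  rw [hyx]
  exact mul_mem (N.algebraMap_mem _) (x i).2

theorem a2_mem (hp : 0 < p) (a : Fin r → K) (i : Fin r) :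
    ∃ x : NK p a, x ^ p = algebraMap K (NK p a) (a i) := by
  obtain ⟨x, hx⟩ := a2_root hp (a i)
  refine ⟨⟨x, IntermediateField.subset_adjoin K _ ⟨i, hx⟩⟩, ?_⟩
  apply Subtype.ext
  simpa using hx

theorem a2_char {ζ : K} (hζ : IsPrimitiveRoot ζ p) (hp : 0 < p) {a : Fin r → K}
    (ha : ∀ i, a i ≠ 0) :
    ∃ χ : Fin r → (NK p a ≃ₐ[K] NK p a) →* Kˣ, (∀ i, a_Rel p (χ i) (a i)) ∧
      (∀ i σ, χ i σ ^ p = 1) ∧ ∀ σ, (∀ i, χ i σ = 1) → σ = 1 := by
  have : NeZero p := ⟨hp.ne'⟩
  choose x hx using a2_mem hp a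
  have hx0 : ∀ i, x i ≠ 0 := by
    intro i h
    have h1 := hx i
    rw [h, zero_pow hp.ne'] at h1
    exact ha i ((map_eq_zero _).1 h1.symm)
  choose χ hχ hχ1 using fun i => a1_char (L := NK p a) hζ hp (hx0 i) (hx i)
  refine ⟨χ, fun i => ⟨x i, hx0 i, hx i, hχ i⟩, hχ1, ?_⟩
  intro σ hσ
  have h1 : ((NK p a).val.comp (σ : NK p a →ₐ[K] NK p a)) = (NK p a).val := by
    apply IntermediateField.algHom_ext_of_eq_adjoin (S := NK p a) (hS := rfl)
    rintro y hy
    obtain ⟨i, hi⟩ := hy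
    have hxi : ((x i : NK p a) : AlgebraicClosure K) ^ p =
        algebraMap K (AlgebraicClosure K) (a i) := by
      have h := congrArg (fun z : NK p a => (z : AlgebraicClosure K)) (hx i)
      simpa using h
    have hxi0 : ((x i : NK p a) : AlgebraicClosure K) ≠ 0 := by
      intro h
      rw [h, zero_pow hp.ne'] at hxi
      exact ha i ((map_eq_zero _).1 hxi.symm)
    have h2 : (y / (x i : AlgebraicClosure K)) ^ p = 1 := by
      rw [div_pow, hi, hxi, div_self]
      rw [← hxi]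
      exact pow_ne_zero p hxi0
    obtain ⟨k, -, hk⟩ := (hζ.map_of_injective
      (algebraMap K (AlgebraicClosure K)).injective).eq_pow_of_pow_eq_one h2
    have hmem : y ∈ NK p a := IntermediateField.subset_adjoin K _ ⟨i, hi⟩
    have hyx : (⟨y, hmem⟩ : NK p a) =
        algebraMap K (NK p a) (ζ ^ k) * x i := by
      apply Subtype.ext
      show y = algebraMap K (AlgebraicClosure K) (ζ ^ k) * (x i : AlgebraicClosure K)
      rw [map_pow, hk, div_mul_cancel₀ _ hxi0]
    show (((σ ⟨y, hmem⟩ : NK p a)) : AlgebraicClosure K) =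
      ((⟨y, hmem⟩ : NK p a) : AlgebraicClosure K)
    congr 1
    rw [hyx, map_mul, AlgEquiv.commutes, hχ i, hσ i, Units.val_one, map_one, one_mul]
  ext z
  have h2 := DFunLike.congr_fun h1 z
  exact h2

theorem a2_iff {ζ : K} (hζ : IsPrimitiveRoot ζ p) (hp : 0 < p) {a : Fin r → K}
    (N : IntermediateField K (AlgebraicClosure K)) [FiniteDimensional K N] [IsGalois K N]
    (χ : Fin r → (N ≃ₐ[K] N) →* Kˣ) (hR : ∀ i, a_Rel p (χ i) (a i))
    (hker : ∀ σ, (∀ i, χ i σ = 1) → σ = 1) : NK p a = N := by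
  choose x hx0 hx hσ using hR
  have ha : ∀ i, a i ≠ 0 := fun i => a1_ne (χ := χ i) ⟨x i, hx0 i, hx i, hσ i⟩
  apply le_antisymm (a2_le hζ hp ha N x hx)
  have h1 : (IntermediateField.adjoin K (Set.range x)).fixingSubgroup = ⊥ := by
    rw [eq_bot_iff]
    intro σ hs
    rw [Subgroup.mem_bot]
    apply hker
    intro i
    rw [IntermediateField.mem_fixingSubgroup_iff] at hs
    have h2 := hs (x i) (IntermediateField.subset_adjoin K _ ⟨i, rfl⟩)
    rw [hσ i] at h2
    have h3 : algebraMap K N ((χ i σ : Kˣ) : K) = 1 := by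
      apply mul_right_cancel₀ (hx0 i)
      rw [h2, one_mul]
    ext
    apply (algebraMap K N).injective
    rw [h3, Units.val_one, map_one]
  have h2 : IntermediateField.adjoin K (Set.range x) = ⊤ := by
    rw [← IsGalois.fixedField_fixingSubgroup (IntermediateField.adjoin K (Set.range x)), h1,
      IntermediateField.fixedField_bot]
  intro z hz
  have h3 : (⟨z, hz⟩ : N) ∈ IntermediateField.adjoin K (Set.range x) := by
    rw [h2]; exact IntermediateField.mem_top
  have h4 : z ∈ (IntermediateField.adjoin K (Set.range x)).map N.val := ⟨⟨z, hz⟩, h3, rfl⟩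
  rw [IntermediateField.adjoin_map] at h4
  refine (IntermediateField.adjoin.mono K _ _ ?_) h4
  rintro _ ⟨_, ⟨i, rfl⟩, rfl⟩
  refine ⟨i, ?_⟩
  have h := congrArg (fun z : N => (z : AlgebraicClosure K)) (hx i)
  simpa using h

theorem a2_normal {a : Fin r → K} [CharZero K] : IsGalois K (NK p a) := by
  have h1 : Normal K (NK p a) := by
    rw [IntermediateField.normal_iff_forall_map_le]
    intro σ
    rw [NK, IntermediateField.adjoin_map]
    apply IntermediateField.adjoin.mono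
    rintro _ ⟨y, ⟨i, hy⟩, rfl⟩
    refine ⟨i, ?_⟩
    show (σ y) ^ p = _
    rw [← map_pow, hy, AlgHom.commutes]
  exact ⟨⟩

end KA2
end Pool.Agent.Lib.MP_1a91b9_ntDF
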